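import Pool.Agent.Helper25.SE.Tr

set_option autoImplicit false

open Real Set Filter Topology
open scoped ContDiff

namespace Pool.Agent.Helper25.SE

noncomputable section

/-- uncurried form -/
def un (F : ℝ → ℝ → ℝ → ℝ) (p : ℝ × ℝ × ℝ) : ℝ := F p.1 p.2.1 p.2.2

theorem sm_iff {F : ℝ → ℝ → ℝ → ℝ} : Sm F ↔ ContDiff ℝ ∞ (un F) := Iff.rfl

variable {F G : ℝ → ℝ → ℝ → ℝ}

theorem Sm.fd (h : Sm F) (p : ℝ × ℝ × ℝ) : HasFDerivAt (un F) (fderiv ℝ (un F) p) p :=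
  ((contDiff_infty_iff_fderiv.1 (sm_iff.1 h)).1 p).hasFDerivAt

theorem Sm.h1' (h : Sm F) (x y t : ℝ) :
    HasDerivAt (fun s => F s y t) (fderiv ℝ (un F) (x, y, t) (1, 0, 0)) x := by
  have h1 : HasDerivAt (fun s : ℝ => ((s, y, t) : ℝ × ℝ × ℝ)) ((1, 0, 0) : ℝ × ℝ × ℝ) x :=
    (hasDerivAt_id x).prodMk ((hasDerivAt_const x y).prodMk (hasDerivAt_const x t))
  exact (h.fd (x, y, t)).comp_hasDerivAt x h1

theorem Sm.h2' (h : Sm F) (x y t : ℝ) :
    HasDerivAt (fun s => F x s t) (fderiv ℝ (un F) (x, y, t) (0, 1, 0)) y := by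
  have h1 : HasDerivAt (fun s : ℝ => ((x, s, t) : ℝ × ℝ × ℝ)) ((0, 1, 0) : ℝ × ℝ × ℝ) y :=
    (hasDerivAt_const y x).prodMk ((hasDerivAt_id y).prodMk (hasDerivAt_const y t))
  exact (h.fd (x, y, t)).comp_hasDerivAt y h1

theorem Sm.h3' (h : Sm F) (x y t : ℝ) :
    HasDerivAt (fun s => F x y s) (fderiv ℝ (un F) (x, y, t) (0, 0, 1)) t := by
  have h1 : HasDerivAt (fun s : ℝ => ((x, y, s) : ℝ × ℝ × ℝ)) ((0, 0, 1) : ℝ × ℝ × ℝ) t :=
    (hasDerivAt_const t x).prodMk ((hasDerivAt_const t y).prodMk (hasDerivAt_id t))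
  exact (h.fd (x, y, t)).comp_hasDerivAt t h1

theorem Sm.e1 (h : Sm F) : un (D1 F) = fun p => fderiv ℝ (un F) p (1, 0, 0) := by
  funext p; exact (h.h1' p.1 p.2.1 p.2.2).deriv
theorem Sm.e2 (h : Sm F) : un (D2 F) = fun p => fderiv ℝ (un F) p (0, 1, 0) := by
  funext p; exact (h.h2' p.1 p.2.1 p.2.2).deriv
theorem Sm.e3 (h : Sm F) : un (D3 F) = fun p => fderiv ℝ (un F) p (0, 0, 1) := by
  funext p; exact (h.h3' p.1 p.2.1 p.2.2).deriv

theorem fd_app {f : ℝ × ℝ × ℝ → ℝ} (h : ContDiff ℝ ∞ f) (v : ℝ × ℝ × ℝ) :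
    ContDiff ℝ ∞ fun p => fderiv ℝ f p v :=
  (contDiff_infty_iff_fderiv.1 h).2.clm_apply contDiff_const

theorem Sm.d1 (h : Sm F) : Sm (D1 F) := by rw [sm_iff, h.e1]; exact fd_app h _
theorem Sm.d2 (h : Sm F) : Sm (D2 F) := by rw [sm_iff, h.e2]; exact fd_app h _
theorem Sm.d3 (h : Sm F) : Sm (D3 F) := by rw [sm_iff, h.e3]; exact fd_app h _

theorem Sm.h1 (h : Sm F) (x y t : ℝ) : HasDerivAt (fun s => F s y t) (D1 F x y t) x := by
  have := h.h1' x y t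
  unfold D1; rw [this.deriv]; exact this
theorem Sm.h2 (h : Sm F) (x y t : ℝ) : HasDerivAt (fun s => F x s t) (D2 F x y t) y := by
  have := h.h2' x y t
  unfold D2; rw [this.deriv]; exact this
theorem Sm.h3 (h : Sm F) (x y t : ℝ) : HasDerivAt (fun s => F x y s) (D3 F x y t) t := by
  have := h.h3' x y t
  unfold D3; rw [this.deriv]; exact this

theorem fd_symm {f : ℝ × ℝ × ℝ → ℝ} (h : ContDiff ℝ ∞ f) (p v w : ℝ × ℝ × ℝ) :
    fderiv ℝ (fun q => fderiv ℝ f q v) p w = fderiv ℝ (fun q => fderiv ℝ f q w) p v := by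
  have hd : DifferentiableAt ℝ (fderiv ℝ f) p :=
    (contDiff_infty_iff_fderiv.1 (contDiff_infty_iff_fderiv.1 h).2).1 p
  have hs : ∀ u : ℝ × ℝ × ℝ, fderiv ℝ (fun q => fderiv ℝ f q u) p
      = (fderiv ℝ (fderiv ℝ f) p).flip u := by
    intro u
    have := hd.hasFDerivAt.clm_apply (hasFDerivAt_const u p)
    rw [this.fderiv]
    exact ContinuousLinearMap.ext fun z => by simp
  rw [hs, hs]
  have hsym : IsSymmSndFDerivAt ℝ f p :=
    (h.contDiffAt (x := p)).isSymmSndFDerivAt (by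
      simp only [minSmoothness_of_isRCLikeNormedField]
      have h2 : ((2 : ℕ∞) : WithTop ℕ∞) ≤ ((⊤ : ℕ∞) : WithTop ℕ∞) := WithTop.coe_le_coe.2 le_top
      exact h2)
  simp only [ContinuousLinearMap.flip_apply]
  exact (hsym v w).symm ▸ rfl

theorem Sm.c12 (h : Sm F) (x y t : ℝ) : D1 (D2 F) x y t = D2 (D1 F) x y t := by
  have a := congrFun h.d2.e1 (x, y, t)
  have b := congrFun h.d1.e2 (x, y, t)
  change D1 (D2 F) x y t = _ at a
  change D2 (D1 F) x y t = _ at b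
  rw [a, b, h.e1, h.e2]
  exact fd_symm h _ _ _
theorem Sm.c13 (h : Sm F) (x y t : ℝ) : D1 (D3 F) x y t = D3 (D1 F) x y t := by
  have a := congrFun h.d3.e1 (x, y, t)
  have b := congrFun h.d1.e3 (x, y, t)
  change D1 (D3 F) x y t = _ at a
  change D3 (D1 F) x y t = _ at b
  rw [a, b, h.e1, h.e3]
  exact fd_symm h _ _ _
theorem Sm.c23 (h : Sm F) (x y t : ℝ) : D2 (D3 F) x y t = D3 (D2 F) x y t := by
  have a := congrFun h.d3.e2 (x, y, t)
  have b := congrFun h.d2.e3 (x, y, t)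
  change D2 (D3 F) x y t = _ at a
  change D3 (D2 F) x y t = _ at b
  rw [a, b, h.e2, h.e3]
  exact fd_symm h _ _ _

end

end Pool.Agent.Helper25.SE
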