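import Pool.Agent.Helper25.SE.Cut

set_option autoImplicit false

open Real Set Filter Topology
open scoped ContDiff

namespace Pool.Agent.Helper25.SE

noncomputable section

/-- data of the one-variable construction near one real curve -/
structure Core (P a a' tau : ℝ → ℝ) : Prop where
  hP : ∀ s, HasDerivAt P (a s) s
  ha : ∀ s, HasDerivAt a (a' s) s
  P1 : ∀ s, |s| ≤ 1/6 → P s = s
  a1 : ∀ s, |s| ≤ 1/6 → a s = 1
  t1 : ∀ s, |s| < 1/3 → s < 1/6 → tau s = a' s
  t2 : ∀ s, |s| < 1/3 → -1/6 < s → tau s = - a' s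

def ch (P : ℝ → ℝ) (s : ℝ) : ℝ := Real.exp (-(P s)) * chi (-s)
def ck (P : ℝ → ℝ) (s : ℝ) : ℝ := Real.exp (P s) * chi s
def ch1 (P a : ℝ → ℝ) (s : ℝ) : ℝ := -(a s) * ch P s + 4 * be (-s) * ck P s
def ck1 (P a : ℝ → ℝ) (s : ℝ) : ℝ := a s * ck P s - 4 * be s * ch P s
def ch2 (P a a' : ℝ → ℝ) (s : ℝ) : ℝ :=
  -(a' s) * ch P s - a s * ch1 P a s - 4 * be1 (-s) * ck P s + 4 * be (-s) * ck1 P a s
def ck2 (P a a' : ℝ → ℝ) (s : ℝ) : ℝ :=
  a' s * ck P s + a s * ck1 P a s - 4 * be1 s * ch P s - 4 * be s * ch1 P a s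

variable {P a a' tau : ℝ → ℝ}

theorem has_neg {f : ℝ → ℝ} {f' s : ℝ} (h : HasDerivAt f f' (-s)) :
    HasDerivAt (fun s => f (-s)) (-f') s := by
  have h2 : HasDerivAt (fun s : ℝ => -s) (-1) s := hasDerivAt_neg s
  have := HasDerivAt.comp s h h2
  have e : -f' = f' * -1 := by ring
  rw [e]; exact this

theorem zone_abs {y : ℝ} (h : chi1 y ≠ 0) : -1/6 ≤ y ∧ y ≤ -1/12 := by
  constructor
  · by_contra hc
    exact h (chi1_lt (not_le.1 hc))
  · by_contra hc
    exact h (chi1_gt (not_le.1 hc))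

theorem ch_has (C : Core P a a' tau) (s : ℝ) : HasDerivAt (ch P) (ch1 P a s) s := by
  have h1 : HasDerivAt (fun s => Real.exp (-(P s))) (Real.exp (-(P s)) * (-(a s))) s :=
    ((C.hP s).neg).exp
  have h2 : HasDerivAt (fun s => chi (-s)) (-(chi1 (-s))) s := has_neg (cd_has chi_cd (-s))
  have h3 := h1.mul h2
  have e : ch1 P a s = Real.exp (-(P s)) * (-(a s)) * chi (-s)
      + Real.exp (-(P s)) * (-(chi1 (-s))) := by
    unfold ch1 ch ck be
    by_cases hz : chi1 (-s) = 0
    · rw [hz]; ring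
    · obtain ⟨z1, z2⟩ := zone_abs hz
      have hs : |s| ≤ 1/6 := abs_le.2 ⟨by linarith, by linarith⟩
      have hc : chi s = 1 := chi_one (by linarith)
      rw [C.P1 s hs, hc]
      have he : Real.exp (2 * -s) * Real.exp s = Real.exp (-s) := by
        rw [← Real.exp_add]; congr 1; ring
      rw [← he]; ring
  rw [e]; exact h3

theorem ck_has (C : Core P a a' tau) (s : ℝ) : HasDerivAt (ck P) (ck1 P a s) s := by
  have h1 : HasDerivAt (fun s => Real.exp (P s)) (Real.exp (P s) * a s) s := (C.hP s).exp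
  have h2 : HasDerivAt chi (chi1 s) s := cd_has chi_cd s
  have h3 := h1.mul h2
  have e : ck1 P a s = Real.exp (P s) * a s * chi s + Real.exp (P s) * chi1 s := by
    unfold ck1 ch ck be
    by_cases hz : chi1 s = 0
    · rw [hz]; ring
    · obtain ⟨z1, z2⟩ := zone_abs hz
      have hs : |s| ≤ 1/6 := abs_le.2 ⟨by linarith, by linarith⟩
      have hc : chi (-s) = 1 := chi_one (by linarith)
      rw [C.P1 s hs, hc]
      have he : Real.exp (2 * s) * Real.exp (-s) = Real.exp s := by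
        rw [← Real.exp_add]; congr 1; ring
      rw [← he]; ring
  rw [e]; exact h3

theorem ch1_has (C : Core P a a' tau) (s : ℝ) : HasDerivAt (ch1 P a) (ch2 P a a' s) s := by
  have h1 := ((C.ha s).neg).mul (ch_has C s)
  have h2 : HasDerivAt (fun s => be (-s)) (-(be1 (-s))) s := has_neg (be_has (-s))
  have h3 := h1.add ((h2.const_mul 4).mul (ck_has C s))
  have e : ch2 P a a' s = -(a' s) * ch P s + -(a s) * ch1 P a s
      + (4 * -(be1 (-s)) * ck P s + 4 * be (-s) * ck1 P a s) := by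
    unfold ch2; ring
  rw [e]; exact h3

theorem ck1_has (C : Core P a a' tau) (s : ℝ) : HasDerivAt (ck1 P a) (ck2 P a a' s) s := by
  have h1 := (C.ha s).mul (ck_has C s)
  have h3 := h1.sub (((be_has s).const_mul 4).mul (ch_has C s))
  have e : ck2 P a a' s = a' s * ck P s + a s * ck1 P a s
      - (4 * be1 s * ch P s + 4 * be s * ch1 P a s) := by
    unfold ck2; ring
  rw [e]; exact h3

/-- ratio on the left side -/
theorem ratio_left (C : Core P a a' tau) {s : ℝ} (h1 : -1/6 ≤ s) (h2 : s ≤ 1/12) :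
    ck P s = rho s * ch P s := by
  have hs : |s| ≤ 1/6 := abs_le.2 ⟨by linarith, by linarith⟩
  unfold ck ch rho
  rw [C.P1 s hs, chi_one (y := -s) (by linarith)]
  have he : Real.exp (2 * s) * Real.exp (-s) = Real.exp s := by
    rw [← Real.exp_add]; congr 1; ring
  rw [← he]; ring

theorem ratio_right (C : Core P a a' tau) {s : ℝ} (h1 : -1/12 ≤ s) (h2 : s ≤ 1/6) :
    ch P s = rho (-s) * ck P s := by
  have hs : |s| ≤ 1/6 := abs_le.2 ⟨by linarith, by linarith⟩
  unfold ck ch rho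
  rw [C.P1 s hs, chi_one (y := s) (by linarith)]
  have he : Real.exp (2 * -s) * Real.exp s = Real.exp (-s) := by
    rw [← Real.exp_add]; congr 1; ring
  rw [← he]; ring

theorem F1 (C : Core P a a' tau) (s : ℝ) :
    gg s * ck P s - 16 * be s ^ 2 * ch P s + HH s * ck P s + XX s * ch P s = 0 := by
  rcases lt_or_ge s (-1/6) with h | h
  · rw [gg_lt h, be_lt h, HH_lt h, XX_lt h]; ring
  rcases lt_or_ge (-1/12) s with h' | h'
  · rw [gg_gt h', be_gt h', HH_gt h', XX_gt h']; ring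
  rw [ratio_left C h (by linarith)]
  have := R1 s
  linear_combination (ch P s) * this

theorem F1r (C : Core P a a' tau) (s : ℝ) :
    -(gg s) * ch P s + HH s * ch P s + XX s * ck P s = 0 := by
  rcases lt_or_ge s (-1/6) with h | h
  · rw [gg_lt h, HH_lt h, XX_lt h]; ring
  rcases lt_or_ge (-1/12) s with h' | h'
  · rw [gg_gt h', HH_gt h', XX_gt h']; ring
  rw [ratio_left C h (by linarith)]
  have := R2 s
  linear_combination (ch P s) * this

theorem F2 (C : Core P a a' tau) (s : ℝ) :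
    gg (-s) * ch P s - 16 * be (-s) ^ 2 * ck P s + HH (-s) * ch P s + XX (-s) * ck P s = 0 := by
  rcases lt_or_ge (-s) (-1/6) with h | h
  · rw [gg_lt h, be_lt h, HH_lt h, XX_lt h]; ring
  rcases lt_or_ge (-1/12) (-s) with h' | h'
  · rw [gg_gt h', be_gt h', HH_gt h', XX_gt h']; ring
  rw [ratio_right C (by linarith) (by linarith)]
  have := R1 (-s)
  linear_combination (ck P s) * this

theorem F2r (C : Core P a a' tau) (s : ℝ) :
    -(gg (-s)) * ck P s + HH (-s) * ck P s + XX (-s) * ch P s = 0 := by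
  rcases lt_or_ge (-s) (-1/6) with h | h
  · rw [gg_lt h, HH_lt h, XX_lt h]; ring
  rcases lt_or_ge (-1/12) (-s) with h' | h'
  · rw [gg_gt h', HH_gt h', XX_gt h']; ring
  rw [ratio_right C (by linarith) (by linarith)]
  have := R2 (-s)
  linear_combination (ck P s) * this

theorem abe (C : Core P a a' tau) (s : ℝ) : a s * be s = be s := by
  rcases lt_or_ge s (-1/6) with h | h
  · rw [be_lt h]; ring
  rcases lt_or_ge (-1/12) s with h' | h'
  · rw [be_gt h']; ring
  rw [C.a1 s (abs_le.2 ⟨by linarith, by linarith⟩)]; ring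

theorem abe' (C : Core P a a' tau) (s : ℝ) : a s * be (-s) = be (-s) := by
  rcases lt_or_ge (-s) (-1/6) with h | h
  · rw [be_lt h]; ring
  rcases lt_or_ge (-1/12) (-s) with h' | h'
  · rw [be_gt h']; ring
  rw [C.a1 s (abs_le.2 ⟨by linarith, by linarith⟩)]; ring

theorem F3 (C : Core P a a' tau) {s : ℝ} (hs : |s| < 1/3) : (tau s - a' s) * ch P s = 0 := by
  rcases lt_or_ge s (1/6) with h | h
  · rw [C.t1 s hs h]; ring
  · unfold ch; rw [chi_zero (y := -s) (by linarith)]; ring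

theorem F4 (C : Core P a a' tau) {s : ℝ} (hs : |s| < 1/3) : (tau s + a' s) * ck P s = 0 := by
  rcases lt_or_ge (-1/6) s with h | h
  · rw [C.t2 s hs h]; ring
  · unfold ck; rw [chi_zero (y := s) (by linarith)]; ring

theorem r3 (C : Core P a a' tau) {s : ℝ} (hs : |s| < 1/3) :
    ch2 P a a' s - a s ^ 2 * ch P s - 4 * (be (-s) - be s) * ck1 P a s
      - 2 * (-(be1 (-s)) - be1 s) * ck P s + (HH s + HH (-s)) * ck P s
      + (XX s + XX (-s) + tau s) * ch P s = 0 := by
  have f1 := F1 C s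
  have f2 := F2r C s
  have f3 := F3 C hs
  have b1 := abe C s
  have b2 := abe' C s
  unfold ch2 ch1 ck1
  unfold gg at f1 f2
  linear_combination f1 + f2 + f3 + (4 * ck P s) * b1 - (4 * ck P s) * b2

theorem r4 (C : Core P a a' tau) {s : ℝ} (hs : |s| < 1/3) :
    ck2 P a a' s - a s ^ 2 * ck P s - 4 * (be (-s) - be s) * ch1 P a s
      - 2 * (-(be1 (-s)) - be1 s) * ch P s + (HH s + HH (-s)) * ch P s
      + (XX s + XX (-s) + tau s) * ck P s = 0 := by
  have f1 := F1r C s
  have f2 := F2 C s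
  have f3 := F4 C hs
  have b1 := abe C s
  have b2 := abe' C s
  unfold ck2 ch1 ck1
  unfold gg at f1 f2
  linear_combination f1 + f2 + f3 - (4 * ch P s) * b1 + (4 * ch P s) * b2

end

end Pool.Agent.Helper25.SE
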