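import Mathlib

set_option autoImplicit false

open Real Set Filter Topology
open scoped ContDiff

namespace Pool.Agent.Helper25.SE

noncomputable section

/-- smooth cutoff: 0 for y at most -1/6, 1 for y at least -1/12 -/
def chi (y : ℝ) : ℝ := Real.smoothTransition (12 * y + 2)

theorem chi_cd : ContDiff ℝ ∞ chi := by
  unfold chi
  exact Real.smoothTransition.contDiff.comp (by fun_prop)

theorem chi_zero {y : ℝ} (h : y ≤ -1/6) : chi y = 0 :=
  Real.smoothTransition.zero_of_nonpos (by linarith)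

theorem chi_one {y : ℝ} (h : -1/12 ≤ y) : chi y = 1 :=
  Real.smoothTransition.one_of_one_le (by linarith)

theorem chi_nonneg (y : ℝ) : 0 ≤ chi y := Real.smoothTransition.nonneg _

theorem chi_le_one (y : ℝ) : chi y ≤ 1 := Real.smoothTransition.le_one _

theorem cd_deriv {f : ℝ → ℝ} (h : ContDiff ℝ ∞ f) : ContDiff ℝ ∞ (deriv f) :=
  (contDiff_infty_iff_deriv.1 h).2

theorem cd_diff {f : ℝ → ℝ} (h : ContDiff ℝ ∞ f) : Differentiable ℝ f :=
  (contDiff_infty_iff_deriv.1 h).1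

theorem cd_has {f : ℝ → ℝ} (h : ContDiff ℝ ∞ f) (y : ℝ) : HasDerivAt f (deriv f y) y :=
  (cd_diff h y).hasDerivAt

def chi1 (y : ℝ) : ℝ := deriv chi y
def chi2 (y : ℝ) : ℝ := deriv chi1 y

theorem chi1_cd : ContDiff ℝ ∞ chi1 := cd_deriv chi_cd
theorem chi2_cd : ContDiff ℝ ∞ chi2 := cd_deriv chi1_cd

theorem chi1_lt {y : ℝ} (h : y < -1/6) : chi1 y = 0 := by
  have e : chi =ᶠ[𝓝 y] fun _ => (0 : ℝ) := by
    filter_upwards [Iio_mem_nhds h] with z hz
    exact chi_zero (le_of_lt hz)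
  unfold chi1
  rw [e.deriv_eq]; simp

theorem chi1_gt {y : ℝ} (h : -1/12 < y) : chi1 y = 0 := by
  have e : chi =ᶠ[𝓝 y] fun _ => (1 : ℝ) := by
    filter_upwards [Ioi_mem_nhds h] with z hz
    exact chi_one (le_of_lt hz)
  unfold chi1
  rw [e.deriv_eq]; simp

theorem chi2_lt {y : ℝ} (h : y < -1/6) : chi2 y = 0 := by
  have e : chi1 =ᶠ[𝓝 y] fun _ => (0 : ℝ) := by
    filter_upwards [Iio_mem_nhds h] with z hz
    exact chi1_lt hz
  unfold chi2
  rw [e.deriv_eq]; simp

theorem chi2_gt {y : ℝ} (h : -1/12 < y) : chi2 y = 0 := by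
  have e : chi1 =ᶠ[𝓝 y] fun _ => (0 : ℝ) := by
    filter_upwards [Ioi_mem_nhds h] with z hz
    exact chi1_gt hz
  unfold chi2
  rw [e.deriv_eq]; simp

def rho (y : ℝ) : ℝ := chi y * Real.exp (2 * y)
def be (y : ℝ) : ℝ := -(1/4) * Real.exp (2 * y) * chi1 y
def be1 (y : ℝ) : ℝ := -(1/4) * Real.exp (2 * y) * (2 * chi1 y + chi2 y)
def gg (y : ℝ) : ℝ := 4 * be y + 2 * be1 y
def HH (y : ℝ) : ℝ := (gg y * (1 + rho y ^ 2) - 16 * be y ^ 2 * rho y) / (1 - rho y ^ 2)
def XX (y : ℝ) : ℝ := (16 * be y ^ 2 - 2 * gg y * rho y) / (1 - rho y ^ 2)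

theorem exp2_cd : ContDiff ℝ ∞ fun y : ℝ => Real.exp (2 * y) := by fun_prop

theorem rho_cd : ContDiff ℝ ∞ rho := chi_cd.mul exp2_cd

theorem be_cd : ContDiff ℝ ∞ be := by
  have := (contDiff_const (c := -(1/4 : ℝ))).mul exp2_cd
  exact this.mul chi1_cd

theorem be1_cd : ContDiff ℝ ∞ be1 := by
  have := (contDiff_const (c := -(1/4 : ℝ))).mul exp2_cd
  exact this.mul ((contDiff_const.mul chi1_cd).add chi2_cd)

theorem gg_cd : ContDiff ℝ ∞ gg := (contDiff_const.mul be_cd).add (contDiff_const.mul be1_cd)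

theorem be_has (y : ℝ) : HasDerivAt be (be1 y) y := by
  have h1 : HasDerivAt (fun y : ℝ => Real.exp (2 * y)) (Real.exp (2 * y) * (2 * 1)) y :=
    ((hasDerivAt_id y).const_mul 2).exp
  have h2 : HasDerivAt chi1 (chi2 y) y := cd_has chi1_cd y
  have h3 := (h1.const_mul (-(1/4))).mul h2
  have e : be1 y = -(1/4) * (Real.exp (2 * y) * (2 * 1)) * chi1 y
      + -(1/4) * Real.exp (2 * y) * chi2 y := by unfold be1; ring
  rw [e]; exact h3

theorem be_lt {y : ℝ} (h : y < -1/6) : be y = 0 := by unfold be; rw [chi1_lt h]; ring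
theorem be_gt {y : ℝ} (h : -1/12 < y) : be y = 0 := by unfold be; rw [chi1_gt h]; ring
theorem be1_lt {y : ℝ} (h : y < -1/6) : be1 y = 0 := by
  unfold be1; rw [chi1_lt h, chi2_lt h]; ring
theorem be1_gt {y : ℝ} (h : -1/12 < y) : be1 y = 0 := by
  unfold be1; rw [chi1_gt h, chi2_gt h]; ring
theorem gg_lt {y : ℝ} (h : y < -1/6) : gg y = 0 := by
  unfold gg; rw [be_lt h, be1_lt h]; ring
theorem gg_gt {y : ℝ} (h : -1/12 < y) : gg y = 0 := by
  unfold gg; rw [be_gt h, be1_gt h]; ring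
theorem HH_lt {y : ℝ} (h : y < -1/6) : HH y = 0 := by
  unfold HH; rw [be_lt h, gg_lt h]; simp
theorem HH_gt {y : ℝ} (h : -1/12 < y) : HH y = 0 := by
  unfold HH; rw [be_gt h, gg_gt h]; simp
theorem XX_lt {y : ℝ} (h : y < -1/6) : XX y = 0 := by
  unfold XX; rw [be_lt h, gg_lt h]; simp
theorem XX_gt {y : ℝ} (h : -1/12 < y) : XX y = 0 := by
  unfold XX; rw [be_gt h, gg_gt h]; simp

theorem rho_lt_one {y : ℝ} (h : y < 0) : rho y < 1 := by
  unfold rho
  have h1 : Real.exp (2 * y) < 1 := by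
    rw [Real.exp_lt_one_iff]; linarith
  have h2 := chi_le_one y
  have h3 := chi_nonneg y
  have h4 := Real.exp_pos (2 * y)
  nlinarith

theorem rho_nonneg (y : ℝ) : 0 ≤ rho y := mul_nonneg (chi_nonneg y) (Real.exp_pos _).le

theorem den_ne {y : ℝ} (h : y < 0) : 1 - rho y ^ 2 ≠ 0 := by
  have h1 := rho_lt_one h
  have h2 := rho_nonneg y
  nlinarith

theorem R1 (y : ℝ) : HH y * rho y + XX y = - gg y * rho y + 16 * be y ^ 2 := by
  rcases lt_or_ge y 0 with h | h
  · have hd := den_ne h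
    unfold HH XX
    field_simp
    ring
  · rw [HH_gt (by linarith), XX_gt (by linarith), gg_gt (by linarith), be_gt (by linarith)]; ring

theorem R2 (y : ℝ) : HH y + XX y * rho y = gg y := by
  rcases lt_or_ge y 0 with h | h
  · have hd := den_ne h
    unfold HH XX
    field_simp
    ring
  · rw [HH_gt (by linarith), XX_gt (by linarith), gg_gt (by linarith)]; ring

theorem HH_cd : ContDiff ℝ ∞ HH := by
  rw [contDiff_iff_contDiffAt]
  intro y
  rcases lt_or_ge y 0 with h | h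
  · unfold HH
    refine ContDiffAt.div ?_ ?_ (den_ne h)
    · exact ((gg_cd.mul (contDiff_const.add (rho_cd.pow 2))).sub
        ((contDiff_const.mul (be_cd.pow 2)).mul rho_cd)).contDiffAt
    · exact (contDiff_const.sub (rho_cd.pow 2)).contDiffAt
  · have e : HH =ᶠ[𝓝 y] fun _ => (0 : ℝ) := by
      filter_upwards [Ioi_mem_nhds (show (-1/12 : ℝ) < y by linarith)] with z hz
      exact HH_gt hz
    exact contDiffAt_const.congr_of_eventuallyEq e

theorem XX_cd : ContDiff ℝ ∞ XX := by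
  rw [contDiff_iff_contDiffAt]
  intro y
  rcases lt_or_ge y 0 with h | h
  · unfold XX
    refine ContDiffAt.div ?_ ?_ (den_ne h)
    · exact ((contDiff_const.mul (be_cd.pow 2)).sub
        ((contDiff_const.mul gg_cd).mul rho_cd)).contDiffAt
    · exact (contDiff_const.sub (rho_cd.pow 2)).contDiffAt
  · have e : XX =ᶠ[𝓝 y] fun _ => (0 : ℝ) := by
      filter_upwards [Ioi_mem_nhds (show (-1/12 : ℝ) < y by linarith)] with z hz
      exact XX_gt hz
    exact contDiffAt_const.congr_of_eventuallyEq e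

end

end Pool.Agent.Helper25.SE
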