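import Mathlib

set_option autoImplicit false

open Real Set Filter Topology
open scoped ContDiff

namespace Pool.Agent.Helper25.SE

noncomputable section

/-- partial derivative in the coordinate i -/
def pd {n : ℕ} (i : Fin n) (f : (Fin n → ℝ) → ℝ) (x : Fin n → ℝ) : ℝ :=
  deriv (fun s : ℝ => f (Function.update x i s)) (x i)

def D1 (F : ℝ → ℝ → ℝ → ℝ) (x y t : ℝ) : ℝ := deriv (fun s => F s y t) x
def D2 (F : ℝ → ℝ → ℝ → ℝ) (x y t : ℝ) : ℝ := deriv (fun s => F x s t) y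
def D3 (F : ℝ → ℝ → ℝ → ℝ) (x y t : ℝ) : ℝ := deriv (fun s => F x y s) t

/-- smoothness of a function of three variables -/
def Sm (F : ℝ → ℝ → ℝ → ℝ) : Prop := ContDiff ℝ ∞ fun p : ℝ × ℝ × ℝ => F p.1 p.2.1 p.2.2

/-- flux component -/
def fl (a : ℕ → ℕ → ℝ → ℝ → ℝ → ℝ) (U : ℝ → ℝ → ℝ → ℝ) (i : ℕ) (x y t : ℝ) : ℝ :=
  a i 0 x y t * D1 U x y t + a i 1 x y t * D2 U x y t + a i 2 x y t * D3 U x y t

structure Ex (a : ℕ → ℕ → ℝ → ℝ → ℝ → ℝ) (V U : ℝ → ℝ → ℝ → ℝ) (lam : ℝ) : Prop where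
  sa : ∀ i < 3, ∀ j < 3, Sm (a i j)
  sV : Sm V
  sU : Sm U
  sy : ∀ i < 3, ∀ j < 3, ∀ x y t, a i j x y t = a j i x y t
  ax : ∀ i < 3, ∀ j < 3, ∀ x y t, a i j (x + 1) y t = a i j x y t
  ay : ∀ i < 3, ∀ j < 3, ∀ x y t, a i j x (y + 1) t = a i j x y t
  at' : ∀ i < 3, ∀ j < 3, ∀ x y t, a i j x y (t + 2 * π) = a i j x y t
  Vx : ∀ x y t, V (x + 1) y t = V x y t
  Vy : ∀ x y t, V x (y + 1) t = V x y t
  Vt : ∀ x y t, V x y (t + 2 * π) = V x y t
  Ut : ∀ x y t, U x y (t + 2 * π) = U x y t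
  pos : 0 < lam
  ell : ∀ x y t p q r : ℝ, lam * (p ^ 2 + q ^ 2 + r ^ 2) ≤
    (a 0 0 x y t * p + a 0 1 x y t * q + a 0 2 x y t * r) * p
      + (a 1 0 x y t * p + a 1 1 x y t * q + a 1 2 x y t * r) * q
      + (a 2 0 x y t * p + a 2 1 x y t * q + a 2 2 x y t * r) * r
  pde : ∀ x y t, D1 (fl a U 0) x y t + D2 (fl a U 1) x y t + D3 (fl a U 2) x y t
    + V x y t * U x y t = 0
  dec : ∀ x y t, |U x y t| ≤ Real.exp (-(x ^ 2 + y ^ 2))
  nz : ∃ x y t, U x y t ≠ 0

section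
variable {m : ℕ} (N : ℝ)

/-- lift to m + 3 variables -/
def Li (F : ℝ → ℝ → ℝ → ℝ) (x : Fin (m + 3) → ℝ) : ℝ :=
  F (N * x 0) (N * x 1) (2 * π * N * x 2)

theorem Li_sm {F : ℝ → ℝ → ℝ → ℝ} (h : Sm F) : ContDiff ℝ ∞ (Li (m := m) N F) := by
  unfold Li
  have h1 : ContDiff ℝ ∞ fun x : Fin (m + 3) → ℝ =>
      ((N * x 0, N * x 1, 2 * π * N * x 2) : ℝ × ℝ × ℝ) := by fun_prop
  exact h.comp h1

theorem v0 : (0 : Fin (m + 3)).val = 0 := rfl
theorem v1 : (1 : Fin (m + 3)).val = 1 := by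
  show 1 % (m + 3) = 1
  exact Nat.mod_eq_of_lt (by omega)
theorem v2 : (2 : Fin (m + 3)).val = 2 := by
  show 2 % (m + 3) = 2
  exact Nat.mod_eq_of_lt (by omega)

theorem f01 : (0 : Fin (m + 3)) ≠ 1 := by
  intro h
  have := congrArg Fin.val h
  rw [v0, v1] at this; omega
theorem f02 : (0 : Fin (m + 3)) ≠ 2 := by
  intro h
  have := congrArg Fin.val h
  rw [v0, v2] at this; omega
theorem f12 : (1 : Fin (m + 3)) ≠ 2 := by
  intro h
  have := congrArg Fin.val h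
  rw [v1, v2] at this; omega

theorem pd0 (F : ℝ → ℝ → ℝ → ℝ) (x : Fin (m + 3) → ℝ) :
    pd 0 (Li N F) x = N * Li N (D1 F) x := by
  unfold pd Li D1
  have e : (fun s : ℝ => F (N * Function.update x 0 s 0) (N * Function.update x 0 s 1)
      (2 * π * N * Function.update x 0 s 2)) = fun s => F (N * s) (N * x 1) (2 * π * N * x 2) := by
    funext s
    rw [Function.update_self, Function.update_of_ne f01.symm, Function.update_of_ne f02.symm]
  rw [e]
  have := deriv_comp_mul_left N (fun s => F s (N * x 1) (2 * π * N * x 2)) (x 0)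
  rw [this]; simp

theorem pd1 (F : ℝ → ℝ → ℝ → ℝ) (x : Fin (m + 3) → ℝ) :
    pd 1 (Li N F) x = N * Li N (D2 F) x := by
  unfold pd Li D2
  have e : (fun s : ℝ => F (N * Function.update x 1 s 0) (N * Function.update x 1 s 1)
      (2 * π * N * Function.update x 1 s 2)) = fun s => F (N * x 0) (N * s) (2 * π * N * x 2) := by
    funext s
    rw [Function.update_self, Function.update_of_ne f01, Function.update_of_ne f12.symm]
  rw [e]
  have := deriv_comp_mul_left N (fun s => F (N * x 0) s (2 * π * N * x 2)) (x 1)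
  rw [this]; simp

theorem pd2 (F : ℝ → ℝ → ℝ → ℝ) (x : Fin (m + 3) → ℝ) :
    pd 2 (Li N F) x = 2 * π * N * Li N (D3 F) x := by
  unfold pd Li D3
  have e : (fun s : ℝ => F (N * Function.update x 2 s 0) (N * Function.update x 2 s 1)
      (2 * π * N * Function.update x 2 s 2)) = fun s => F (N * x 0) (N * x 1) (2 * π * N * s) := by
    funext s
    rw [Function.update_self, Function.update_of_ne f02, Function.update_of_ne f12]
  rw [e]
  have := deriv_comp_mul_left (2 * π * N) (fun s => F (N * x 0) (N * x 1) s) (x 2)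
  rw [this]; simp

theorem ge3 (k : Fin m) : (k.succ.succ.succ : Fin (m + 3)) ≠ 0 ∧ (k.succ.succ.succ : Fin (m + 3)) ≠ 1
    ∧ (k.succ.succ.succ : Fin (m + 3)) ≠ 2 := by
  have hv : (k.succ.succ.succ : Fin (m + 3)).val = k.val + 3 := by simp
  refine ⟨?_, ?_, ?_⟩ <;> intro h <;> have := congrArg Fin.val h <;> rw [hv] at this
  · rw [v0] at this; omega
  · rw [v1] at this; omega
  · rw [v2] at this; omega

theorem pd3 (F : ℝ → ℝ → ℝ → ℝ) (k : Fin m) (x : Fin (m + 3) → ℝ) :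
    pd k.succ.succ.succ (Li N F) x = 0 := by
  obtain ⟨h0, h1, h2⟩ := ge3 k
  unfold pd Li
  have e : (fun s : ℝ => F (N * Function.update x k.succ.succ.succ s 0)
      (N * Function.update x k.succ.succ.succ s 1)
      (2 * π * N * Function.update x k.succ.succ.succ s 2))
      = fun _ => F (N * x 0) (N * x 1) (2 * π * N * x 2) := by
    funext s
    rw [Function.update_of_ne h0.symm, Function.update_of_ne h1.symm,
      Function.update_of_ne h2.symm]
  rw [e]; simp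

end

/-- scaling factor -/
def rr (i : ℕ) : ℝ := if i = 2 then 1 / (2 * π) else 1

/-- coefficient matrix in m + 3 variables -/
def AA {m : ℕ} (N : ℝ) (a : ℕ → ℕ → ℝ → ℝ → ℝ → ℝ) (i j : Fin (m + 3)) (x : Fin (m + 3) → ℝ) : ℝ :=
  if i.val < 3 ∧ j.val < 3 then rr i.val * rr j.val * Li N (a i.val j.val) x
  else if i = j then 1 else 0

end

end Pool.Agent.Helper25.SE
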