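import Pool.Agent.Helper25.SE.Core
import Pool.Agent.Helper25.SE.Tr

set_option autoImplicit false

open Real Set Filter Topology
open scoped ContDiff

namespace Pool.Agent.Helper25.SE

noncomputable section

def az (y : ℝ) : ℝ := -48 - Real.sin (4 * π * y)
def Pz (y : ℝ) : ℝ := -48 * y - (1 - Real.cos (4 * π * y)) / (4 * π)
def rh (y : ℝ) : ℝ := Real.exp (-(2 * Pz y)) * chi y
def kc (y : ℝ) : ℝ := Real.exp (-(2 * Pz y)) * chi1 y
def ep (y : ℝ) : ℝ := 1/2 * Real.exp (2 * Pz y) * chi1 (-y)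
def Ec (s : ℝ) : ℂ := Complex.exp ((s : ℂ) * Complex.I)
def zm (y s : ℝ) : ℂ :=
  -(kc y : ℂ) * Ec s ^ 2 * (1/2 + (rh y : ℂ) * Ec s ^ 2 / 3) / (1 + (rh y : ℂ) * Ec s ^ 2) ^ 2
def zp (y s : ℝ) : ℂ := (ep y : ℂ) / Ec s ^ 2
def zms (y s : ℝ) : ℂ :=
  -(kc y : ℂ) * (2 * Complex.I) * Ec s ^ 2 * (1/2 + (rh y : ℂ) * Ec s ^ 2 / 6)
    / (1 + (rh y : ℂ) * Ec s ^ 2) ^ 3
def zps (y s : ℝ) : ℂ := (ep y : ℂ) * (-(2 * Complex.I)) / Ec s ^ 2

theorem Ec_ne (s : ℝ) : Ec s ≠ 0 := Complex.exp_ne_zero _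
theorem Ec_norm (s : ℝ) : ‖Ec s‖ = 1 := Complex.norm_exp_ofReal_mul_I s
theorem Ec_has (s : ℝ) : HasDerivAt Ec (Complex.I * Ec s) s := by
  have h1 : HasDerivAt (fun s : ℝ => (s : ℂ) * Complex.I) (1 * Complex.I) s :=
    (Complex.ofRealCLM.hasDerivAt (x := s)).mul_const Complex.I
  have h2 := h1.cexp
  have e : Complex.I * Ec s = Complex.exp ((s : ℂ) * Complex.I) * (1 * Complex.I) := by
    unfold Ec; ring
  rw [e]; exact h2

theorem Pz_bound {y : ℝ} (h : y ≤ -1/32) : 2 ≤ 2 * Pz y := by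
  have h1 := Real.neg_one_le_cos (4 * π * y)
  have hp := Real.pi_gt_three
  have h2 : (1 - Real.cos (4 * π * y)) / (4 * π) ≤ 1/6 := by
    rw [div_le_iff₀ (by positivity)]; nlinarith
  unfold Pz
  linarith

theorem exp_two : (3 : ℝ) < Real.exp 2 := by
  have h1 := Real.exp_one_gt_d9
  have h2 : Real.exp 2 = Real.exp 1 * Real.exp 1 := by rw [← Real.exp_add]; norm_num
  rw [h2]; nlinarith

theorem rh_nonneg (y : ℝ) : 0 ≤ rh y := mul_nonneg (Real.exp_pos _).le (chi_nonneg y)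

theorem exp_lt_third {y : ℝ} (h : y ≤ -1/32) : Real.exp (-(2 * Pz y)) < 1/3 := by
  have h1 := Pz_bound h
  have h2 : Real.exp (-(2 * Pz y)) ≤ Real.exp (-2) := Real.exp_le_exp.2 (by linarith)
  have h3 : Real.exp (-2) = (Real.exp 2)⁻¹ := Real.exp_neg 2
  have h4 : (Real.exp 2)⁻¹ < 1/3 := by
    rw [one_div]; exact inv_strictAnti₀ (by norm_num) exp_two
  linarith

theorem rh_lt {y : ℝ} (h : y ≤ -1/32) : rh y < 1/3 := by
  have h1 := exp_lt_third h
  have h2 := chi_le_one y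
  have h3 := chi_nonneg y
  have h4 := Real.exp_pos (-(2 * Pz y))
  unfold rh; nlinarith

theorem one_add_ne {y : ℝ} (h : y ≤ -1/32) (s : ℝ) : (1 : ℂ) + (rh y : ℂ) * Ec s ^ 2 ≠ 0 := by
  intro hc
  have h1 : (rh y : ℂ) * Ec s ^ 2 = -1 := by linear_combination hc
  have h2 : ‖(rh y : ℂ) * Ec s ^ 2‖ = rh y := by
    rw [norm_mul, norm_pow, Ec_norm, Complex.norm_real, Real.norm_eq_abs,
      abs_of_nonneg (rh_nonneg y)]; ring
  rw [h1] at h2
  have h3 := rh_lt h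
  simp at h2
  linarith

theorem kc_lt {y : ℝ} (h : y < -1/6) : kc y = 0 := by unfold kc; rw [chi1_lt h]; ring
theorem kc_gt {y : ℝ} (h : -1/12 < y) : kc y = 0 := by unfold kc; rw [chi1_gt h]; ring
theorem ep_lt {y : ℝ} (h : y < 1/12) : ep y = 0 := by
  unfold ep; rw [chi1_gt (y := -y) (by linarith)]; ring
theorem ep_gt {y : ℝ} (h : 1/6 < y) : ep y = 0 := by
  unfold ep; rw [chi1_lt (y := -y) (by linarith)]; ring

theorem zm_has (y s : ℝ) : HasDerivAt (fun s => zm y s) (zms y s) s := by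
  rcases lt_or_ge (-1/12) y with h | h
  · have e : (fun s => zm y s) = fun _ => 0 := by
      funext s; unfold zm; rw [kc_gt h]; simp
    have e2 : zms y s = 0 := by unfold zms; rw [kc_gt h]; simp
    rw [e, e2]; exact hasDerivAt_const s 0
  · have hn := one_add_ne (y := y) (by linarith) s
    have hE := Ec_has s
    have h2 := hE.pow 2
    have hnum := ((h2.const_mul (-(kc y : ℂ)))).mul
      ((((h2.const_mul (rh y : ℂ)).div_const 3)).const_add (1/2))
    have hden := ((h2.const_mul (rh y : ℂ)).const_add 1).pow 2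
    have h3 := hnum.div hden (pow_ne_zero 2 hn)
    unfold zm
    refine h3.congr_deriv ?_
    unfold zms
    simp only [Pi.pow_apply, Pi.mul_apply]
    rw [div_eq_div_iff (pow_ne_zero 2 (pow_ne_zero 2 hn)) (pow_ne_zero 3 hn)]
    ring

theorem zp_has (y s : ℝ) : HasDerivAt (fun s => zp y s) (zps y s) s := by
  have hE := Ec_has s
  have h2 := hE.pow 2
  have hn := Ec_ne s
  have h3 := (hasDerivAt_const s (ep y : ℂ)).div h2 (pow_ne_zero 2 hn)
  unfold zp
  refine h3.congr_deriv ?_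
  unfold zps
  simp only [Pi.pow_apply]
  field_simp
  ring

structure CoreS (P a : ℝ → ℝ) : Prop where
  hP : ∀ s, HasDerivAt P (a s) s
  P1 : ∀ s, |s| ≤ 1/6 → P s = Pz s
  a1 : ∀ s, |s| ≤ 1/6 → a s = az s

def sh (P : ℝ → ℝ) (y : ℝ) : ℝ := Real.exp (-(P y)) * chi (-y)
def sk (P : ℝ → ℝ) (y : ℝ) : ℝ := Real.exp (-(3 * P y)) * chi y
def sh1 (P a : ℝ → ℝ) (y : ℝ) : ℝ := -(a y) * sh P y - Real.exp (-(P y)) * chi1 (-y)
def sk1 (P a : ℝ → ℝ) (y : ℝ) : ℝ := -(3 * a y) * sk P y + Real.exp (-(3 * P y)) * chi1 y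

theorem sh_has {P a : ℝ → ℝ} (C : CoreS P a) (y : ℝ) : HasDerivAt (sh P) (sh1 P a y) y := by
  have h1 : HasDerivAt (fun s => Real.exp (-(P s))) (Real.exp (-(P y)) * (-(a y))) y :=
    ((C.hP y).neg).exp
  have h2 : HasDerivAt (fun s => chi (-s)) (-(chi1 (-y))) y := has_neg (cd_has chi_cd (-y))
  have h3 := h1.mul h2
  have e : sh1 P a y = Real.exp (-(P y)) * (-(a y)) * chi (-y)
      + Real.exp (-(P y)) * (-(chi1 (-y))) := by unfold sh1 sh; ring
  rw [e]; exact h3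

theorem sk_has {P a : ℝ → ℝ} (C : CoreS P a) (y : ℝ) : HasDerivAt (sk P) (sk1 P a y) y := by
  have h1 : HasDerivAt (fun s => Real.exp (-(3 * P s))) (Real.exp (-(3 * P y)) * (-(3 * a y))) y :=
    (((C.hP y).const_mul 3).neg).exp
  have h2 : HasDerivAt chi (chi1 y) y := cd_has chi_cd y
  have h3 := h1.mul h2
  have e : sk1 P a y = Real.exp (-(3 * P y)) * (-(3 * a y)) * chi y
      + Real.exp (-(3 * P y)) * chi1 y := by unfold sk1 sk; ring
  rw [e]; exact h3

/-- first order equation in the core variables -/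
theorem core1 {P a : ℝ → ℝ} (C : CoreS P a) (y s : ℝ) :
    Complex.I * ((sh1 P a y : ℂ) * Ec s + (sk1 P a y : ℂ) * Ec s ^ 3)
      + ((a y : ℂ) + (zm y s + zp y s)) * (Complex.I * ((sh P y : ℂ) * Ec s
          + 3 * (sk P y : ℂ) * Ec s ^ 3))
      + 1/2 * (zms y s + zps y s) * ((sh P y : ℂ) * Ec s + (sk P y : ℂ) * Ec s ^ 3) = 0 := by
  have hE := Ec_ne s
  -- lowering part
  have A1 : Complex.I * (-(Real.exp (-(P y)) * chi1 (-y) : ℝ) : ℂ) * Ec s
      + zp y s * (Complex.I * ((sh P y : ℂ) * Ec s + 3 * (sk P y : ℂ) * Ec s ^ 3))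
      + 1/2 * zps y s * ((sh P y : ℂ) * Ec s + (sk P y : ℂ) * Ec s ^ 3) = 0 := by
    have key : Real.exp (-(P y)) * chi1 (-y) = 2 * ep y * sk P y := by
      by_cases hz : chi1 (-y) = 0
      · unfold ep; rw [hz]; ring
      · obtain ⟨z1, z2⟩ := zone_abs hz
        have hs : |y| ≤ 1/6 := abs_le.2 ⟨by linarith, by linarith⟩
        unfold ep sk
        rw [C.P1 y hs, chi_one (y := y) (by linarith)]
        have he : Real.exp (2 * Pz y) * Real.exp (-(3 * Pz y)) = Real.exp (-(Pz y)) := by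
          rw [← Real.exp_add]; congr 1; ring
        rw [← he]; ring
    rw [key]
    unfold zp zps
    push_cast
    field_simp
    ring
  have A2 : Complex.I * ((Real.exp (-(3 * P y)) * chi1 y : ℝ) : ℂ) * Ec s ^ 3
      + zm y s * (Complex.I * ((sh P y : ℂ) * Ec s + 3 * (sk P y : ℂ) * Ec s ^ 3))
      + 1/2 * zms y s * ((sh P y : ℂ) * Ec s + (sk P y : ℂ) * Ec s ^ 3) = 0 := by
    by_cases hz : chi1 y = 0
    · have hk : kc y = 0 := by unfold kc; rw [hz]; ring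
      unfold zm zms
      rw [hz, hk]; simp
    · obtain ⟨z1, z2⟩ := zone_abs hz
      have hs : |y| ≤ 1/6 := abs_le.2 ⟨by linarith, by linarith⟩
      have hn := one_add_ne (y := y) (by linarith) s
      have ek : Real.exp (-(3 * P y)) * chi1 y = kc y * sh P y := by
        unfold kc sh
        rw [C.P1 y hs, chi_one (y := -y) (by linarith)]
        have he : Real.exp (-(2 * Pz y)) * Real.exp (-(Pz y)) = Real.exp (-(3 * Pz y)) := by
          rw [← Real.exp_add]; congr 1; ring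
        rw [← he]; ring
      have es : sk P y = rh y * sh P y := by
        unfold rh sh sk
        rw [C.P1 y hs, chi_one (y := -y) (by linarith)]
        have he : Real.exp (-(2 * Pz y)) * Real.exp (-(Pz y)) = Real.exp (-(3 * Pz y)) := by
          rw [← Real.exp_add]; congr 1; ring
        rw [← he]; ring
      rw [ek, es]
      unfold zm zms
      push_cast
      have hD : (1 + (rh y : ℂ) * Ec s ^ 2) * (1 + (rh y : ℂ) * Ec s ^ 2)⁻¹ = 1 :=
        mul_inv_cancel₀ hn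
      rw [div_eq_mul_inv _ ((1 + (rh y : ℂ) * Ec s ^ 2) ^ 2),
        div_eq_mul_inv _ ((1 + (rh y : ℂ) * Ec s ^ 2) ^ 3), ← inv_pow, ← inv_pow]
      generalize (1 + (rh y : ℂ) * Ec s ^ 2)⁻¹ = D at *
      linear_combination -(Complex.I * (sh P y : ℂ) * Ec s ^ 3 * (kc y : ℂ)) *
        ((1 + D * (1 + (rh y : ℂ) * Ec s ^ 2)) + (1/2 + (rh y : ℂ) * Ec s ^ 2 / 6) * D ^ 2) * hD
  unfold sh1 sk1
  push_cast at A1 A2 ⊢
  linear_combination A1 + A2

end

end Pool.Agent.Helper25.SE
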