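import Pool.Agent.Helper25.SE.Calc
import Pool.Agent.Helper25.SE.Zon

set_option autoImplicit false

open Real Set Filter Topology
open scoped ContDiff

namespace Pool.Agent.Helper25.SE

noncomputable section

section
variable {F G : ℝ → ℝ → ℝ → ℝ}

theorem Sm.add (h : Sm F) (g : Sm G) : Sm fun x y t => F x y t + G x y t := ContDiff.add h g
theorem Sm.sub (h : Sm F) (g : Sm G) : Sm fun x y t => F x y t - G x y t := ContDiff.sub h g
theorem Sm.mul (h : Sm F) (g : Sm G) : Sm fun x y t => F x y t * G x y t := ContDiff.mul h g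
theorem Sm.neg (h : Sm F) : Sm fun x y t => -(F x y t) := ContDiff.neg h
theorem Sm.cm (c : ℝ) (h : Sm F) : Sm fun x y t => c * F x y t := contDiff_const.mul h
theorem Sm.pw (h : Sm F) (n : ℕ) : Sm fun x y t => F x y t ^ n := ContDiff.pow h n
theorem smc (c : ℝ) : Sm fun _ _ _ => c := contDiff_const
theorem smy {f : ℝ → ℝ} (h : ContDiff ℝ ∞ f) : Sm fun _ y _ => f y := by
  have h1 : ContDiff ℝ ∞ fun p : ℝ × ℝ × ℝ => p.2.1 := by fun_prop
  exact h.comp h1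
theorem smt {f : ℝ → ℝ} (h : ContDiff ℝ ∞ f) : Sm fun _ _ t => f t := by
  have h1 : ContDiff ℝ ∞ fun p : ℝ × ℝ × ℝ => p.2.2 := by fun_prop
  exact h.comp h1

/-- smoothness from smoothness at each point, in terms of y -/
theorem sm_of {F : ℝ → ℝ → ℝ → ℝ} (h : ∀ p : ℝ × ℝ × ℝ, ContDiffAt ℝ ∞ (un F) p) : Sm F :=
  contDiff_iff_contDiffAt.2 h

end

theorem Pz_cd : ContDiff ℝ ∞ Pz := by unfold Pz; fun_prop
theorem az_cd : ContDiff ℝ ∞ az := by unfold az; fun_prop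
theorem epz_cd (c : ℝ) : ContDiff ℝ ∞ fun y => Real.exp (c * Pz y) :=
  (contDiff_const.mul Pz_cd).exp
theorem rh_cd : ContDiff ℝ ∞ rh := by
  have := epz_cd (-2)
  have e : rh = fun y => Real.exp (-2 * Pz y) * chi y := by
    funext y; unfold rh; congr 2; ring
  rw [e]; exact this.mul chi_cd
theorem kc_cd : ContDiff ℝ ∞ kc := by
  have := epz_cd (-2)
  have e : kc = fun y => Real.exp (-2 * Pz y) * chi1 y := by
    funext y; unfold kc; congr 2; ring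
  rw [e]; exact this.mul chi1_cd
theorem ep_cd : ContDiff ℝ ∞ ep := by
  unfold ep
  exact (contDiff_const.mul (epz_cd 2)).mul (chi1_cd.comp contDiff_neg)

theorem oR {f : ℝ → ℝ} (h : ContDiff ℝ ∞ f) : ContDiff ℝ ∞ fun p : ℝ × ℝ × ℝ => (f p.2.1 : ℂ) := by
  have h1 : ContDiff ℝ ∞ fun p : ℝ × ℝ × ℝ => p.2.1 := by fun_prop
  exact Complex.ofRealCLM.contDiff.comp (h.comp h1)

theorem EcS : ContDiff ℝ ∞ fun p : ℝ × ℝ × ℝ => Ec p.2.2 := by
  unfold Ec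
  have h1 : ContDiff ℝ ∞ fun p : ℝ × ℝ × ℝ => p.2.2 := by fun_prop
  exact ((Complex.ofRealCLM.contDiff.comp h1).mul contDiff_const).cexp

theorem zmS : ContDiff ℝ ∞ fun p : ℝ × ℝ × ℝ => zm p.2.1 p.2.2 := by
  rw [contDiff_iff_contDiffAt]
  intro p
  rcases lt_or_ge (-1/12) p.2.1 with h | h
  · have e : (fun p : ℝ × ℝ × ℝ => zm p.2.1 p.2.2) =ᶠ[𝓝 p] fun _ => 0 := by
      have ho : IsOpen {q : ℝ × ℝ × ℝ | -1/12 < q.2.1} := isOpen_lt continuous_const (by fun_prop)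
      filter_upwards [ho.mem_nhds h] with q hq
      have hq' : -1/12 < q.2.1 := hq
      unfold zm; rw [kc_gt hq']; simp
    exact contDiffAt_const.congr_of_eventuallyEq e
  · have hn := one_add_ne (y := p.2.1) (by linarith) p.2.2
    have e2 : ContDiff ℝ ∞ fun p : ℝ × ℝ × ℝ => Ec p.2.2 * Ec p.2.2 := EcS.mul EcS
    have hR : ContDiff ℝ ∞ fun p : ℝ × ℝ × ℝ => (rh p.2.1 : ℂ) * (Ec p.2.2 * Ec p.2.2) :=
      (oR rh_cd).mul e2
    have hK : ContDiff ℝ ∞ fun p : ℝ × ℝ × ℝ => (kc p.2.1 : ℂ) * (Ec p.2.2 * Ec p.2.2) :=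
      (oR kc_cd).mul e2
    have hd : ContDiff ℝ ∞ fun p : ℝ × ℝ × ℝ => 1 + (rh p.2.1 : ℂ) * (Ec p.2.2 * Ec p.2.2) :=
      contDiff_const.add hR
    have hd2 : ContDiff ℝ ∞ fun p : ℝ × ℝ × ℝ =>
        (1 + (rh p.2.1 : ℂ) * (Ec p.2.2 * Ec p.2.2)) * (1 + (rh p.2.1 : ℂ) * (Ec p.2.2 * Ec p.2.2)) :=
      hd.mul hd
    have hnum : ContDiff ℝ ∞ fun p : ℝ × ℝ × ℝ =>
        -((kc p.2.1 : ℂ) * (Ec p.2.2 * Ec p.2.2)) *
          (1/2 + (1/3) * ((rh p.2.1 : ℂ) * (Ec p.2.2 * Ec p.2.2))) :=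
      hK.neg.mul (contDiff_const.add (contDiff_const.mul hR))
    have hne : (1 + (rh p.2.1 : ℂ) * (Ec p.2.2 * Ec p.2.2)) *
        (1 + (rh p.2.1 : ℂ) * (Ec p.2.2 * Ec p.2.2)) ≠ 0 := by
      have : Ec p.2.2 * Ec p.2.2 = Ec p.2.2 ^ 2 := by ring
      rw [this]; exact mul_ne_zero hn hn
    have hq : ContDiffAt ℝ ∞ (fun q : ℝ × ℝ × ℝ =>
        (-((kc q.2.1 : ℂ) * (Ec q.2.2 * Ec q.2.2)) *
          (1/2 + (1/3) * ((rh q.2.1 : ℂ) * (Ec q.2.2 * Ec q.2.2)))) *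
        ((1 + (rh q.2.1 : ℂ) * (Ec q.2.2 * Ec q.2.2)) *
        (1 + (rh q.2.1 : ℂ) * (Ec q.2.2 * Ec q.2.2)))⁻¹) p :=
      hnum.contDiffAt.mul (hd2.contDiffAt.inv hne)
    have e : (fun p : ℝ × ℝ × ℝ => zm p.2.1 p.2.2) = fun q : ℝ × ℝ × ℝ =>
        (-((kc q.2.1 : ℂ) * (Ec q.2.2 * Ec q.2.2)) *
          (1/2 + (1/3) * ((rh q.2.1 : ℂ) * (Ec q.2.2 * Ec q.2.2)))) *
        ((1 + (rh q.2.1 : ℂ) * (Ec q.2.2 * Ec q.2.2)) *
        (1 + (rh q.2.1 : ℂ) * (Ec q.2.2 * Ec q.2.2)))⁻¹ := by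
      funext q
      unfold zm
      rw [div_eq_mul_inv]
      have a1 : (1 + (rh q.2.1 : ℂ) * (Ec q.2.2 * Ec q.2.2)) *
        (1 + (rh q.2.1 : ℂ) * (Ec q.2.2 * Ec q.2.2)) = (1 + (rh q.2.1 : ℂ) * Ec q.2.2 ^ 2) ^ 2 := by
        ring
      rw [a1]; ring
    rw [e]; exact hq

theorem zpS : ContDiff ℝ ∞ fun p : ℝ × ℝ × ℝ => zp p.2.1 p.2.2 := by
  have hne : ∀ p : ℝ × ℝ × ℝ, Ec p.2.2 * Ec p.2.2 ≠ 0 := fun p => mul_ne_zero (Ec_ne _) (Ec_ne _)
  have e2 : ContDiff ℝ ∞ fun p : ℝ × ℝ × ℝ => Ec p.2.2 * Ec p.2.2 := EcS.mul EcS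
  have e : (fun p : ℝ × ℝ × ℝ => zp p.2.1 p.2.2) = fun q : ℝ × ℝ × ℝ =>
      (ep q.2.1 : ℂ) * (Ec q.2.2 * Ec q.2.2)⁻¹ := by
    funext q; unfold zp
    rw [div_eq_mul_inv, sq]
  rw [e]
  exact (oR ep_cd).mul (e2.inv hne)

def Z1 (_x y t : ℝ) : ℝ := (zm y t + zp y t).re
def Z2 (_x y t : ℝ) : ℝ := (zm y t + zp y t).im

theorem Z1_sm : Sm Z1 := Complex.reCLM.contDiff.comp (zmS.add zpS)
theorem Z2_sm : Sm Z2 := Complex.imCLM.contDiff.comp (zmS.add zpS)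

theorem Z_out {y : ℝ} (h : 1/6 < |y|) (x t : ℝ) : Z1 x y t = 0 ∧ Z2 x y t = 0 := by
  have hk : kc y = 0 ∧ ep y = 0 := by
    rcases lt_abs.1 h with h | h
    · exact ⟨kc_gt (by linarith), ep_gt h⟩
    · exact ⟨kc_lt (by linarith), ep_lt (by linarith)⟩
  unfold Z1 Z2 zm zp
  rw [hk.1, hk.2]; simp

theorem Z_in {y : ℝ} (h : |y| < 1/12) (x t : ℝ) : Z1 x y t = 0 ∧ Z2 x y t = 0 := by
  have h' := abs_lt.1 h
  have hk : kc y = 0 ∧ ep y = 0 := ⟨kc_gt (by linarith), ep_lt (by linarith)⟩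
  unfold Z1 Z2 zm zp
  rw [hk.1, hk.2]; simp

/-- zone part of the curvature -/
def tz (x y t : ℝ) : ℝ :=
  -(D2 Z1 x y t) + (az y + Z1 x y t) * D3 Z2 x y t - Z2 x y t * D3 Z1 x y t

theorem tz_sm : Sm tz :=
  ((Z1_sm.d2.neg).add (((smy az_cd).add Z1_sm).mul Z2_sm.d3)).sub (Z2_sm.mul Z1_sm.d3)

theorem tz_zero_of {O : Set ℝ} (hO : IsOpen O) (h : ∀ y ∈ O, ∀ x t, Z1 x y t = 0 ∧ Z2 x y t = 0)
    {y : ℝ} (hy : y ∈ O) (x t : ℝ) : tz x y t = 0 := by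
  have e1 : D2 Z1 x y t = 0 := by
    unfold D2
    have : (fun s => Z1 x s t) =ᶠ[𝓝 y] fun _ => 0 := by
      filter_upwards [hO.mem_nhds hy] with z hz
      exact (h z hz x t).1
    rw [this.deriv_eq]; simp
  have e2 : D3 Z2 x y t = 0 := by
    unfold D3
    have : (fun s => Z2 x y s) = fun _ => 0 := funext fun s => (h y hy x s).2
    rw [this]; simp
  unfold tz
  rw [e1, e2, (h y hy x t).2]; ring

theorem tz_out {y : ℝ} (h : 1/6 < |y|) (x t : ℝ) : tz x y t = 0 := by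
  have ho : IsOpen {z : ℝ | 1/6 < |z|} := isOpen_lt continuous_const continuous_abs
  exact tz_zero_of ho (fun y hy x t => Z_out hy x t) h x t

theorem tz_in {y : ℝ} (h : |y| < 1/12) (x t : ℝ) : tz x y t = 0 := by
  have ho : IsOpen {z : ℝ | |z| < 1/12} := isOpen_lt continuous_abs continuous_const
  exact tz_zero_of ho (fun y hy x t => Z_in hy x t) h x t

/-- normalized amplitudes -/
def hn (y : ℝ) : ℝ := Real.exp (Pz y) * chi (-y)
def kn (y : ℝ) : ℝ := Real.exp (-(Pz y)) * chi y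
def MM (y : ℝ) : ℝ := hn y ^ 2 + 3 * kn y ^ 2
def N2 (y t : ℝ) : ℝ := hn y ^ 2 + kn y ^ 2 + 2 * hn y * kn y * Real.cos (2 * t)
def JJ (y t : ℝ) : ℝ := MM y + 4 * hn y * kn y * Real.cos (2 * t)
def QQ (y t : ℝ) : ℝ := hn y ^ 2 + 9 * kn y ^ 2 + 10 * hn y * kn y * Real.cos (2 * t)
def zeta (y : ℝ) : ℝ := Real.smoothTransition ((1024 * y ^ 2 - 1) / 3)
def SQ (y : ℝ) : ℝ := Real.smoothTransition (1/2 + 3/2 * Real.sin (2 * π * y))

theorem hn_cd : ContDiff ℝ ∞ hn := by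
  have e : hn = fun y => Real.exp (1 * Pz y) * chi (-y) := by funext y; unfold hn; rw [one_mul]
  rw [e]; exact (epz_cd 1).mul (chi_cd.comp contDiff_neg)
theorem kn_cd : ContDiff ℝ ∞ kn := by
  have e : kn = fun y => Real.exp (-1 * Pz y) * chi y := by
    funext y; unfold kn; congr 2; ring
  rw [e]; exact (epz_cd (-1)).mul chi_cd
theorem zeta_cd : ContDiff ℝ ∞ zeta := by
  unfold zeta; exact Real.smoothTransition.contDiff.comp (by fun_prop)
theorem SQ_cd : ContDiff ℝ ∞ SQ := by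
  unfold SQ; exact Real.smoothTransition.contDiff.comp (by fun_prop)
theorem MM_cd : ContDiff ℝ ∞ MM := (hn_cd.pow 2).add (contDiff_const.mul (kn_cd.pow 2))

theorem c2_cd : ContDiff ℝ ∞ fun t : ℝ => Real.cos (2 * t) := by fun_prop
theorem s2_cd : ContDiff ℝ ∞ fun t : ℝ => Real.sin (2 * t) := by fun_prop

theorem N2_sm : Sm fun _ y t => N2 y t :=
  ((smy (hn_cd.pow 2)).add (smy (kn_cd.pow 2))).add
    ((smy ((contDiff_const.mul hn_cd).mul kn_cd)).mul (smt c2_cd))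
theorem JJ_sm : Sm fun _ y t => JJ y t :=
  (smy MM_cd).add ((smy ((contDiff_const.mul hn_cd).mul kn_cd)).mul (smt c2_cd))
theorem QQ_sm : Sm fun _ y t => QQ y t :=
  ((smy (hn_cd.pow 2)).add (smy (contDiff_const.mul (kn_cd.pow 2)))).add
    ((smy ((contDiff_const.mul hn_cd).mul kn_cd)).mul (smt c2_cd))

theorem zeta_in {y : ℝ} (h : |y| ≤ 1/32) : zeta y = 0 := by
  apply Real.smoothTransition.zero_of_nonpos
  have h1 := abs_le.1 h
  nlinarith [h1.1, h1.2]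
theorem zeta_out {y : ℝ} (h : 1/16 ≤ |y|) : zeta y = 1 := by
  apply Real.smoothTransition.one_of_one_le
  have : (1/16 : ℝ) ^ 2 ≤ |y| ^ 2 := by gcongr
  rw [sq_abs] at this
  linarith
theorem zeta_nonneg (y : ℝ) : 0 ≤ zeta y := Real.smoothTransition.nonneg _

/-- the strict inequality away from the real curve -/
theorem kn_lt {y : ℝ} (h : y ≤ -1/32) : 3 * kn y < hn y ∧ 0 ≤ kn y := by
  have h1 := exp_lt_third h
  have h2 := chi_le_one y
  have h3 := chi_nonneg y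
  have hc : chi (-y) = 1 := chi_one (by linarith)
  unfold kn hn
  rw [hc]
  have he : Real.exp (-(Pz y)) = Real.exp (-(2 * Pz y)) * Real.exp (Pz y) := by
    rw [← Real.exp_add]; congr 1; ring
  have hp := Real.exp_pos (Pz y)
  have hp2 := Real.exp_pos (-(2 * Pz y))
  rw [he]
  constructor
  · nlinarith [mul_nonneg (mul_pos hp2 hp).le (sub_nonneg.2 h2)]
  · positivity

theorem Pz_right {y : ℝ} (h : 1/32 ≤ y) : 2 * Pz y ≤ -2 := by
  have h1 := Real.cos_le_one (4 * π * y)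
  have hp := Real.pi_pos
  have h2 : 0 ≤ (1 - Real.cos (4 * π * y)) / (4 * π) :=
    div_nonneg (by linarith) (by positivity)
  unfold Pz
  linarith

theorem hn_lt {y : ℝ} (h : 1/32 ≤ y) : 3 * hn y < kn y ∧ 0 ≤ hn y := by
  have h1 := Pz_right h
  have h2 := chi_le_one (-y)
  have h3 := chi_nonneg (-y)
  have hc : chi y = 1 := chi_one (by linarith)
  unfold kn hn
  rw [hc]
  have h4 : Real.exp (2 * Pz y) < 1/3 := by
    have a1 : Real.exp (2 * Pz y) ≤ Real.exp (-2) := Real.exp_le_exp.2 (by linarith)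
    have a2 : Real.exp (-2) = (Real.exp 2)⁻¹ := Real.exp_neg 2
    have a3 : (Real.exp 2)⁻¹ < 1/3 := by
      rw [one_div]; exact inv_strictAnti₀ (by norm_num) exp_two
    linarith
  have he : Real.exp (Pz y) = Real.exp (2 * Pz y) * Real.exp (-(Pz y)) := by
    rw [← Real.exp_add]; congr 1; ring
  have hp := Real.exp_pos (-(Pz y))
  have hp2 := Real.exp_pos (2 * Pz y)
  rw [he]
  constructor
  · nlinarith [mul_nonneg (mul_pos hp2 hp).le (sub_nonneg.2 h2)]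
  · positivity

theorem pos_NJ {y : ℝ} (h : 1/32 ≤ |y|) (t : ℝ) : 0 < N2 y t ∧ 0 < JJ y t := by
  have c1 := Real.cos_le_one (2 * t)
  have c2 := Real.neg_one_le_cos (2 * t)
  rcases le_abs.1 h with h | h
  · obtain ⟨a, b⟩ := hn_lt h
    have hk : 0 < kn y := by linarith
    have hhk : 0 ≤ hn y * kn y := mul_nonneg b hk.le
    unfold N2 JJ MM
    constructor
    · nlinarith [mul_nonneg hhk (by linarith : 0 ≤ 1 + Real.cos (2 * t)), mul_pos (by linarith : 0 < kn y - hn y) (by linarith : 0 < kn y - hn y)]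
    · nlinarith [mul_nonneg hhk (by linarith : 0 ≤ 1 + Real.cos (2 * t)), mul_pos (by linarith : 0 < kn y - hn y) (by linarith : 0 < 3 * kn y - hn y)]
  · obtain ⟨a, b⟩ := kn_lt (y := y) (by linarith)
    have hh : 0 < hn y := by linarith
    have hhk : 0 ≤ hn y * kn y := mul_nonneg hh.le b
    unfold N2 JJ MM
    constructor
    · nlinarith [mul_nonneg hhk (by linarith : 0 ≤ 1 + Real.cos (2 * t)), mul_pos (by linarith : 0 < hn y - kn y) (by linarith : 0 < hn y - kn y)]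
    · nlinarith [mul_nonneg hhk (by linarith : 0 ≤ 1 + Real.cos (2 * t)), mul_pos (by linarith : 0 < hn y - kn y) (by linarith : 0 < hn y - 3 * kn y)]

end

end Pool.Agent.Helper25.SE
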