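import Pool.Agent.Helper25.SE.Fib

set_option autoImplicit false

open Real Set Filter Topology
open scoped ContDiff

namespace Pool.Agent.Helper25.SE

noncomputable section

variable (K : ℝ)

def Rz (x y t : ℝ) : ℝ := (1/2 * tz x y t * N2 y t + K * (zeta y * MM y)) / JJ y t
def Wz (x y t : ℝ) : ℝ :=
  (2 * D3 (Rz K) x y t * (hn y * kn y * Real.sin (2 * t)) + Rz K x y t * QQ y t
    - tz x y t * JJ y t) / N2 y t

theorem Rz_in {y : ℝ} (h : |y| < 1/32) (x t : ℝ) : Rz K x y t = 0 := by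
  unfold Rz
  rw [tz_in (lt_trans h (by norm_num)), zeta_in h.le]; simp

theorem D3Rz_in {y : ℝ} (h : |y| < 1/32) (x t : ℝ) : D3 (Rz K) x y t = 0 := by
  unfold D3
  have : (fun s => Rz K x y s) = fun _ => 0 := funext fun s => Rz_in K h x s
  rw [this]; simp

theorem Wz_in {y : ℝ} (h : |y| < 1/32) (x t : ℝ) : Wz K x y t = 0 := by
  unfold Wz
  rw [D3Rz_in K h, Rz_in K h, tz_in (lt_trans h (by norm_num))]; simp

theorem sm_div {F G : ℝ → ℝ → ℝ → ℝ} (hF : Sm F) (hG : Sm G)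
    (z : ∀ x y t, |y| < 1/32 → F x y t / G x y t = 0)
    (nz : ∀ x y t, 1/32 ≤ |y| → G x y t ≠ 0) : Sm fun x y t => F x y t / G x y t := by
  apply sm_of
  intro p
  rcases lt_or_ge |p.2.1| (1/32) with h | h
  · have e : (un fun x y t => F x y t / G x y t) =ᶠ[𝓝 p] fun _ => 0 := by
      have ho : IsOpen {q : ℝ × ℝ × ℝ | |q.2.1| < 1/32} :=
        isOpen_lt (by fun_prop) continuous_const
      filter_upwards [ho.mem_nhds h] with q hq
      exact z _ _ _ hq
    exact contDiffAt_const.congr_of_eventuallyEq e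
  · exact ContDiffAt.div (sm_iff.1 hF).contDiffAt (sm_iff.1 hG).contDiffAt (nz _ _ _ h)

theorem Rz_sm : Sm (Rz K) := by
  refine sm_div (F := fun x y t => 1/2 * tz x y t * N2 y t + K * (zeta y * MM y))
    (G := fun _ y t => JJ y t) ?_ JJ_sm ?_ ?_
  · exact ((tz_sm.cm (1/2)).mul N2_sm).add ((smy (zeta_cd.mul MM_cd)).cm K)
  · intro x y t h; exact Rz_in K h x t
  · intro x y t h; exact (pos_NJ h t).2.ne'

theorem Wz_sm : Sm (Wz K) := by
  refine sm_div (F := fun x y t => 2 * D3 (Rz K) x y t * (hn y * kn y * Real.sin (2 * t))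
      + Rz K x y t * QQ y t - tz x y t * JJ y t)
    (G := fun _ y t => N2 y t) ?_ N2_sm ?_ ?_
  · exact ((((Rz_sm K).d3.cm 2).mul ((smy (hn_cd.mul kn_cd)).mul (smt s2_cd))).add
      ((Rz_sm K).mul QQ_sm)).sub (tz_sm.mul JJ_sm)
  · intro x y t h; exact Wz_in K h x t
  · intro x y t h; exact (pos_NJ h t).1.ne'

theorem hn_right {y : ℝ} (h : 1/6 ≤ y) : hn y = 0 := by
  unfold hn; rw [chi_zero (y := -y) (by linarith)]; ring
theorem kn_left {y : ℝ} (h : y ≤ -1/6) : kn y = 0 := by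
  unfold kn; rw [chi_zero (y := y) h]; ring

theorem Rz_out {y : ℝ} (h : 1/6 < |y|) (x t : ℝ) : Rz K x y t = K := by
  have hp := pos_NJ (y := y) (by linarith) t
  have e : JJ y t = MM y := by
    unfold JJ
    rcases lt_abs.1 h with h | h
    · rw [hn_right h.le]; ring
    · rw [kn_left (y := y) (by linarith)]; ring
  unfold Rz
  rw [tz_out h, zeta_out (by linarith), e]
  rw [e] at hp
  have := hp.2.ne'
  field_simp
  ring

theorem D3Rz_out {y : ℝ} (h : 1/6 < |y|) (x t : ℝ) : D3 (Rz K) x y t = 0 := by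
  unfold D3
  have : (fun s => Rz K x y s) = fun _ => K := funext fun s => Rz_out K h x s
  rw [this]; simp

theorem Wz_right {y : ℝ} (h : 1/6 < y) (x t : ℝ) : Wz K x y t = 9 * K := by
  have h' : 1/6 < |y| := lt_abs.2 (Or.inl h)
  have hp := (pos_NJ (y := y) (by linarith) t).1
  unfold Wz
  rw [D3Rz_out K h', Rz_out K h', tz_out h']
  rw [div_eq_iff hp.ne']
  unfold QQ N2
  rw [hn_right h.le]; ring

theorem Wz_left {y : ℝ} (h : y < -1/6) (x t : ℝ) : Wz K x y t = K := by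
  have h' : 1/6 < |y| := lt_abs.2 (Or.inr (by linarith))
  have hp := (pos_NJ (y := y) (by linarith) t).1
  unfold Wz
  rw [D3Rz_out K h', Rz_out K h', tz_out h']
  rw [div_eq_iff hp.ne']
  unfold QQ N2
  rw [kn_left h.le]; ring

theorem eq2 {y : ℝ} (h : 1/32 ≤ |y|) (x t : ℝ) :
    D3 (Rz K) x y t * JJ y t - 8 * Rz K x y t * (hn y * kn y * Real.sin (2 * t))
      + 2 * tz x y t * (hn y * kn y * Real.sin (2 * t)) - 1/2 * D3 tz x y t * N2 y t = 0 := by
  have hc : HasDerivAt (fun s : ℝ => Real.cos (2 * s)) (-Real.sin (2 * t) * (2 * 1)) t :=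
    ((hasDerivAt_id t).const_mul 2).cos
  have hJ : HasDerivAt (fun s => JJ y s) (4 * hn y * kn y * (-Real.sin (2 * t) * (2 * 1))) t :=
    (hc.const_mul (4 * hn y * kn y)).const_add (MM y)
  have hN : HasDerivAt (fun s => N2 y s) (2 * hn y * kn y * (-Real.sin (2 * t) * (2 * 1))) t :=
    (hc.const_mul (2 * hn y * kn y)).const_add (hn y ^ 2 + kn y ^ 2)
  have h1 := ((Rz_sm K).h3 x y t).mul hJ
  have h2 := (((tz_sm.h3 x y t).const_mul (1/2)).mul hN).add_const (K * (zeta y * MM y))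
  have e : (fun s => Rz K x y s) * (fun s => JJ y s)
      = fun s => ((fun s => 1/2 * tz x y s) * fun s => N2 y s) s + K * (zeta y * MM y) := by
    funext s
    simp only [Pi.mul_apply]
    unfold Rz
    rw [div_mul_cancel₀ _ (pos_NJ h s).2.ne']
  rw [e] at h1
  have := h1.unique h2
  linear_combination this

theorem eq1 {y : ℝ} (h : 1/32 ≤ |y|) (x t : ℝ) :
    -(2 * D3 (Rz K) x y t * (hn y * kn y * Real.sin (2 * t))) - Rz K x y t * QQ y t
      + Wz K x y t * N2 y t + tz x y t * JJ y t = 0 := by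
  have : Wz K x y t * N2 y t = 2 * D3 (Rz K) x y t * (hn y * kn y * Real.sin (2 * t))
      + Rz K x y t * QQ y t - tz x y t * JJ y t := by
    unfold Wz
    rw [div_mul_cancel₀ _ (pos_NJ h t).1.ne']
  linear_combination this

theorem D3tz_in {y : ℝ} (h : |y| < 1/12) (x t : ℝ) : D3 tz x y t = 0 := by
  unfold D3
  have : (fun s => tz x y s) = fun _ => 0 := funext fun s => tz_in h x s
  rw [this]; simp

def Yre (x y t : ℝ) : ℝ :=
  -3 * D3 (Rz K) x y t * (kn y * Real.sin (2 * t))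
    - Rz K x y t * (hn y + 9 * kn y * Real.cos (2 * t))
    + Wz K x y t * (hn y + kn y * Real.cos (2 * t))
    + tz x y t * (hn y + 3 * kn y * Real.cos (2 * t)) + 1/2 * D3 tz x y t * (kn y * Real.sin (2 * t))
def Yim (x y t : ℝ) : ℝ :=
  D3 (Rz K) x y t * (hn y + 3 * kn y * Real.cos (2 * t))
    - 9 * Rz K x y t * (kn y * Real.sin (2 * t)) + Wz K x y t * (kn y * Real.sin (2 * t))
    + 3 * tz x y t * (kn y * Real.sin (2 * t)) - 1/2 * D3 tz x y t * (hn y + kn y * Real.cos (2 * t))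

theorem Y_zero (x y t : ℝ) : Yre K x y t = 0 ∧ Yim K x y t = 0 := by
  rcases lt_or_ge |y| (1/32) with h | h
  · have h12 : |y| < 1/12 := lt_trans h (by norm_num)
    unfold Yre Yim
    rw [D3Rz_in K h, Rz_in K h, Wz_in K h, tz_in h12, D3tz_in h12]
    constructor <;> ring
  · have a := eq1 K h x t
    have b := eq2 K h x t
    have c := Real.sin_sq_add_cos_sq (2 * t)
    have hp := (pos_NJ h t).1.ne'
    constructor
    · have : N2 y t * Yre K x y t = 0 := by
        unfold Yre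
        unfold QQ JJ MM N2 at a b
        unfold N2
        linear_combination (hn y + kn y * Real.cos (2 * t)) * a
          - kn y * Real.sin (2 * t) * b
          + kn y ^ 2 * hn y * (2 * tz x y t - 8 * Rz K x y t) * c
      exact (mul_eq_zero.1 this).resolve_left hp
    · have : N2 y t * Yim K x y t = 0 := by
        unfold Yim
        unfold QQ JJ MM N2 at a b
        unfold N2
        linear_combination kn y * Real.sin (2 * t) * a
          + (hn y + kn y * Real.cos (2 * t)) * b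
          + 2 * kn y ^ 2 * hn y * D3 (Rz K) x y t * c
      exact (mul_eq_zero.1 this).resolve_left hp

theorem Ec_sq (t : ℝ) : Ec t ^ 2 = (Real.cos (2 * t) : ℂ) + (Real.sin (2 * t) : ℂ) * Complex.I := by
  unfold Ec
  rw [← Complex.exp_nat_mul, Complex.ofReal_cos, Complex.ofReal_sin, ← Complex.exp_mul_I]
  congr 1; push_cast; ring

theorem lam_ex {P a : ℝ → ℝ} (C : CoreS P a) (y : ℝ) :
    ∃ l : ℝ, sh P y = l * hn y ∧ sk P y = l * kn y := by
  rcases le_or_gt |y| (1/6) with h | h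
  · refine ⟨Real.exp (-(2 * Pz y)), ?_, ?_⟩
    · unfold sh hn
      rw [C.P1 y h]
      have : Real.exp (-(2 * Pz y)) * Real.exp (Pz y) = Real.exp (-(Pz y)) := by
        rw [← Real.exp_add]; congr 1; ring
      rw [← this]; ring
    · unfold sk kn
      rw [C.P1 y h]
      have : Real.exp (-(2 * Pz y)) * Real.exp (-(Pz y)) = Real.exp (-(3 * Pz y)) := by
        rw [← Real.exp_add]; congr 1; ring
      rw [← this]; ring
  · rcases lt_abs.1 h with h | h
    · refine ⟨Real.exp (-(3 * P y) + Pz y), ?_, ?_⟩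
      · rw [hn_right h.le]; unfold sh; rw [chi_zero (y := -y) (by linarith)]; ring
      · unfold sk kn
        have : Real.exp (-(3 * P y) + Pz y) * Real.exp (-(Pz y)) = Real.exp (-(3 * P y)) := by
          rw [← Real.exp_add]; congr 1; ring
        rw [← this]; ring
    · refine ⟨Real.exp (-(P y) - Pz y), ?_, ?_⟩
      · unfold sh hn
        have : Real.exp (-(P y) - Pz y) * Real.exp (Pz y) = Real.exp (-(P y)) := by
          rw [← Real.exp_add]; congr 1; ring
        rw [← this]; ring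
      · rw [kn_left (y := y) (by linarith)]; unfold sk
        rw [chi_zero (y := y) (by linarith)]; ring

/-- core fibre functions -/
def Hc (P : ℝ → ℝ) (y s : ℝ) : ℂ := (sh P y : ℂ) * Ec s + (sk P y : ℂ) * Ec s ^ 3
def Hy (P a : ℝ → ℝ) (y s : ℝ) : ℂ := (sh1 P a y : ℂ) * Ec s + (sk1 P a y : ℂ) * Ec s ^ 3
def Hs (P : ℝ → ℝ) (y s : ℝ) : ℂ :=
  Complex.I * ((sh P y : ℂ) * Ec s + 3 * (sk P y : ℂ) * Ec s ^ 3)
def Hss (P : ℝ → ℝ) (y s : ℝ) : ℂ := -((sh P y : ℂ) * Ec s + 9 * (sk P y : ℂ) * Ec s ^ 3)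

theorem fibC {P a : ℝ → ℝ} (C : CoreS P a) (a' x y s : ℝ) :
    (D3 (Rz K) x y s : ℂ) * Hs P y s + ((-a'/4 + Rz K x y s : ℝ) : ℂ) * Hss P y s
      + ((3/4 * a' + Wz K x y s : ℝ) : ℂ) * Hc P y s
      - Complex.I * ((-a' + tz x y s : ℝ) : ℂ) * Hs P y s
      - Complex.I / 2 * (D3 tz x y s : ℂ) * Hc P y s = 0 := by
  obtain ⟨l, h1, h2⟩ := lam_ex C y
  obtain ⟨y1, y2⟩ := Y_zero K x y s
  have e2 := Ec_sq s
  have y1c : ((Yre K x y s : ℝ) : ℂ) = 0 := by rw [y1]; simp
  have y2c : ((Yim K x y s : ℝ) : ℂ) = 0 := by rw [y2]; simp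
  have hI := Complex.I_sq
  unfold Hs Hss Hc
  rw [h1, h2]
  have e3 : Ec s ^ 3 = Ec s * Ec s ^ 2 := by ring
  rw [e3, e2]
  unfold Yre at y1c
  unfold Yim at y2c
  push_cast at y1c y2c ⊢
  linear_combination (l : ℂ) * Ec s * y1c + (l : ℂ) * Ec s * Complex.I * y2c
    + (l : ℂ) * Ec s * (3 * (D3 (Rz K) x y s : ℂ) * (kn y : ℂ) * Complex.sin (2 * (s : ℂ))
      - (-(a' : ℂ) + tz x y s) * ((hn y : ℂ) + 3 * (kn y : ℂ) * (Complex.cos (2 * (s : ℂ))
        + Complex.sin (2 * (s : ℂ)) * Complex.I))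
      - 1/2 * (D3 tz x y s : ℂ) * ((kn y : ℂ) * Complex.sin (2 * (s : ℂ)))) * hI

end

end Pool.Agent.Helper25.SE
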