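import Pool.Agent.Helper25.SE.Sym

set_option autoImplicit false

open Real Set Filter Topology MeasureTheory
open scoped ContDiff

namespace Pool.Agent.Helper25.SE

noncomputable section

theorem Ec_pi (s : ℝ) : Ec (s + π) = -Ec s := by
  rw [Ec_add]
  have : Ec π = -1 := by unfold Ec; exact Complex.exp_pi_mul_I
  rw [this]; ring
theorem Ec_2pi (s : ℝ) : Ec (s + 2 * π) = Ec s := by
  rw [show s + 2 * π = s + π + π by ring, Ec_pi, Ec_pi]; ring
theorem Ec_6pi (s : ℝ) : Ec (s + 6 * π) = Ec s := by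
  rw [show s + 6 * π = s + 2 * π + 2 * π + 2 * π by ring, Ec_2pi, Ec_2pi, Ec_2pi]

theorem Ec2_pi (s : ℝ) : Ec (s + π) ^ 2 = Ec s ^ 2 := by rw [Ec_pi]; ring

theorem zm_pi (y s : ℝ) : zm y (s + π) = zm y s := by unfold zm; rw [Ec2_pi]
theorem zp_pi (y s : ℝ) : zp y (s + π) = zp y s := by unfold zp; rw [Ec2_pi]

theorem Z1_pi : Pi1 Z1 := ⟨fun _ _ _ _ => rfl, fun x y t => by unfold Z1; rw [zm_pi, zp_pi]⟩
theorem Z2_pi : Pi1 Z2 := ⟨fun _ _ _ _ => rfl, fun x y t => by unfold Z2; rw [zm_pi, zp_pi]⟩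

theorem tz_pi : Pi1 tz := by
  have a := Z1_pi
  have b := Z2_pi
  have a2 := a.d2
  have a3 := a.d3
  have b3 := b.d3
  constructor
  · intro x x' y t
    unfold tz
    rw [a.i x x', a2.i x x', a3.i x x', b.i x x', b3.i x x']
  · intro x y t
    unfold tz
    rw [a.p, a2.p, a3.p, b.p, b3.p]

theorem cos2pi (t : ℝ) : Real.cos (2 * (t + π)) = Real.cos (2 * t) := by
  rw [show 2 * (t + π) = 2 * t + 2 * π by ring, Real.cos_add_two_pi]
theorem sin2pi (t : ℝ) : Real.sin (2 * (t + π)) = Real.sin (2 * t) := by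
  rw [show 2 * (t + π) = 2 * t + 2 * π by ring, Real.sin_add_two_pi]

theorem N2_pi (y t : ℝ) : N2 y (t + π) = N2 y t := by unfold N2; rw [cos2pi]
theorem JJ_pi (y t : ℝ) : JJ y (t + π) = JJ y t := by unfold JJ; rw [cos2pi]
theorem QQ_pi (y t : ℝ) : QQ y (t + π) = QQ y t := by unfold QQ; rw [cos2pi]

variable (K lc : ℝ)

theorem Rz_pi : Pi1 (Rz K) := by
  have h := tz_pi
  constructor
  · intro x x' y t; unfold Rz; rw [h.i x x']
  · intro x y t; unfold Rz; rw [h.p, N2_pi, JJ_pi]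

theorem Wz_pi : Pi1 (Wz K) := by
  have h := tz_pi
  have r := Rz_pi K
  have r3 := r.d3
  constructor
  · intro x x' y t; unfold Wz; rw [h.i x x', r.i x x', r3.i x x']
  · intro x y t; unfold Wz; rw [h.p, r.p, r3.p, N2_pi, JJ_pi, QQ_pi, sin2pi]

theorem Rq_pi : Pi1 (Rq K) := by
  have r := Rz_pi K
  exact ⟨fun x x' y t => by unfold Rq; rw [r.i x x'], fun x y t => by unfold Rq; rw [r.p]⟩
theorem Wq_pi : Pi1 (Wq K) := by
  have r := Wz_pi K
  exact ⟨fun x x' y t => by unfold Wq; rw [r.i x x'], fun x y t => by unfold Wq; rw [r.p]⟩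

theorem Aα_pe : Pe Aα := (pey ab_per).add (gl_pe _ Z1_pi)
theorem Aβ_pe : Pe Aβ := gl_pe _ Z2_pi
theorem pB_pe : Pe (pB K) :=
  ((pey (f := fun y => -(ab1 y) / 4) fun y => by beta_reduce; rw [ab1_per]).add (pec K)).add
    (gl_pe _ (Rq_pi K))
theorem WB_pe : Pe (WB K) :=
  ((((pey ab1_per).cm (3/4)).add (pec K)).add ((pey SQ_per).cm (8 * K))).add (gl_pe _ (Wq_pi K))

theorem VB_pe : Pe (VB K) := by
  have a := Aα_pe
  have b := Aβ_pe
  exact ((WB_pe K).add (((((a.d3.d1).add (a.mul a.d3.d3)).add b.d3.d2).add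
    (b.mul b.d3.d3)).cm (1/2))).add (((a.d3.pw 2).add (b.d3.pw 2)).cm (1/4))

theorem VB_sm : Sm (VB K) := by
  have a := Aα_sm
  have b := Aβ_sm
  exact ((WB_sm K).add (((((a.d3.d1).add (a.mul a.d3.d3)).add b.d3.d2).add
    (b.mul b.d3.d3)).cm (1/2))).add (((a.d3.pw 2).add (b.d3.pw 2)).cm (1/4))

/-- bounded part of Rz -/
def T3 (x y t : ℝ) : ℝ := (1/2 * tz x y t * N2 y t) / JJ y t

theorem T3_sup : Sup2 T3 := fun y h x t => by unfold T3; rw [tz_out h]; simp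
theorem T3_sm : Sm T3 := by
  refine sm_div (F := fun x y t => 1/2 * tz x y t * N2 y t)
    (G := fun _ y t => JJ y t) ?_ JJ_sm ?_ ?_
  · exact (tz_sm.cm (1/2)).mul N2_sm
  · intro x y t h
    rw [tz_in (lt_trans h (by norm_num))]; simp
  · intro x y t h; exact (pos_NJ h t).2.ne'
theorem T3_pi : Pi1 T3 := by
  have h := tz_pi
  constructor
  · intro x x' y t; unfold T3; rw [h.i x x']
  · intro x y t; unfold T3; rw [h.p, N2_pi, JJ_pi]

theorem T3_bdd : ∃ C : ℝ, 0 ≤ C ∧ ∀ x y t, |y| < 1/3 → |T3 x y t| ≤ C := by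
  obtain ⟨C, h0, hC⟩ := bdd_pe (gl_pe 0 T3_pi) (gl_sm 0 T3_sup T3_sm)
  refine ⟨C, h0, fun x y t hy => ?_⟩
  have h := hC x y t
  rw [gl_I (n := 0) 0 T3_sup (by simpa using hy)] at h
  simpa using h

theorem MM_third {y : ℝ} (h : 1/32 ≤ |y|) (t : ℝ) : 1/3 ≤ MM y / JJ y t := by
  have hp := (pos_NJ h t).2
  rw [le_div_iff₀ hp]
  have hh : 0 ≤ hn y := mul_nonneg (Real.exp_pos _).le (chi_nonneg _)
  have hk : 0 ≤ kn y := mul_nonneg (Real.exp_pos _).le (chi_nonneg _)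
  have hhk := mul_nonneg hh hk
  have hc := Real.cos_le_one (2 * t)
  unfold JJ MM
  nlinarith [sq_nonneg (hn y - kn y), sq_nonneg (kn y), mul_nonneg hhk (by linarith : 0 ≤ 1 - Real.cos (2 * t))]

theorem Rz_nonneg {y : ℝ} (hK : 0 ≤ K) (h : |y| < 1/12) (x t : ℝ) : 0 ≤ Rz K x y t := by
  rcases lt_or_ge |y| (1/32) with h1 | h1
  · rw [Rz_in K h1]
  · unfold Rz
    rw [tz_in h]
    have hp := (pos_NJ h1 t).2
    have hm : 0 ≤ MM y := by unfold MM; positivity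
    have hz := zeta_nonneg y
    have h2 : 0 ≤ K * (zeta y * MM y) := mul_nonneg hK (mul_nonneg hz hm)
    have e : 1/2 * (0 : ℝ) * N2 y t + K * (zeta y * MM y) = K * (zeta y * MM y) := by ring
    rw [e]; exact div_nonneg h2 hp.le

theorem Rz_big {C0 : ℝ} (hK : 0 ≤ K) (hC : ∀ x y t, |y| < 1/3 → |T3 x y t| ≤ C0) {y : ℝ}
    (h1 : 1/16 ≤ |y|) (h2 : |y| < 1/3) (x t : ℝ) : K / 3 - C0 ≤ Rz K x y t := by
  have h3 := (abs_le.1 (hC x y t h2)).1
  have h4 := MM_third (y := y) (by linarith) t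
  have e : Rz K x y t = T3 x y t + K * (MM y / JJ y t) := by
    unfold Rz T3
    rw [zeta_out h1]; ring
  rw [e]
  nlinarith

theorem plow {C0 C1 K : ℝ} {a' : ℝ → ℝ} (ha : ∀ s, |s| < 1/6 → a' s = -(4 * π * Real.cos (4 * π * s)))
    (hC1 : ∀ s, |a' s| ≤ C1) (h01 : 0 ≤ C1) (h00 : 0 ≤ C0)
    (hC : ∀ x y t, |y| < 1/3 → |T3 x y t| ≤ C0) (hK : K = 3 * (C1 / 4 + C0 + 1))
    {y : ℝ} (hy : |y| < 1/3) (x t : ℝ) : 1 ≤ -(a' y) / 4 + Rz K x y t := by
  have hK0 : 0 ≤ K := by rw [hK]; positivity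
  rcases lt_or_ge |y| (1/16) with h | h
  · have h1 := Rz_nonneg K hK0 (y := y) (by linarith) x t
    rw [ha y (by linarith)]
    have h2 := Real.one_sub_sq_div_two_le_cos (x := 4 * π * y)
    have hp := Real.pi_gt_three
    have hp2 := Real.pi_lt_d2
    have h3 : y ^ 2 ≤ (1/16) ^ 2 := by
      rw [← sq_abs]; gcongr
    have h4 : (4 * π * y) ^ 2 ≤ (3.15 / 4) ^ 2 := by
      have : (4 * π * y) ^ 2 = 16 * π ^ 2 * y ^ 2 := by ring
      rw [this]
      have h5 : π ^ 2 ≤ 3.15 ^ 2 := by gcongr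
      have h6 := sq_nonneg y
      nlinarith
    have h7 : (1 : ℝ)/2 ≤ Real.cos (4 * π * y) := by linarith
    nlinarith
  · have h1 := Rz_big K hK0 hC h hy x t
    have h2 := (abs_le.1 (hC1 y)).2
    rw [hK] at h1 ⊢
    linarith

theorem az_has (y : ℝ) : HasDerivAt az (-(4 * π * Real.cos (4 * π * y))) y := by
  have h1 : HasDerivAt (fun y : ℝ => Real.sin (4 * π * y)) (Real.cos (4 * π * y) * (4 * π * 1)) y :=
    ((hasDerivAt_id y).const_mul (4 * π)).sin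
  have h2 := h1.const_sub (-48)
  have e : -(4 * π * Real.cos (4 * π * y)) = -(Real.cos (4 * π * y) * (4 * π * 1)) := by ring
  rw [e]; exact h2

theorem ab1_in {s : ℝ} (h : |s| < 1/6) : ab1 s = -(4 * π * Real.cos (4 * π * s)) := by
  have ho : IsOpen {z : ℝ | |z| < 1/6} := isOpen_lt continuous_abs continuous_const
  have e : ab =ᶠ[𝓝 s] az := by
    filter_upwards [ho.mem_nhds h] with z hz
    exact ab_in (le_of_lt hz)
  unfold ab1
  rw [e.deriv_eq, (az_has s).deriv]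

theorem ab1_half {s : ℝ} (h : |s| < 1/6) : ab1 (1/2 - s) = -(4 * π * Real.cos (4 * π * s)) := by
  have ho : IsOpen {z : ℝ | |z| < 1/6} := isOpen_lt continuous_abs continuous_const
  have e : ac =ᶠ[𝓝 s] az := by
    filter_upwards [ho.mem_nhds h] with z hz
    exact ab_half (le_of_lt hz)
  have h1 : HasDerivAt ac (ab1 (1/2 - s)) s := (loII 0 0 0).ha s
  have h2 := h1.deriv
  rw [e.deriv_eq, (az_has s).deriv] at h2
  exact h2.symm

theorem ab1_bdd : ∃ C : ℝ, 0 ≤ C ∧ ∀ y, |ab1 y| ≤ C := by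
  obtain ⟨C, h0, h⟩ := bdd_pe (pey ab1_per) (smy ab1_cd)
  exact ⟨C, h0, fun y => h 0 y 0⟩

theorem pB_low : ∃ K : ℝ, ∀ x y t, 1 ≤ pB K x y t := by
  obtain ⟨C0, h00, hC⟩ := T3_bdd
  obtain ⟨C1, h01, hC1⟩ := ab1_bdd
  refine ⟨3 * (C1 / 4 + C0 + 1), fun x y t => ?_⟩
  obtain ⟨n, hy | hy⟩ := cover y
  · rw [(loI _ 0 n).ep y hy]
    refine plow (a' := ab1) (fun s hs => ab1_in hs) hC1 h01 h00 hC rfl ?_ x _
    rw [one_mul]; exact hy
  · rw [(loII _ 0 n).ep y hy]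
    refine plow (a' := fun s => ab1 (1/2 - s)) (fun s hs => ab1_half hs) (fun s => hC1 _)
      h01 h00 hC rfl ?_ x _
    rw [show (-1) * (y - ((n : ℝ) + 1/2)) = -(y - n - 1/2) by ring, abs_neg]; exact hy

theorem ell_alg {A B p M2 : ℝ} (hM : A ^ 2 + B ^ 2 ≤ M2) (hM0 : 0 ≤ M2) (hp : 1 ≤ p) (u v w : ℝ) :
    1 / (2 * M2 + 2) * (u ^ 2 + v ^ 2 + w ^ 2) ≤
      (1 * u + 0 * v + A * w) * u + (0 * u + 1 * v + B * w) * v
        + (A * u + B * v + (A ^ 2 + B ^ 2 + p) * w) * w := by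
  have hd : 0 < 2 * M2 + 2 := by linarith
  rw [one_div, inv_mul_le_iff₀ hd]
  have e : (1 * u + 0 * v + A * w) * u + (0 * u + 1 * v + B * w) * v
        + (A * u + B * v + (A ^ 2 + B ^ 2 + p) * w) * w
      = (u + A * w) ^ 2 + (v + B * w) ^ 2 + p * w ^ 2 := by ring
  rw [e]
  have h1 : u ^ 2 ≤ 2 * (u + A * w) ^ 2 + 2 * (A ^ 2 * w ^ 2) := by
    nlinarith [sq_nonneg (u + 2 * (A * w))]
  have h2 : v ^ 2 ≤ 2 * (v + B * w) ^ 2 + 2 * (B ^ 2 * w ^ 2) := by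
    nlinarith [sq_nonneg (v + 2 * (B * w))]
  have hw := sq_nonneg w
  have h3 : (A ^ 2 + B ^ 2) * w ^ 2 ≤ M2 * w ^ 2 := mul_le_mul_of_nonneg_right hM hw
  have h4 : w ^ 2 ≤ p * w ^ 2 := by nlinarith
  have h5 : 0 ≤ M2 * ((u + A * w) ^ 2 + (v + B * w) ^ 2) := by positivity
  have h6 : M2 * w ^ 2 ≤ M2 * (p * w ^ 2) := mul_le_mul_of_nonneg_left h4 hM0
  nlinarith

theorem pp2_cd : ContDiff ℝ ∞ pp2 := by
  unfold pp2
  have h1 : ContDiff ℝ ∞ fun s : ℝ => π * s ^ 2 := by fun_prop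
  have h2 : ContDiff ℝ ∞ fun s : ℝ => s + 1/2 := by fun_prop
  exact ((h1.sub PB_cd).exp).mul ((chi_cd.comp contDiff_neg).mul (chi_cd.comp h2))
theorem qq2_cd : ContDiff ℝ ∞ qq2 := by
  unfold qq2
  have h1 : ContDiff ℝ ∞ fun s : ℝ => π * s ^ 2 := by fun_prop
  have h2 : ContDiff ℝ ∞ fun s : ℝ => 1/2 - s := by fun_prop
  exact ((h1.sub (contDiff_const.mul PB_cd)).exp).mul (chi_cd.mul (chi_cd.comp h2))

theorem cpt_bdd {f : ℝ → ℝ} (hc : Continuous f) (h : ∀ s, 1 ≤ |s| → f s = 0) :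
    ∃ C : ℝ, 0 ≤ C ∧ ∀ s, |f s| ≤ C := by
  obtain ⟨C, hC⟩ := (isCompact_Icc (a := (-1 : ℝ)) (b := 1)).exists_bound_of_continuousOn
    hc.continuousOn
  have h0 : 0 ≤ C := (norm_nonneg _).trans (hC 0 ⟨by norm_num, by norm_num⟩)
  refine ⟨C, h0, fun s => ?_⟩
  rcases lt_or_ge |s| 1 with hs | hs
  · have := abs_lt.1 hs
    have := hC s ⟨by linarith, by linarith⟩
    simpa using this
  · rw [h s hs, abs_zero]; exact h0

theorem UC_bdd : ∃ C : ℝ, 0 < C ∧ ∀ lc x y t,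
    ‖UC lc x y t‖ ≤ Real.exp (lc - (π / 2) * (x ^ 2 + y ^ 2)) * C := by
  obtain ⟨C1, h1, hp⟩ := cpt_bdd pp2_cd.continuous (fun s hs => pp2_out (by
    rcases le_abs.1 hs with h | h
    · right; linarith
    · left; linarith))
  obtain ⟨C2, h2, hq⟩ := cpt_bdd qq2_cd.continuous (fun s hs => qq2_out (by
    rcases le_abs.1 hs with h | h
    · right; linarith
    · left; linarith))
  refine ⟨C1 + C2 + 1, by positivity, fun lc x y t => ?_⟩
  have key : ∀ a b r s : ℝ, ‖(Real.exp (lc - (π / 2) * (x ^ 2 + y ^ 2)) : ℂ) *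
      (Ec a * (pp2 r : ℂ) + Ec b * (qq2 s : ℂ))‖
      ≤ Real.exp (lc - (π / 2) * (x ^ 2 + y ^ 2)) * (C1 + C2 + 1) := by
    intro a b r s
    rw [norm_mul, Complex.norm_real, Real.norm_eq_abs, abs_of_pos (Real.exp_pos _)]
    apply mul_le_mul_of_nonneg_left _ (Real.exp_pos _).le
    refine (norm_add_le _ _).trans ?_
    rw [norm_mul, norm_mul, Ec_norm, Ec_norm, Complex.norm_real, Complex.norm_real,
      Real.norm_eq_abs, Real.norm_eq_abs]
    have := hp r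
    have := hq s
    linarith
  obtain ⟨n, hy | hy⟩ := cover y
  · rw [UCI0 hy]; exact key _ _ _ _
  · rw [UCII0 hy]; exact key _ _ _ _

theorem U1_dec : ∃ lc : ℝ, ∀ x y t, |U1 lc x y t| ≤ Real.exp (-(x ^ 2 + y ^ 2)) := by
  obtain ⟨C, h0, hC⟩ := UC_bdd
  refine ⟨-Real.log C, fun x y t => ?_⟩
  have h1 : |U1 (-Real.log C) x y t| ≤ ‖UC (-Real.log C) x y t‖ := Complex.abs_re_le_norm _
  have h2 := hC (-Real.log C) x y t
  have h3 : Real.exp (-Real.log C - (π / 2) * (x ^ 2 + y ^ 2)) * C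
      = Real.exp (-((π / 2) * (x ^ 2 + y ^ 2))) := by
    rw [sub_eq_add_neg, Real.exp_add, Real.exp_neg, Real.exp_log h0]
    field_simp
  rw [h3] at h2
  refine (h1.trans h2).trans (Real.exp_le_exp.2 ?_)
  have hp := Real.pi_gt_three
  have : 0 ≤ x ^ 2 + y ^ 2 := by positivity
  nlinarith

theorem U1_nz : U1 lc 0 0 0 ≠ 0 := by
  unfold U1
  rw [UCI0 (n := 0) (y := 0) (by norm_num)]
  have hp : pp2 (0 - ((0 : ℤ) : ℝ)) = 1 := by
    unfold pp2
    norm_num [PB_zero]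
    rw [chi_one (y := 0) (by norm_num), chi_one (y := 1/2) (by norm_num)]; norm_num
  have hq : qq2 (0 - ((0 : ℤ) : ℝ)) = 1 := by
    unfold qq2
    norm_num [PB_zero]
    rw [chi_one (y := 0) (by norm_num), chi_one (y := 1/2) (by norm_num)]; norm_num
  rw [hp, hq]
  have h0 : Ec 0 = 1 := by unfold Ec; simp
  have e : Ec (0 - π * 0 * 0 + 2 * π * ((0 : ℤ) : ℝ) * 0) = 1 := by
    rw [show (0 : ℝ) - π * 0 * 0 + 2 * π * ((0 : ℤ) : ℝ) * 0 = 0 by ring]; exact h0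
  have e' : Ec (3 * 0 - π * 0 * 0 + 2 * π * ((0 : ℤ) : ℝ) * 0) = 1 := by
    rw [show (3 : ℝ) * 0 - π * 0 * 0 + 2 * π * ((0 : ℤ) : ℝ) * 0 = 0 by ring]; exact h0
  rw [e, e']
  have : ((Real.exp (lc - π / 2 * (0 ^ 2 + 0 ^ 2)) : ℝ) : ℂ) * (1 * ((1 : ℝ) : ℂ) + 1 * ((1 : ℝ) : ℂ))
      = ((Real.exp (lc - π / 2 * (0 ^ 2 + 0 ^ 2)) * 2 : ℝ) : ℂ) := by push_cast; ring
  rw [this, Complex.ofReal_re]
  positivity

theorem U1_t (x y t : ℝ) : U1 lc x y (t + 2 * π) = U1 lc x y t := by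
  unfold U1 UC
  congr 3
  · congr 1
    funext n
    rw [show t + 2 * π - π * x * y + 2 * π * n * x = (t - π * x * y + 2 * π * n * x) + 2 * π by ring,
      Ec_2pi]
  · congr 1
    funext n
    rw [show 3 * (t + 2 * π) - π * x * y + 2 * π * n * x
      = (3 * t - π * x * y + 2 * π * n * x) + 6 * π by ring, Ec_6pi]

theorem ex_sym : ∃ (K lc lam : ℝ), Ex (aM K) (VB K) (U1 lc) lam := by
  obtain ⟨K, hK⟩ := pB_low
  obtain ⟨lc, hl⟩ := U1_dec
  obtain ⟨M1, m10, h1⟩ := bdd_pe Aα_pe Aα_sm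
  obtain ⟨M2, m20, h2⟩ := bdd_pe Aβ_pe Aβ_sm
  have h22 : Sm fun x y t => Aα x y t ^ 2 + Aβ x y t ^ 2 + pB K x y t :=
    ((Aα_sm.pw 2).add (Aβ_sm.pw 2)).add (pB_sm K)
  have p22 : Pe fun x y t => Aα x y t ^ 2 + Aβ x y t ^ 2 + pB K x y t :=
    ((Aα_pe.pw 2).add (Aβ_pe.pw 2)).add (pB_pe K)
  have sm : ∀ i j, Sm (aM K i j) := by
    intro i j
    unfold aM
    split_ifs
    · exact h22
    · exact Aβ_sm
    · exact Aα_sm
    · exact Aβ_sm
    · exact Aα_sm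
    · exact smc 1
    · exact smc 0
  have pe : ∀ i j, Pe (aM K i j) := by
    intro i j
    unfold aM
    split_ifs
    · exact p22
    · exact Aβ_pe
    · exact Aα_pe
    · exact Aβ_pe
    · exact Aα_pe
    · exact pec 1
    · exact pec 0
  refine ⟨K, lc, 1 / (2 * (M1 ^ 2 + M2 ^ 2) + 2), ?_⟩
  exact {
    sa := fun i _ j _ => sm i j
    sV := VB_sm K
    sU := U1_sm lc
    sy := by
      intro i _ j _ x y t
      unfold aM
      by_cases hi : i = 2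
      · by_cases hj : j = 2
        · rw [hi, hj]
        · rw [if_pos hi, if_neg hj, if_neg hj, if_pos hi]
      · by_cases hj : j = 2
        · rw [if_neg hi, if_pos hj, if_pos hj, if_neg hi]
        · rw [if_neg hi, if_neg hj, if_neg hj, if_neg hi]
          by_cases e : i = j
          · rw [e]
          · rw [if_neg e, if_neg (Ne.symm e)]
    ax := fun i _ j _ => (pe i j).x
    ay := fun i _ j _ => (pe i j).y
    at' := fun i _ j _ => (pe i j).t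
    Vx := (VB_pe K).x
    Vy := (VB_pe K).y
    Vt := (VB_pe K).t
    Ut := U1_t lc
    pos := by positivity
    ell := by
      intro x y t p q r
      have hM : Aα x y t ^ 2 + Aβ x y t ^ 2 ≤ M1 ^ 2 + M2 ^ 2 := by
        have a1 : Aα x y t ^ 2 ≤ M1 ^ 2 := by
          rw [← sq_abs]; have := h1 x y t; gcongr
        have a2 : Aβ x y t ^ 2 ≤ M2 ^ 2 := by
          rw [← sq_abs]; have := h2 x y t; gcongr
        linarith
      have := ell_alg hM (by positivity) (hK x y t) p q r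
      simpa [aM] using this
    pde := pde_sym K lc
    dec := hl
    nz := ⟨0, 0, 0, U1_nz lc⟩ }

end

end Pool.Agent.Helper25.SE
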