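import Pool.Agent.Helper25.SE.Calc

set_option autoImplicit false

open Real Set Filter Topology
open scoped ContDiff

namespace Pool.Agent.Helper25.SE

noncomputable section

def EE1 (U1 U2 A1 A2 : ℝ → ℝ → ℝ → ℝ) (x y t : ℝ) : ℝ :=
  D1 U1 x y t - D2 U2 x y t + A1 x y t * D3 U1 x y t - A2 x y t * D3 U2 x y t
    + 1/2 * (D3 A1 x y t * U1 x y t - D3 A2 x y t * U2 x y t)
def EE2 (U1 U2 A1 A2 : ℝ → ℝ → ℝ → ℝ) (x y t : ℝ) : ℝ :=
  D1 U2 x y t + D2 U1 x y t + A1 x y t * D3 U2 x y t + A2 x y t * D3 U1 x y t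
    + 1/2 * (D3 A1 x y t * U2 x y t + D3 A2 x y t * U1 x y t)
def Th (A1 A2 : ℝ → ℝ → ℝ → ℝ) (x y t : ℝ) : ℝ :=
  D1 A2 x y t - D2 A1 x y t + A1 x y t * D3 A2 x y t - A2 x y t * D3 A1 x y t
def pot (A1 A2 W : ℝ → ℝ → ℝ → ℝ) (x y t : ℝ) : ℝ :=
  W x y t + 1/2 * (D1 (D3 A1) x y t + A1 x y t * D3 (D3 A1) x y t + D2 (D3 A2) x y t
    + A2 x y t * D3 (D3 A2) x y t) + 1/4 * (D3 A1 x y t ^ 2 + D3 A2 x y t ^ 2)

theorem lemS {U1 U2 A1 A2 p W : ℝ → ℝ → ℝ → ℝ}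
    (hU1 : Sm U1) (hU2 : Sm U2) (hA1 : Sm A1) (hA2 : Sm A2) (hp : Sm p)
    (z1 : ∀ x y t, EE1 U1 U2 A1 A2 x y t = 0) (z2 : ∀ x y t, EE2 U1 U2 A1 A2 x y t = 0)
    (fib : ∀ x y t, D3 p x y t * D3 U1 x y t + p x y t * D3 (D3 U1) x y t + W x y t * U1 x y t
      + Th A1 A2 x y t * D3 U2 x y t + 1/2 * D3 (Th A1 A2) x y t * U2 x y t = 0)
    (x y t : ℝ) :
    D1 (fun x y t => D1 U1 x y t + A1 x y t * D3 U1 x y t) x y t
      + D2 (fun x y t => D2 U1 x y t + A2 x y t * D3 U1 x y t) x y t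
      + D3 (fun x y t => A1 x y t * D1 U1 x y t + A2 x y t * D2 U1 x y t
          + (A1 x y t ^ 2 + A2 x y t ^ 2 + p x y t) * D3 U1 x y t) x y t
      + pot A1 A2 W x y t * U1 x y t = 0 := by
  -- derivatives of the first order equations
  have k1x : HasDerivAt (fun s => EE1 U1 U2 A1 A2 s y t) _ x :=
    ((((hU1.d1.h1 x y t).sub (hU2.d2.h1 x y t)).add ((hA1.h1 x y t).mul (hU1.d3.h1 x y t))).sub
      ((hA2.h1 x y t).mul (hU2.d3.h1 x y t))).add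
      ((((hA1.d3.h1 x y t).mul (hU1.h1 x y t)).sub
        ((hA2.d3.h1 x y t).mul (hU2.h1 x y t))).const_mul (1/2))
  have k1t : HasDerivAt (fun s => EE1 U1 U2 A1 A2 x y s) _ t :=
    ((((hU1.d1.h3 x y t).sub (hU2.d2.h3 x y t)).add ((hA1.h3 x y t).mul (hU1.d3.h3 x y t))).sub
      ((hA2.h3 x y t).mul (hU2.d3.h3 x y t))).add
      ((((hA1.d3.h3 x y t).mul (hU1.h3 x y t)).sub
        ((hA2.d3.h3 x y t).mul (hU2.h3 x y t))).const_mul (1/2))
  have k2y : HasDerivAt (fun s => EE2 U1 U2 A1 A2 x s t) _ y :=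
    ((((hU2.d1.h2 x y t).add (hU1.d2.h2 x y t)).add ((hA1.h2 x y t).mul (hU2.d3.h2 x y t))).add
      ((hA2.h2 x y t).mul (hU1.d3.h2 x y t))).add
      ((((hA1.d3.h2 x y t).mul (hU2.h2 x y t)).add
        ((hA2.d3.h2 x y t).mul (hU1.h2 x y t))).const_mul (1/2))
  have k2t : HasDerivAt (fun s => EE2 U1 U2 A1 A2 x y s) _ t :=
    ((((hU2.d1.h3 x y t).add (hU1.d2.h3 x y t)).add ((hA1.h3 x y t).mul (hU2.d3.h3 x y t))).add
      ((hA2.h3 x y t).mul (hU1.d3.h3 x y t))).add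
      ((((hA1.d3.h3 x y t).mul (hU2.h3 x y t)).add
        ((hA2.d3.h3 x y t).mul (hU1.h3 x y t))).const_mul (1/2))
  have c1x := k1x.unique (show HasDerivAt (fun s => EE1 U1 U2 A1 A2 s y t) 0 x by
    have : (fun s => EE1 U1 U2 A1 A2 s y t) = fun _ => 0 := funext fun s => z1 s y t
    rw [this]; exact hasDerivAt_const x 0)
  have c1t := k1t.unique (show HasDerivAt (fun s => EE1 U1 U2 A1 A2 x y s) 0 t by
    have : (fun s => EE1 U1 U2 A1 A2 x y s) = fun _ => 0 := funext fun s => z1 x y s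
    rw [this]; exact hasDerivAt_const t 0)
  have c2y := k2y.unique (show HasDerivAt (fun s => EE2 U1 U2 A1 A2 x s t) 0 y by
    have : (fun s => EE2 U1 U2 A1 A2 x s t) = fun _ => 0 := funext fun s => z2 x s t
    rw [this]; exact hasDerivAt_const y 0)
  have c2t := k2t.unique (show HasDerivAt (fun s => EE2 U1 U2 A1 A2 x y s) 0 t by
    have : (fun s => EE2 U1 U2 A1 A2 x y s) = fun _ => 0 := funext fun s => z2 x y s
    rw [this]; exact hasDerivAt_const t 0)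
  have e1 := z1 x y t
  have e2 := z2 x y t
  have f := fib x y t
  -- derivative of Th
  have kth : HasDerivAt (fun s => Th A1 A2 x y s) _ t :=
    ((((hA2.d1.h3 x y t).sub (hA1.d2.h3 x y t)).add ((hA1.h3 x y t).mul (hA2.d3.h3 x y t))).sub
      ((hA2.h3 x y t).mul (hA1.d3.h3 x y t)))
  have cth : D3 (Th A1 A2) x y t = _ := kth.deriv
  -- the three flux derivatives
  have g1 : D1 (fun x y t => D1 U1 x y t + A1 x y t * D3 U1 x y t) x y t = _ :=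
    ((hU1.d1.h1 x y t).add ((hA1.h1 x y t).mul (hU1.d3.h1 x y t))).deriv
  have g2 : D2 (fun x y t => D2 U1 x y t + A2 x y t * D3 U1 x y t) x y t = _ :=
    ((hU1.d2.h2 x y t).add ((hA2.h2 x y t).mul (hU1.d3.h2 x y t))).deriv
  have g3 : D3 (fun x y t => A1 x y t * D1 U1 x y t + A2 x y t * D2 U1 x y t
          + (A1 x y t ^ 2 + A2 x y t ^ 2 + p x y t) * D3 U1 x y t) x y t = _ :=
    ((((hA1.h3 x y t).mul (hU1.d1.h3 x y t)).add ((hA2.h3 x y t).mul (hU1.d2.h3 x y t))).add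
      (((((hA1.h3 x y t).pow 2).add ((hA2.h3 x y t).pow 2)).add (hp.h3 x y t)).mul
        (hU1.d3.h3 x y t))).deriv
  rw [g1, g2, g3]
  rw [cth] at f
  simp only [Pi.add_apply, Pi.pow_apply] at *
  have s1 := hU2.c12 x y t
  have s4 := hU2.c13 x y t
  have s5 := hU2.c23 x y t
  have s7 := hA1.c23 x y t
  have s8 := hA2.c13 x y t
  unfold EE1 at e1
  unfold EE2 at e2
  unfold Th at f
  unfold pot
  norm_num at g3 ⊢
  linear_combination c1x + c2y + A1 x y t * c1t + A2 x y t * c2t + f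
    + 1/2 * (D3 A1 x y t * e1 + D3 A2 x y t * e2)
    + s1 + A2 x y t * s4 - A1 x y t * s5
    - 1/2 * U2 x y t * s7 + 1/2 * U2 x y t * s8

end

end Pool.Agent.Helper25.SE
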