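import Pool.Agent.Helper25.SE.Loc
import Pool.Agent.Helper25.SE.LemS
import Pool.Agent.Helper25.SE.Fib2

set_option autoImplicit false

open Real Set Filter Topology
open scoped ContDiff

namespace Pool.Agent.Helper25.SE

noncomputable section

theorem Ec_add (a b : ℝ) : Ec (a + b) = Ec a * Ec b := by
  unfold Ec; rw [← Complex.exp_add]; congr 1; push_cast; ring

theorem Ec_comp {f : ℝ → ℝ} {f' s : ℝ} (h : HasDerivAt f f' s) :
    HasDerivAt (fun s => Ec (f s)) (Complex.I * Ec (f s) * f') s := by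
  have := HasDerivAt.scomp s (Ec_has (f s)) h
  have e : Complex.I * Ec (f s) * f' = f' • (Complex.I * Ec (f s)) := by
    rw [Complex.real_smul]; ring
  rw [e]; exact this

/-- real chain rule for complex valued functions -/
theorem cchain {F : ℝ → ℂ} {g : ℝ → ℝ} {F' : ℂ} {g' s : ℝ} (hF : HasDerivAt F F' (g s))
    (hg : HasDerivAt g g' s) : HasDerivAt (fun s => F (g s)) (F' * g') s := by
  have := HasDerivAt.scomp s hF hg
  have e : F' * g' = g' • F' := by rw [Complex.real_smul]; ring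
  rw [e]; exact this

theorem rchain {F g : ℝ → ℝ} {F' g' s : ℝ} (hF : HasDerivAt F F' (g s))
    (hg : HasDerivAt g g' s) : HasDerivAt (fun s => F (g s)) (F' * g') s :=
  HasDerivAt.comp s hF hg

theorem has_re {F : ℝ → ℂ} {F' : ℂ} {s : ℝ} (h : HasDerivAt F F' s) :
    HasDerivAt (fun s => (F s).re) F'.re s := by
  have := (Complex.reCLM.hasFDerivAt (x := F s)).comp_hasDerivAt s h
  exact this
theorem has_im {F : ℝ → ℂ} {F' : ℂ} {s : ℝ} (h : HasDerivAt F F' s) :
    HasDerivAt (fun s => (F s).im) F'.im s := by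
  have := (Complex.imCLM.hasFDerivAt (x := F s)).comp_hasDerivAt s h
  exact this

section core
variable {P a : ℝ → ℝ}

theorem Hc_s (y s : ℝ) : HasDerivAt (fun s => Hc P y s) (Hs P y s) s := by
  have h1 := Ec_has s
  have h3 := (h1.pow 3).const_mul (sk P y : ℂ)
  have h := (h1.const_mul (sh P y : ℂ)).add h3
  have e : Hs P y s = (sh P y : ℂ) * (Complex.I * Ec s)
      + (sk P y : ℂ) * ((3 : ℕ) * Ec s ^ (3 - 1) * (Complex.I * Ec s)) := by
    unfold Hs; rw [show (3 : ℕ) - 1 = 2 from rfl]; push_cast; ring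
  rw [e]; exact h

theorem Hs_s (y s : ℝ) : HasDerivAt (fun s => Hs P y s) (Hss P y s) s := by
  have h1 := Ec_has s
  have h3 := (h1.pow 3).const_mul (3 * (sk P y : ℂ))
  have h := ((h1.const_mul (sh P y : ℂ)).add h3).const_mul Complex.I
  have hI := Complex.I_sq
  have e : Hss P y s = Complex.I * ((sh P y : ℂ) * (Complex.I * Ec s)
      + 3 * (sk P y : ℂ) * ((3 : ℕ) * Ec s ^ (3 - 1) * (Complex.I * Ec s))) := by
    unfold Hss; rw [show (3 : ℕ) - 1 = 2 from rfl]; push_cast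
    linear_combination (-((sh P y : ℂ) * Ec s) - 9 * (sk P y : ℂ) * Ec s ^ 3) * hI
  rw [e]; exact h

theorem Hc_y (C : CoreS P a) (y s : ℝ) : HasDerivAt (fun y => Hc P y s) (Hy P a y s) y := by
  have h1 : HasDerivAt (fun y => ((sh P y : ℝ) : ℂ)) (sh1 P a y : ℂ) y := (sh_has C y).ofReal_comp
  have h2 : HasDerivAt (fun y => ((sk P y : ℝ) : ℂ)) (sk1 P a y : ℂ) y := (sk_has C y).ofReal_comp
  exact (h1.mul_const (Ec s)).add (h2.mul_const (Ec s ^ 3))

end core

/-- holomorphic factor -/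
def Gc (mu c0 x y : ℝ) : ℂ := (Real.exp (gE mu c0 x y) : ℂ) * Ec (-(π * x * y) + 2 * π * mu * x)

theorem Gc_x (mu c0 x y : ℝ) : HasDerivAt (fun x => Gc mu c0 x y)
    ((-(π * x : ℂ) + Complex.I * (-(π * y) + 2 * π * mu)) * Gc mu c0 x y) x := by
  have h1 := (gE_x mu c0 x y).exp.ofReal_comp
  have h2 : HasDerivAt (fun x => -(π * x * y) + 2 * π * mu * x) (-(π * y) + 2 * π * mu) x := by
    have := ((hasDerivAt_id x).const_mul (-(π * y) + 2 * π * mu))
    have e : (fun x => -(π * x * y) + 2 * π * mu * x) = fun x => (-(π * y) + 2 * π * mu) * x := by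
      funext x; ring
    rw [e]; simpa using this
  have h := h1.mul (Ec_comp h2)
  unfold Gc
  refine h.congr_deriv ?_
  push_cast; ring

theorem Gc_y (mu c0 x y : ℝ) : HasDerivAt (fun y => Gc mu c0 x y)
    ((π * y - 2 * π * mu + Complex.I * (-(π * x))) * Gc mu c0 x y) y := by
  have h1 := (gE_y mu c0 x y).exp.ofReal_comp
  have h2 : HasDerivAt (fun y => -(π * x * y) + 2 * π * mu * x) (-(π * x)) y := by
    have := ((hasDerivAt_id y).const_mul (-(π * x))).add_const (2 * π * mu * x)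
    have e : (fun y => -(π * x * y) + 2 * π * mu * x) = fun y => -(π * x) * y + 2 * π * mu * x := by
      funext x; ring
    rw [e]; simpa using this
  have h := h1.mul (Ec_comp h2)
  unfold Gc
  refine h.congr_deriv ?_
  push_cast; ring

theorem D_re {F G : ℝ → ℂ} {F' : ℂ} {s : ℝ} (e : F =ᶠ[𝓝 s] G) (h : HasDerivAt G F' s) :
    deriv (fun s => (F s).re) s = F'.re ∧ deriv (fun s => (F s).im) s = F'.im := by
  have h' : HasDerivAt F F' s := h.congr_of_eventuallyEq e
  exact ⟨(has_re h').deriv, (has_im h').deriv⟩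

theorem Zc (x y s : ℝ) : ((Z1 x y s : ℂ) + Complex.I * Z2 x y s) = zm y s + zp y s := by
  unfold Z1 Z2
  rw [mul_comm]; exact Complex.re_add_im _

theorem D3Z (x y s : ℝ) : D3 Z1 x y s = (zms y s + zps y s).re ∧
    D3 Z2 x y s = (zms y s + zps y s).im := by
  have h : HasDerivAt (fun s => zm y s + zp y s) (zms y s + zps y s) s :=
    (zm_has y s).add (zp_has y s)
  exact ⟨(has_re h).deriv, (has_im h).deriv⟩

theorem Zcs (x y s : ℝ) : ((D3 Z1 x y s : ℂ) + Complex.I * D3 Z2 x y s) = zms y s + zps y s := by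
  rw [(D3Z x y s).1, (D3Z x y s).2, mul_comm]; exact Complex.re_add_im _

theorem D3Z_out {y : ℝ} (h : 1/6 < |y|) (x s : ℝ) : D3 Z1 x y s = 0 ∧ D3 Z2 x y s = 0 := by
  have e1 : (fun s => Z1 x y s) = fun _ => 0 := funext fun s => (Z_out h x s).1
  have e2 : (fun s => Z2 x y s) = fun _ => 0 := funext fun s => (Z_out h x s).2
  unfold D3
  rw [e1, e2]; simp

theorem aZ {P a : ℝ → ℝ} (C : CoreS P a) (x y s : ℝ) : (a y - az y) * D3 Z2 x y s = 0 := by
  rcases le_or_gt |y| (1/6) with h | h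
  · rw [C.a1 y h]; ring
  · rw [(D3Z_out h x s).2]; ring

section glue
variable {P a : ℝ → ℝ} (C : CoreS P a) {K mu nu c0 y0 sg : ℝ}
  {UC : ℝ → ℝ → ℝ → ℂ} {A1 A2 p W : ℝ → ℝ → ℝ → ℝ} {a' : ℝ → ℝ}
  {I : Set ℝ}

/-- local description -/
structure Lo (P a : ℝ → ℝ) (K mu nu c0 y0 sg : ℝ) (UC : ℝ → ℝ → ℝ → ℂ)
    (A1 A2 p W : ℝ → ℝ → ℝ → ℝ) (a' : ℝ → ℝ) (I : Set ℝ) : Prop where
  ss : sg ^ 2 = 1
  ho : IsOpen I
  ha : ∀ s, HasDerivAt a (a' s) s
  eU : ∀ y ∈ I, ∀ x t, UC x y t = Gc mu c0 x y * Hc P (sg * (y - y0)) (t - nu * x)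
  e1 : ∀ y ∈ I, ∀ x t, A1 x y t = nu + sg * (a (sg * (y - y0))
    + Z1 x (sg * (y - y0)) (t - nu * x))
  e2 : ∀ y ∈ I, ∀ x t, A2 x y t = sg * Z2 x (sg * (y - y0)) (t - nu * x)
  ep : ∀ y ∈ I, ∀ x t, p x y t = -(a' (sg * (y - y0))) / 4
    + Rz K x (sg * (y - y0)) (t - nu * x)
  eW : ∀ y ∈ I, ∀ x t, W x y t = 3/4 * a' (sg * (y - y0))
    + Wz K x (sg * (y - y0)) (t - nu * x)

theorem hst (nu x t : ℝ) : HasDerivAt (fun t => t - nu * x) 1 t := (hasDerivAt_id t).sub_const _
theorem hsx (nu x t : ℝ) : HasDerivAt (fun x => t - nu * x) (-nu) x := by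
  have := ((hasDerivAt_id x).const_mul nu).const_sub t
  simpa using this
theorem hsy (sg y y0 : ℝ) : HasDerivAt (fun y => sg * (y - y0)) sg y := by
  have := ((hasDerivAt_id y).sub_const y0).const_mul sg
  simpa using this

variable (L : Lo P a K mu nu c0 y0 sg UC A1 A2 p W a' I)
include L

theorem Lo.u3 {y : ℝ} (hy : y ∈ I) (x t : ℝ) : HasDerivAt (fun t => UC x y t)
    (Gc mu c0 x y * Hs P (sg * (y - y0)) (t - nu * x)) t := by
  have e : (fun t => UC x y t) = fun t => Gc mu c0 x y * Hc P (sg * (y - y0)) (t - nu * x) :=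
    funext fun t => L.eU y hy x t
  have h := (cchain (g := fun t => t - nu * x) (Hc_s (P := P) (sg * (y - y0)) (t - nu * x)) (hst nu x t)).const_mul (Gc mu c0 x y)
  rw [e]
  refine h.congr_deriv ?_
  push_cast; ring

theorem Lo.d3 {y : ℝ} (hy : y ∈ I) (x t : ℝ) :
    D3 (fun x y t => (UC x y t).re) x y t = (Gc mu c0 x y * Hs P (sg * (y - y0)) (t - nu * x)).re
    ∧ D3 (fun x y t => (UC x y t).im) x y t
      = (Gc mu c0 x y * Hs P (sg * (y - y0)) (t - nu * x)).im :=
  ⟨(has_re (L.u3 hy x t)).deriv, (has_im (L.u3 hy x t)).deriv⟩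

theorem Lo.d33 {y : ℝ} (hy : y ∈ I) (x t : ℝ) :
    D3 (D3 (fun x y t => (UC x y t).re)) x y t
      = (Gc mu c0 x y * Hss P (sg * (y - y0)) (t - nu * x)).re := by
  have e : (fun t => D3 (fun x y t => (UC x y t).re) x y t)
      = fun t => (Gc mu c0 x y * Hs P (sg * (y - y0)) (t - nu * x)).re :=
    funext fun t => (L.d3 hy x t).1
  have h := (cchain (g := fun t => t - nu * x) (Hs_s (P := P) (sg * (y - y0)) (t - nu * x)) (hst nu x t)).const_mul
    (Gc mu c0 x y)
  have h2 := has_re h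
  unfold D3 at e ⊢
  rw [e, h2.deriv]
  congr 1; push_cast; ring

theorem Lo.d1 {y : ℝ} (hy : y ∈ I) (x t : ℝ) :
    D1 (fun x y t => (UC x y t).re) x y t
      = ((-(π * x : ℂ) + Complex.I * (-(π * y) + 2 * π * mu)) * Gc mu c0 x y
          * Hc P (sg * (y - y0)) (t - nu * x)
        - nu * (Gc mu c0 x y * Hs P (sg * (y - y0)) (t - nu * x))).re
    ∧ D1 (fun x y t => (UC x y t).im) x y t
      = ((-(π * x : ℂ) + Complex.I * (-(π * y) + 2 * π * mu)) * Gc mu c0 x y
          * Hc P (sg * (y - y0)) (t - nu * x)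
        - nu * (Gc mu c0 x y * Hs P (sg * (y - y0)) (t - nu * x))).im := by
  have e : (fun x => UC x y t) = fun x => Gc mu c0 x y * Hc P (sg * (y - y0)) (t - nu * x) :=
    funext fun x => L.eU y hy x t
  have h := (Gc_x mu c0 x y).mul (cchain (g := fun x => t - nu * x)
    (Hc_s (P := P) (sg * (y - y0)) (t - nu * x)) (hsx nu x t))
  have h' : HasDerivAt (fun x => UC x y t)
      ((-(π * x : ℂ) + Complex.I * (-(π * y) + 2 * π * mu)) * Gc mu c0 x y
          * Hc P (sg * (y - y0)) (t - nu * x)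
        + Gc mu c0 x y * (Hs P (sg * (y - y0)) (t - nu * x) * ((-nu : ℝ) : ℂ))) x := by
    rw [e]; exact h
  refine ⟨(has_re h').deriv.trans ?_, (has_im h').deriv.trans ?_⟩ <;>
  · congr 1; push_cast; ring

include C in
theorem Lo.d2 {y : ℝ} (hy : y ∈ I) (x t : ℝ) :
    D2 (fun x y t => (UC x y t).re) x y t
      = ((π * y - 2 * π * mu + Complex.I * (-(π * x))) * Gc mu c0 x y
          * Hc P (sg * (y - y0)) (t - nu * x)
        + sg * (Gc mu c0 x y * Hy P a (sg * (y - y0)) (t - nu * x))).re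
    ∧ D2 (fun x y t => (UC x y t).im) x y t
      = ((π * y - 2 * π * mu + Complex.I * (-(π * x))) * Gc mu c0 x y
          * Hc P (sg * (y - y0)) (t - nu * x)
        + sg * (Gc mu c0 x y * Hy P a (sg * (y - y0)) (t - nu * x))).im := by
  have e : (fun y => UC x y t) =ᶠ[𝓝 y]
      fun y => Gc mu c0 x y * Hc P (sg * (y - y0)) (t - nu * x) := by
    filter_upwards [L.ho.mem_nhds hy] with z hz
    exact L.eU z hz x t
  have h := (Gc_y mu c0 x y).mul (cchain (F := fun y => Hc P y (t - nu * x))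
    (g := fun y => sg * (y - y0)) (Hc_y C (sg * (y - y0)) (t - nu * x)) (hsy sg y y0))
  have h' : HasDerivAt (fun y => UC x y t) _ y := h.congr_of_eventuallyEq e
  refine ⟨(has_re h').deriv.trans ?_, (has_im h').deriv.trans ?_⟩ <;>
  · congr 1; push_cast; ring

theorem Lo.A31 {y : ℝ} (hy : y ∈ I) (x t : ℝ) :
    D3 A1 x y t = sg * D3 Z1 x (sg * (y - y0)) (t - nu * x) := by
  have e : (fun t => A1 x y t) = fun t => nu + sg * (a (sg * (y - y0))
    + Z1 x (sg * (y - y0)) (t - nu * x)) := funext fun t => L.e1 y hy x t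
  have h := (((rchain (F := fun s => Z1 x (sg * (y - y0)) s) (g := fun t => t - nu * x)
    (Z1_sm.h3 x (sg * (y - y0)) (t - nu * x)) (hst nu x t)).const_add
      (a (sg * (y - y0)))).const_mul sg).const_add nu
  unfold D3 at h ⊢
  rw [e, h.deriv]; ring

theorem Lo.A32 {y : ℝ} (hy : y ∈ I) (x t : ℝ) :
    D3 A2 x y t = sg * D3 Z2 x (sg * (y - y0)) (t - nu * x) := by
  have e : (fun t => A2 x y t) = fun t => sg * Z2 x (sg * (y - y0)) (t - nu * x) :=
    funext fun t => L.e2 y hy x t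
  have h := ((rchain (F := fun s => Z2 x (sg * (y - y0)) s) (g := fun t => t - nu * x)
    (Z2_sm.h3 x (sg * (y - y0)) (t - nu * x)) (hst nu x t))).const_mul sg
  unfold D3 at h ⊢
  rw [e, h.deriv]; ring

theorem Lo.A12 {y : ℝ} (hy : y ∈ I) (x t : ℝ) :
    D1 A2 x y t = -(sg * nu * D3 Z2 x (sg * (y - y0)) (t - nu * x)) := by
  have e : (fun x => A2 x y t) = fun x' => sg * Z2 x (sg * (y - y0)) (t - nu * x') :=
    funext fun x => L.e2 y hy x t
  have h := ((rchain (F := fun s => Z2 x (sg * (y - y0)) s) (g := fun x => t - nu * x)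
    (Z2_sm.h3 x (sg * (y - y0)) (t - nu * x)) (hsx nu x t))).const_mul sg
  unfold D1
  rw [e, h.deriv]; ring

theorem Lo.A21 {y : ℝ} (hy : y ∈ I) (x t : ℝ) :
    D2 A1 x y t = a' (sg * (y - y0)) + D2 Z1 x (sg * (y - y0)) (t - nu * x) := by
  have e : (fun y => A1 x y t) =ᶠ[𝓝 y] fun y => nu + sg * (a (sg * (y - y0))
    + Z1 x (sg * (y - y0)) (t - nu * x)) := by
    filter_upwards [L.ho.mem_nhds hy] with z hz
    exact L.e1 z hz x t
  have h1 := rchain (F := a) (g := fun y => sg * (y - y0)) (L.ha (sg * (y - y0))) (hsy sg y y0)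
  have h2 := rchain (F := fun y' => Z1 x y' (t - nu * x)) (g := fun y => sg * (y - y0))
    (Z1_sm.h2 x (sg * (y - y0)) (t - nu * x)) (hsy sg y y0)
  have h := ((h1.add h2).const_mul sg).const_add nu
  have h' := h.congr_of_eventuallyEq e
  have := h'.deriv
  unfold D2 at this ⊢
  rw [this]
  linear_combination (a' (sg * (y - y0)) + deriv (fun s => Z1 x s (t - nu * x)) (sg * (y - y0))) * L.ss

include C in
theorem Lo.th {y : ℝ} (hy : y ∈ I) (x t : ℝ) :
    Th A1 A2 x y t = -(a' (sg * (y - y0))) + tz x (sg * (y - y0)) (t - nu * x) := by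
  unfold Th tz
  rw [L.A12 hy, L.A21 hy, L.A31 hy, L.A32 hy, L.e1 y hy, L.e2 y hy]
  have h := aZ C x (sg * (y - y0)) (t - nu * x)
  linear_combination ((a (sg * (y - y0)) + Z1 x (sg * (y - y0)) (t - nu * x)) *
    D3 Z2 x (sg * (y - y0)) (t - nu * x) - Z2 x (sg * (y - y0)) (t - nu * x) *
    D3 Z1 x (sg * (y - y0)) (t - nu * x)) * L.ss + h

include C in
theorem Lo.th3 {y : ℝ} (hy : y ∈ I) (x t : ℝ) :
    D3 (Th A1 A2) x y t = D3 tz x (sg * (y - y0)) (t - nu * x) := by
  have e : (fun t => Th A1 A2 x y t) = fun t => -(a' (sg * (y - y0)))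
      + tz x (sg * (y - y0)) (t - nu * x) := funext fun t => L.th C hy x t
  have h := (rchain (F := fun s => tz x (sg * (y - y0)) s) (g := fun t => t - nu * x)
    (tz_sm.h3 x (sg * (y - y0)) (t - nu * x)) (hst nu x t)).const_add (-(a' (sg * (y - y0))))
  unfold D3 at h ⊢
  rw [e, h.deriv]; ring

theorem Lo.p3 {y : ℝ} (hy : y ∈ I) (x t : ℝ) :
    D3 p x y t = D3 (Rz K) x (sg * (y - y0)) (t - nu * x) := by
  have e : (fun t => p x y t) = fun t => -(a' (sg * (y - y0))) / 4
      + Rz K x (sg * (y - y0)) (t - nu * x) := funext fun t => L.ep y hy x t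
  have h := (rchain (F := fun s => Rz K x (sg * (y - y0)) s) (g := fun t => t - nu * x)
    ((Rz_sm K).h3 x (sg * (y - y0)) (t - nu * x)) (hst nu x t)).const_add
      (-(a' (sg * (y - y0))) / 4)
  unfold D3 at h ⊢
  rw [e, h.deriv]; ring

include C in
theorem Lo.ee {y : ℝ} (hy : y ∈ I) (x t : ℝ) :
    EE1 (fun x y t => (UC x y t).re) (fun x y t => (UC x y t).im) A1 A2 x y t = 0 ∧
    EE2 (fun x y t => (UC x y t).re) (fun x y t => (UC x y t).im) A1 A2 x y t = 0 := by
  set y' := sg * (y - y0) with hy'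
  set s := t - nu * x with hs
  set G := Gc mu c0 x y with hG
  have key : ((-(π * x : ℂ) + Complex.I * (-(π * y) + 2 * π * mu)) * G * Hc P y' s
        - nu * (G * Hs P y' s))
      + Complex.I * ((π * y - 2 * π * mu + Complex.I * (-(π * x))) * G * Hc P y' s
        + sg * (G * Hy P a y' s))
      + ((A1 x y t : ℂ) + Complex.I * A2 x y t) * (G * Hs P y' s)
      + 1/2 * ((D3 A1 x y t : ℂ) + Complex.I * D3 A2 x y t) * (G * Hc P y' s) = 0 := by
    have hc := core1 C y' s
    have z0 := Zc x y' s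
    have z1 := Zcs x y' s
    rw [L.e1 y hy, L.e2 y hy, L.A31 hy, L.A32 hy, ← hy', ← hs]
    rw [← z0, ← z1] at hc
    unfold Hc Hs Hy
    push_cast
    have hI := Complex.I_sq
    linear_combination sg * G * hc
      - (π * x : ℂ) * G * ((sh P y' : ℂ) * Ec s + (sk P y' : ℂ) * Ec s ^ 3) * hI
  have d1 := L.d1 hy x t
  have d2 := L.d2 C hy x t
  have d3 := L.d3 hy x t
  rw [← hy', ← hs, ← hG] at d1 d2 d3
  have u := L.eU y hy x t
  rw [← hy', ← hs, ← hG] at u
  unfold EE1 EE2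
  rw [d1.1, d1.2, d2.1, d2.2, d3.1, d3.2]
  beta_reduce
  rw [u]
  have kr := congrArg Complex.re key
  have ki := congrArg Complex.im key
  generalize (-(π * x : ℂ) + Complex.I * (-(π * y) + 2 * π * mu)) * G * Hc P y' s
        - nu * (G * Hs P y' s) = X1 at *
  generalize (π * y - 2 * π * mu + Complex.I * (-(π * x))) * G * Hc P y' s
        + sg * (G * Hy P a y' s) = X2 at *
  generalize G * Hs P y' s = X3 at *
  generalize G * Hc P y' s = X4 at *
  simp only [Complex.add_re, Complex.mul_re, Complex.I_re, Complex.I_im, Complex.ofReal_re,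
    Complex.ofReal_im, Complex.add_im, Complex.mul_im, Complex.zero_re, Complex.zero_im,
    Complex.div_ofNat_re, Complex.div_ofNat_im, Complex.one_re, Complex.one_im] at kr ki
  constructor
  · linear_combination kr
  · linear_combination ki

include C in
theorem Lo.fib {y : ℝ} (hy : y ∈ I) (x t : ℝ) :
    D3 p x y t * D3 (fun x y t => (UC x y t).re) x y t
      + p x y t * D3 (D3 (fun x y t => (UC x y t).re)) x y t
      + W x y t * (fun x y t => (UC x y t).re) x y t
      + Th A1 A2 x y t * D3 (fun x y t => (UC x y t).im) x y t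
      + 1/2 * D3 (Th A1 A2) x y t * (fun x y t => (UC x y t).im) x y t = 0 := by
  rw [L.p3 hy, L.th C hy, L.th3 C hy, (L.d3 hy x t).1, (L.d3 hy x t).2, L.d33 hy, L.ep y hy,
    L.eW y hy]
  beta_reduce
  rw [L.eU y hy x t]
  have f := fibC K C (a' (sg * (y - y0))) x (sg * (y - y0)) (t - nu * x)
  set y' := sg * (y - y0) with hy'
  set s := t - nu * x with hs
  set G := Gc mu c0 x y with hG
  have f2 : (D3 (Rz K) x y' s : ℂ) * (G * Hs P y' s)
      + ((-(a' y')/4 + Rz K x y' s : ℝ) : ℂ) * (G * Hss P y' s)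
      + ((3/4 * a' y' + Wz K x y' s : ℝ) : ℂ) * (G * Hc P y' s)
      - Complex.I * ((-(a' y') + tz x y' s : ℝ) : ℂ) * (G * Hs P y' s)
      - Complex.I / 2 * (D3 tz x y' s : ℂ) * (G * Hc P y' s) = 0 := by
    linear_combination G * f
  have fr := congrArg Complex.re f2
  generalize G * Hss P y' s = X2 at *
  generalize G * Hs P y' s = X3 at *
  generalize G * Hc P y' s = X4 at *
  simp only [Complex.add_re, Complex.sub_re, Complex.mul_re, Complex.I_re, Complex.I_im,
    Complex.ofReal_re, Complex.ofReal_im, Complex.add_im, Complex.mul_im, Complex.zero_re,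
    Complex.div_ofNat_re, Complex.div_ofNat_im, Complex.one_re, Complex.one_im] at fr
  linear_combination fr

end glue

end

end Pool.Agent.Helper25.SE
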