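import Pool.Agent.Helper25.SE.Two
import Pool.Agent.Helper25.SE.Loc2

set_option autoImplicit false

open Real Set Filter Topology MeasureTheory
open scoped ContDiff

namespace Pool.Agent.Helper25.SE

noncomputable section

/-- periodization in the second variable -/
def per2 (Z : ℝ → ℝ → ℝ → ℝ) (x y t : ℝ) : ℝ := per (fun y => Z x y t) y

def Sup2 (Z : ℝ → ℝ → ℝ → ℝ) : Prop := ∀ y, 1/6 < |y| → ∀ x t, Z x y t = 0

variable {Z : ℝ → ℝ → ℝ → ℝ}

theorem Sup2.s (h : Sup2 Z) (x t : ℝ) : Sup fun y => Z x y t := fun y hy => h y hy x t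
theorem Sup2.ng (h : Sup2 Z) : Sup2 fun x y t => Z x (-y) t := fun y hy x t =>
  h (-y) (by rw [abs_neg]; exact hy) x t

theorem per2_eq (h : Sup2 Z) (n : ℤ) {y : ℝ} (hy : |y - n| < 3/4) (x t : ℝ) :
    per2 Z x y t = Z x (y - n) t := per_eq (h.s x t) n hy

theorem per2_add_one (Z : ℝ → ℝ → ℝ → ℝ) (x y t : ℝ) : per2 Z x (y + 1) t = per2 Z x y t :=
  per_add_one _ _

theorem Sm.comp3 {F : ℝ → ℝ → ℝ → ℝ} (h : Sm F) {a b c : ℝ × ℝ × ℝ → ℝ} (ha : ContDiff ℝ ∞ a)
    (hb : ContDiff ℝ ∞ b) (hc : ContDiff ℝ ∞ c) : ContDiff ℝ ∞ fun p => F (a p) (b p) (c p) :=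
  (sm_iff.1 h).comp (ha.prodMk (hb.prodMk hc))

theorem cx : ContDiff ℝ ∞ fun p : ℝ × ℝ × ℝ => p.1 := by fun_prop
theorem cy : ContDiff ℝ ∞ fun p : ℝ × ℝ × ℝ => p.2.1 := by fun_prop
theorem ct : ContDiff ℝ ∞ fun p : ℝ × ℝ × ℝ => p.2.2 := by fun_prop

theorem per2_sm (h : Sup2 Z) (hs : Sm Z) : Sm (per2 Z) := by
  apply sm_of
  intro p
  have e : un (per2 Z) =ᶠ[𝓝 p] fun q => Z q.1 (q.2.1 - (round p.2.1 : ℤ)) q.2.2 := by
    have ho : IsOpen {q : ℝ × ℝ × ℝ | |q.2.1 - (round p.2.1 : ℤ)| < 3/4} :=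
      isOpen_lt (by fun_prop) continuous_const
    filter_upwards [ho.mem_nhds (round_near p.2.1)] with q hq
    exact per2_eq h _ hq _ _
  refine ContDiffAt.congr_of_eventuallyEq ?_ e
  exact (hs.comp3 cx (cy.sub contDiff_const) ct).contDiffAt

theorem Sm.ng (hs : Sm Z) : Sm fun x y t => Z x (-y) t := hs.comp3 cx cy.neg ct

/-- global function built from a zone function -/
def gl (c : ℝ) (Z : ℝ → ℝ → ℝ → ℝ) (x y t : ℝ) : ℝ :=
  per2 Z x y t + c * per2 (fun x y t => Z x (-y) t) x (y - 1/2) (t - π * x)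

theorem gl_sm (c : ℝ) (h : Sup2 Z) (hs : Sm Z) : Sm (gl c Z) := by
  have h2 := per2_sm h.ng hs.ng
  have h3 : Sm fun x y t => per2 (fun x y t => Z x (-y) t) x (y - 1/2) (t - π * x) :=
    h2.comp3 cx (cy.sub contDiff_const) (ct.sub (contDiff_const.mul cx))
  exact (per2_sm h hs).add (h3.cm c)

theorem gl_I (c : ℝ) (h : Sup2 Z) {n : ℤ} {y : ℝ} (hy : |y - n| < 1/3) (x t : ℝ) :
    gl c Z x y t = Z x (y - n) t := by
  unfold gl
  rw [per2_eq h n (lt_trans hy (by norm_num))]
  have : per2 (fun x y t => Z x (-y) t) x (y - 1/2) (t - π * x) = 0 :=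
    regI_zero (h.ng.s x (t - π * x)) hy
  rw [this]; ring

theorem gl_II (c : ℝ) (h : Sup2 Z) {n : ℤ} {y : ℝ} (hy : |y - n - 1/2| < 1/3) (x t : ℝ) :
    gl c Z x y t = c * Z x (1/2 - (y - n)) (t - π * x) := by
  unfold gl
  have h0 : per2 Z x y t = 0 := regII_zero (h.s x t) hy
  have h1 : |y - 1/2 - n| < 3/4 := by
    rw [show y - 1/2 - (n : ℝ) = y - n - 1/2 by ring]; exact lt_trans hy (by norm_num)
  rw [per2_eq h.ng n h1, h0, show -(y - 1/2 - (n : ℝ)) = 1/2 - (y - n) by ring]; ring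

/-- independence of x and periodicity pi in t -/
structure Pi1 (Z : ℝ → ℝ → ℝ → ℝ) : Prop where
  i : ∀ x x' y t, Z x y t = Z x' y t
  p : ∀ x y t, Z x y (t + π) = Z x y t

/-- full periodicity -/
structure Pe (F : ℝ → ℝ → ℝ → ℝ) : Prop where
  x : ∀ x y t, F (x + 1) y t = F x y t
  y : ∀ x y t, F x (y + 1) t = F x y t
  t : ∀ x y t, F x y (t + 2 * π) = F x y t

theorem per2_i (h : Pi1 Z) (x x' y t : ℝ) : per2 Z x y t = per2 Z x' y t := by
  unfold per2; congr 1; funext y; exact h.i _ _ _ _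
theorem per2_p (h : Pi1 Z) (x y t : ℝ) : per2 Z x y (t + π) = per2 Z x y t := by
  unfold per2; congr 1; funext y; exact h.p _ _ _

theorem Pi1.ng (h : Pi1 Z) : Pi1 fun x y t => Z x (-y) t :=
  ⟨fun x x' y t => h.i x x' (-y) t, fun x y t => h.p x (-y) t⟩

theorem per2_m (h : Pi1 Z) (x y t : ℝ) : per2 Z x y (t - π) = per2 Z x y t := by
  have := per2_p h x y (t - π)
  rw [show t - π + π = t by ring] at this
  exact this.symm

theorem gl_pe (c : ℝ) (h : Pi1 Z) : Pe (gl c Z) := by
  constructor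
  · intro x y t
    unfold gl
    rw [per2_i h (x + 1) x, per2_i h.ng (x + 1) x,
      show t - π * (x + 1) = (t - π * x) - π by ring, per2_m h.ng]
  · intro x y t
    unfold gl
    rw [per2_add_one, show y + 1 - 1/2 = (y - 1/2) + 1 by ring, per2_add_one]
  · intro x y t
    unfold gl
    rw [show t + 2 * π = t + π + π by ring, per2_p h, per2_p h,
      show t + π + π - π * x = (t - π * x) + π + π by ring, per2_p h.ng, per2_p h.ng]

section
variable {F G : ℝ → ℝ → ℝ → ℝ}

theorem Pe.add (h : Pe F) (g : Pe G) : Pe fun x y t => F x y t + G x y t :=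
  ⟨fun x y t => by rw [h.x, g.x], fun x y t => by rw [h.y, g.y], fun x y t => by rw [h.t, g.t]⟩
theorem Pe.mul (h : Pe F) (g : Pe G) : Pe fun x y t => F x y t * G x y t :=
  ⟨fun x y t => by rw [h.x, g.x], fun x y t => by rw [h.y, g.y], fun x y t => by rw [h.t, g.t]⟩
theorem Pe.pw (h : Pe F) (n : ℕ) : Pe fun x y t => F x y t ^ n :=
  ⟨fun x y t => by rw [h.x], fun x y t => by rw [h.y], fun x y t => by rw [h.t]⟩
theorem pec (c : ℝ) : Pe fun _ _ _ => c := ⟨fun _ _ _ => rfl, fun _ _ _ => rfl, fun _ _ _ => rfl⟩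
theorem Pe.cm (h : Pe F) (c : ℝ) : Pe fun x y t => c * F x y t := (pec c).mul h
theorem pey {f : ℝ → ℝ} (h : ∀ y, f (y + 1) = f y) : Pe fun _ y _ => f y :=
  ⟨fun _ _ _ => rfl, fun _ y _ => h y, fun _ _ _ => rfl⟩

theorem Pe.d1 (h : Pe F) : Pe (D1 F) := by
  constructor
  · intro x y t
    unfold D1
    have e : (fun s => F (s + 1) y t) = fun s => F s y t := funext fun s => h.x s y t
    have := deriv_comp_add_const (fun s => F s y t) 1 x
    rw [e] at this; exact this.symm
  · intro x y t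
    unfold D1
    have e : (fun s => F s (y + 1) t) = fun s => F s y t := funext fun s => h.y s y t
    rw [e]
  · intro x y t
    unfold D1
    have e : (fun s => F s y (t + 2 * π)) = fun s => F s y t := funext fun s => h.t s y t
    rw [e]
theorem Pe.d2 (h : Pe F) : Pe (D2 F) := by
  constructor
  · intro x y t
    unfold D2
    have e : (fun s => F (x + 1) s t) = fun s => F x s t := funext fun s => h.x x s t
    rw [e]
  · intro x y t
    unfold D2
    have e : (fun s => F x (s + 1) t) = fun s => F x s t := funext fun s => h.y x s t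
    have := deriv_comp_add_const (fun s => F x s t) 1 y
    rw [e] at this; exact this.symm
  · intro x y t
    unfold D2
    have e : (fun s => F x s (t + 2 * π)) = fun s => F x s t := funext fun s => h.t x s t
    rw [e]
theorem Pe.d3 (h : Pe F) : Pe (D3 F) := by
  constructor
  · intro x y t
    unfold D3
    have e : (fun s => F (x + 1) y s) = fun s => F x y s := funext fun s => h.x x y s
    rw [e]
  · intro x y t
    unfold D3
    have e : (fun s => F x (y + 1) s) = fun s => F x y s := funext fun s => h.y x y s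
    rw [e]
  · intro x y t
    unfold D3
    have e : (fun s => F x y (s + 2 * π)) = fun s => F x y s := funext fun s => h.t x y s
    have := deriv_comp_add_const (fun s => F x y s) (2 * π) t
    rw [e] at this; exact this.symm

theorem Pi1.d2 (h : Pi1 F) : Pi1 (D2 F) := by
  constructor
  · intro x x' y t
    unfold D2
    have e : (fun s => F x s t) = fun s => F x' s t := funext fun s => h.i x x' s t
    rw [e]
  · intro x y t
    unfold D2
    have e : (fun s => F x s (t + π)) = fun s => F x s t := funext fun s => h.p x s t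
    rw [e]
theorem Pi1.d3 (h : Pi1 F) : Pi1 (D3 F) := by
  constructor
  · intro x x' y t
    unfold D3
    have e : (fun s => F x y s) = fun s => F x' y s := funext fun s => h.i x x' y s
    rw [e]
  · intro x y t
    unfold D3
    have e : (fun s => F x y (s + π)) = fun s => F x y s := funext fun s => h.p x y s
    have := deriv_comp_add_const (fun s => F x y s) π t
    rw [e] at this; exact this.symm

theorem bdd_pe (h : Pe F) (hc : Sm F) : ∃ C : ℝ, 0 ≤ C ∧ ∀ x y t, |F x y t| ≤ C := by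
  have hk : IsCompact (Icc (0 : ℝ) 1 ×ˢ (Icc (0 : ℝ) 1 ×ˢ Icc (0 : ℝ) (2 * π))) :=
    isCompact_Icc.prod (isCompact_Icc.prod isCompact_Icc)
  obtain ⟨C, hC⟩ := hk.exists_bound_of_continuousOn (sm_iff.1 hc).continuous.continuousOn
  have hp : (0 : ℝ) < 2 * π := by positivity
  have main : ∀ x y t, |F x y t| ≤ C := by
    intro x y t
    obtain ⟨x', hx, ex⟩ := (show Function.Periodic (fun x => F x y t) 1 from
      fun x => h.x x y t).exists_mem_Ico₀ one_pos x
    obtain ⟨y', hy, ey⟩ := (show Function.Periodic (fun y => F x' y t) 1 from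
      fun y => h.y x' y t).exists_mem_Ico₀ one_pos y
    obtain ⟨t', ht, et⟩ := (show Function.Periodic (fun t => F x' y' t) (2 * π) from
      fun t => h.t x' y' t).exists_mem_Ico₀ hp t
    have h3 := hC (x', y', t') ⟨⟨hx.1, hx.2.le⟩, ⟨hy.1, hy.2.le⟩, ⟨ht.1, ht.2.le⟩⟩
    rw [Real.norm_eq_abs] at h3
    have e : F x y t = F x' y' t' := by
      have e1 : F x y t = F x' y t := ex
      have e2 : F x' y t = F x' y' t := ey
      have e3 : F x' y' t = F x' y' t' := et
      rw [e1, e2, e3]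
    rw [e]; exact h3
  exact ⟨C, (abs_nonneg _).trans (main 0 0 0), main⟩

end

end

end Pool.Agent.Helper25.SE
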