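import Pool.Agent.Helper25.SE.Glob

set_option autoImplicit false

open Real Set Filter Topology MeasureTheory
open scoped ContDiff

namespace Pool.Agent.Helper25.SE

noncomputable section

theorem per_int {f : ℝ → ℝ} (h : ∀ y, f (y + 1) = f y) (n : ℤ) (y : ℝ) : f (y - n) = f y := by
  have hp : Function.Periodic f 1 := h
  have := hp.sub_int_mul_eq n (x := y)
  simpa using this

theorem lt34 {a : ℝ} (h : |a| < 1/3) : |a| < 3/4 := lt_trans h (by norm_num)

theorem fe_has (s : ℝ) : HasDerivAt fo (be1 s + be1 (-s)) s := by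
  have h := (be_has s).sub (has_neg (be_has (-s)))
  have e : be1 s + be1 (-s) = be1 s - -(be1 (-s)) := by ring
  rw [e]; exact h

theorem cos2t (t : ℝ) (x : ℝ) : Real.cos (2 * (t + 0 * x)) = Real.cos (2 * t) := by
  congr 1; ring
theorem sin2t (t : ℝ) (x : ℝ) : Real.sin (2 * (t + 0 * x)) = Real.sin (2 * t) := by
  congr 1; ring

theorem pde (p0 x y t : ℝ) :
    deriv (fun x => WX x y t) x + deriv (fun y => WY x y t) y
      + deriv (fun t => WT p0 x y t) t + VV p0 x y t * UU x y t = 0 := by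
  obtain ⟨n, hy | hy⟩ := cover y
  · have ho : IsOpen {z : ℝ | |z - n| < 1/3} := isOpen_lt (by fun_prop) continuous_const
    refine glue p0 n 0 (π * n ^ 2) (fun y => ch Phi (y - n)) (fun y => ck Phi (y - n))
      (fun y => ch1 Phi aa (y - n)) (fun y => ck1 Phi aa (y - n))
      (fun y => aa (y - n)) (fun y => fe (y - n)) (fun y => -(fo (y - n))) (fun y => n0 (y - n))
      (fun y => He (y - n)) (fun y => Xe (y - n) + tau (y - n))
      (ch2 Phi aa aa1 (y - n)) (ck2 Phi aa aa1 (y - n)) (-(be1 (y - n) + be1 (-(y - n))))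
      x y t {z : ℝ | |z - n| < 1/3} ho hy ?_ ?_ ?_ ?_ ?_ ?_ ?_ ?_ ?_ ?_ ?_ ?_ ?_ ?_ ?_
    · intro z hz x t; exact UU_I hz x t
    · intro z hz x t
      unfold AL1 lA1
      beta_reduce
      rw [per_eq fe_sup n (lt34 hz), regI_zero fe_sup hz, cos2t, per_int aa_per n z]; ring
    · intro z hz x t
      unfold AL2 lA2
      beta_reduce
      rw [per_eq fo_sup n (lt34 hz), regI_zero fo_sup hz, sin2t]; ring
    · intro z hz x t
      unfold NN lN
      beta_reduce
      rw [per_eq n0_sup n (lt34 hz), regI_zero nh_sup hz, cos2t]; ring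
    · unfold VV lV
      beta_reduce
      rw [per_eq Xe_sup n (lt34 hy), regI_zero Xe_sup hy, per_eq He_sup n (lt34 hy),
        regI_zero He_sup hy, cos2t, per_int aa_per n y, per_int tau_per n y]; ring
    · intro z; exact (ch_has coreI (z - n)).comp_sub_const z n
    · intro z; exact (ck_has coreI (z - n)).comp_sub_const z n
    · exact (ch1_has coreI (y - n)).comp_sub_const y n
    · exact (ck1_has coreI (y - n)).comp_sub_const y n
    · exact ((fe_has (y - n)).comp_sub_const y n).neg
    · show n0 (y - n) = He (y - n) / 2 - 4 * 0 * fe (y - n)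
        + 2 * -(be1 (y - n) + be1 (-(y - n)))
      unfold n0; ring
    · show ch1 Phi aa (y - n) = -(aa (y - n)) * ch Phi (y - n)
        + 2 * (fe (y - n) + -(fo (y - n))) * ck Phi (y - n)
      unfold ch1 fe fo; ring
    · show ck1 Phi aa (y - n) = aa (y - n) * ck Phi (y - n)
        - 2 * (fe (y - n) - -(fo (y - n))) * ch Phi (y - n)
      unfold ck1 fe fo; ring
    · have := r3 coreI hy
      show ch2 Phi aa aa1 (y - n) - aa (y - n) ^ 2 * ch Phi (y - n)
        - 4 * -(fo (y - n)) * ck1 Phi aa (y - n)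
        - 2 * -(be1 (y - n) + be1 (-(y - n))) * ck Phi (y - n) + He (y - n) * ck Phi (y - n)
        + (Xe (y - n) + tau (y - n)) * ch Phi (y - n) = 0
      unfold fo He Xe
      linear_combination this
    · have := r4 coreI hy
      show ck2 Phi aa aa1 (y - n) - aa (y - n) ^ 2 * ck Phi (y - n)
        - 4 * -(fo (y - n)) * ch1 Phi aa (y - n)
        - 2 * -(be1 (y - n) + be1 (-(y - n))) * ch Phi (y - n) + He (y - n) * ch Phi (y - n)
        + (Xe (y - n) + tau (y - n)) * ck Phi (y - n) = 0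
      unfold fo He Xe
      linear_combination this
  · have ho : IsOpen {z : ℝ | |z - n - 1/2| < 1/3} := isOpen_lt (by fun_prop) continuous_const
    have shft : ∀ z : ℝ, z - 1/2 - n = -(1/2 - (z - n)) := fun z => by ring
    have hz34 : ∀ z : ℝ, |z - n - 1/2| < 1/3 → |z - 1/2 - n| < 3/4 := fun z hz => by
      rw [show z - 1/2 - (n : ℝ) = z - n - 1/2 by ring]; exact lt34 hz
    have hs : |1/2 - (y - n)| < 1/3 := by
      rw [show (1:ℝ)/2 - (y - n) = -(y - n - 1/2) by ring, abs_neg]; exact hy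
    have hid : ∀ z : ℝ, HasDerivAt (fun z : ℝ => 1/2 - (z - n)) (-1) z := fun z =>
      ((hasDerivAt_id z).sub_const (n : ℝ)).const_sub (1/2)
    have hcomp : ∀ (f : ℝ → ℝ) (f' z : ℝ), HasDerivAt f f' (1/2 - (z - n)) →
        HasDerivAt (fun z => f (1/2 - (z - n))) (-f') z := fun f f' z h => by
      have := HasDerivAt.comp z h (hid z)
      have e : -f' = f' * -1 := by ring
      rw [e]; exact this
    refine glue p0 (n + 1/2) π (π * n ^ 2 + π * n + π / 2 + Phi (1/2))
      (fun y => ch PII (1/2 - (y - n))) (fun y => ck PII (1/2 - (y - n)))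
      (fun y => -(ch1 PII aII (1/2 - (y - n)))) (fun y => -(ck1 PII aII (1/2 - (y - n))))
      (fun y => -(aII (1/2 - (y - n)))) (fun y => -(fe (y - 1/2 - n)))
      (fun y => -(fo (y - 1/2 - n))) (fun y => nh (y - 1/2 - n))
      (fun y => He (y - 1/2 - n)) (fun y => Xe (y - 1/2 - n) + tau (y - n))
      (ch2 PII aII aII1 (1/2 - (y - n))) (ck2 PII aII aII1 (1/2 - (y - n)))
      (-(be1 (y - 1/2 - n) + be1 (-(y - 1/2 - n))))
      x y t {z : ℝ | |z - n - 1/2| < 1/3} ho hy ?_ ?_ ?_ ?_ ?_ ?_ ?_ ?_ ?_ ?_ ?_ ?_ ?_ ?_ ?_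
    · intro z hz x t; exact UU_II hz x t
    · intro z hz x t
      unfold AL1 lA1 aII
      beta_reduce
      rw [per_eq fe_sup n (hz34 z hz), regII_zero fe_sup hz,
        show (1:ℝ)/2 - (1/2 - (z - n)) = z - n by ring, per_int aa_per n z]; ring
    · intro z hz x t
      unfold AL2 lA2
      beta_reduce
      rw [per_eq fo_sup n (hz34 z hz), regII_zero fo_sup hz]; ring
    · intro z hz x t
      unfold NN lN
      beta_reduce
      rw [per_eq nh_sup n (hz34 z hz), regII_zero n0_sup hz]; ring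
    · unfold VV lV aII
      beta_reduce
      rw [per_eq Xe_sup n (hz34 y hy), regII_zero Xe_sup hy, per_eq He_sup n (hz34 y hy),
        regII_zero He_sup hy, show (1:ℝ)/2 - (1/2 - (y - n)) = y - n by ring,
        per_int aa_per n y, per_int tau_per n y]; ring
    · intro z; exact hcomp _ _ z (ch_has coreII _)
    · intro z; exact hcomp _ _ z (ck_has coreII _)
    · have := (hcomp _ _ y (ch1_has coreII _)).neg
      rw [neg_neg] at this; exact this
    · have := (hcomp _ _ y (ck1_has coreII _)).neg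
      rw [neg_neg] at this; exact this
    · have h1 := fe_has (y - 1/2 - n)
      have h2 : HasDerivAt (fun z : ℝ => z - 1/2 - n) 1 y :=
        ((hasDerivAt_id y).sub_const (1/2)).sub_const (n : ℝ)
      have h3 := (HasDerivAt.comp y h1 h2).neg
      have e : -(be1 (y - 1/2 - n) + be1 (-(y - 1/2 - n)))
          = -((be1 (y - 1/2 - n) + be1 (-(y - 1/2 - n))) * 1) := by ring
      rw [e]; exact h3
    · show nh (y - 1/2 - n) = He (y - 1/2 - n) / 2 - 4 * π * -(fe (y - 1/2 - n))
        + 2 * -(be1 (y - 1/2 - n) + be1 (-(y - 1/2 - n)))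
      unfold nh; ring
    · show -(ch1 PII aII (1/2 - (y - n))) = -(-(aII (1/2 - (y - n)))) * ch PII (1/2 - (y - n))
        + 2 * (-(fe (y - 1/2 - n)) + -(fo (y - 1/2 - n))) * ck PII (1/2 - (y - n))
      rw [shft y]
      unfold ch1 fe fo
      rw [neg_neg]; ring
    · show -(ck1 PII aII (1/2 - (y - n))) = -(aII (1/2 - (y - n))) * ck PII (1/2 - (y - n))
        - 2 * (-(fe (y - 1/2 - n)) - -(fo (y - 1/2 - n))) * ch PII (1/2 - (y - n))
      rw [shft y]
      unfold ck1 fe fo
      rw [neg_neg]; ring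
    · have := r3 coreII hs
      show ch2 PII aII aII1 (1/2 - (y - n)) - (-(aII (1/2 - (y - n)))) ^ 2 * ch PII (1/2 - (y - n))
        - 4 * -(fo (y - 1/2 - n)) * -(ck1 PII aII (1/2 - (y - n)))
        - 2 * -(be1 (y - 1/2 - n) + be1 (-(y - 1/2 - n))) * ck PII (1/2 - (y - n))
        + He (y - 1/2 - n) * ck PII (1/2 - (y - n))
        + (Xe (y - 1/2 - n) + tau (y - n)) * ch PII (1/2 - (y - n)) = 0
      rw [shft y]
      unfold fo He Xe
      unfold tII at this
      rw [show (1:ℝ)/2 - (1/2 - (y - n)) = y - n by ring] at this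
      rw [neg_neg]
      linear_combination this
    · have := r4 coreII hs
      show ck2 PII aII aII1 (1/2 - (y - n)) - (-(aII (1/2 - (y - n)))) ^ 2 * ck PII (1/2 - (y - n))
        - 4 * -(fo (y - 1/2 - n)) * -(ch1 PII aII (1/2 - (y - n)))
        - 2 * -(be1 (y - 1/2 - n) + be1 (-(y - 1/2 - n))) * ch PII (1/2 - (y - n))
        + He (y - 1/2 - n) * ch PII (1/2 - (y - n))
        + (Xe (y - 1/2 - n) + tau (y - n)) * ck PII (1/2 - (y - n)) = 0
      rw [shft y]
      unfold fo He Xe
      unfold tII at this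
      rw [show (1:ℝ)/2 - (1/2 - (y - n)) = y - n by ring] at this
      rw [neg_neg]
      linear_combination this

end

end Pool.Agent.Helper25.SE
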