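import Pool.Agent.Helper25.SE.Glo
import Pool.Agent.Helper25.SE.Main

set_option autoImplicit false

open Real Set Filter Topology MeasureTheory
open scoped ContDiff

namespace Pool.Agent.Helper25.SE

noncomputable section

def pp2 (s : ℝ) : ℝ := Real.exp (π * s ^ 2 - PB s) * (chi (-s) * chi (s + 1/2))
def qq2 (s : ℝ) : ℝ := Real.exp (π * s ^ 2 - 3 * PB s) * (chi s * chi (1/2 - s))

/-- the complex solution; lc is a scaling constant -/
def UC (lc x y t : ℝ) : ℂ :=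
  (Real.exp (lc - (π / 2) * (x ^ 2 + y ^ 2)) : ℂ) *
    ((∑' n : ℤ, Ec (t - π * x * y + 2 * π * n * x) * (pp2 (y - n) : ℂ))
      + ∑' n : ℤ, Ec (3 * t - π * x * y + 2 * π * n * x) * (qq2 (y - n) : ℂ))

theorem pp2_out {s : ℝ} (h : s ≤ -2/3 ∨ 1/6 ≤ s) : pp2 s = 0 := by
  unfold pp2
  rcases h with h | h
  · rw [chi_zero (y := s + 1/2) (by linarith)]; ring
  · rw [chi_zero (y := -s) (by linarith)]; ring

theorem qq2_out {s : ℝ} (h : s ≤ -1/6 ∨ 2/3 ≤ s) : qq2 s = 0 := by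
  unfold qq2
  rcases h with h | h
  · rw [chi_zero (y := s) (by linarith)]; ring
  · rw [chi_zero (y := 1/2 - s) (by linarith)]; ring

theorem UCI0 {n : ℤ} {y : ℝ} (h : |y - n| < 1/3) (lc x t : ℝ) :
    UC lc x y t = (Real.exp (lc - (π / 2) * (x ^ 2 + y ^ 2)) : ℂ) *
      (Ec (t - π * x * y + 2 * π * n * x) * (pp2 (y - n) : ℂ)
        + Ec (3 * t - π * x * y + 2 * π * n * x) * (qq2 (y - n) : ℂ)) := by
  have h1 := abs_lt.1 h
  have e1 : ∑' m : ℤ, Ec (t - π * x * y + 2 * π * m * x) * (pp2 (y - m) : ℂ)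
      = Ec (t - π * x * y + 2 * π * n * x) * (pp2 (y - n) : ℂ) := by
    apply tsum_eq_single n
    intro m hm
    have : pp2 (y - m) = 0 := by
      apply pp2_out
      rcases lt_or_gt_of_ne hm with h2 | h2
      · have : (m : ℝ) + 1 ≤ n := by exact_mod_cast h2
        right; linarith [h1.1]
      · have : (n : ℝ) + 1 ≤ m := by exact_mod_cast h2
        left; linarith [h1.2]
    rw [this]; simp
  have e2 : ∑' m : ℤ, Ec (3 * t - π * x * y + 2 * π * m * x) * (qq2 (y - m) : ℂ)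
      = Ec (3 * t - π * x * y + 2 * π * n * x) * (qq2 (y - n) : ℂ) := by
    apply tsum_eq_single n
    intro m hm
    have : qq2 (y - m) = 0 := by
      apply qq2_out
      rcases lt_or_gt_of_ne hm with h2 | h2
      · have : (m : ℝ) + 1 ≤ n := by exact_mod_cast h2
        right; linarith [h1.1]
      · have : (n : ℝ) + 1 ≤ m := by exact_mod_cast h2
        left; linarith [h1.2]
    rw [this]; simp
  unfold UC
  rw [e1, e2]

theorem UCII0 {n : ℤ} {y : ℝ} (h : |y - n - 1/2| < 1/3) (lc x t : ℝ) :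
    UC lc x y t = (Real.exp (lc - (π / 2) * (x ^ 2 + y ^ 2)) : ℂ) *
      (Ec (t - π * x * y + 2 * π * ((n + 1 : ℤ) : ℝ) * x) * (pp2 (y - ((n + 1 : ℤ) : ℝ)) : ℂ)
        + Ec (3 * t - π * x * y + 2 * π * n * x) * (qq2 (y - n) : ℂ)) := by
  have h1 := abs_lt.1 h
  have e1 : ∑' m : ℤ, Ec (t - π * x * y + 2 * π * m * x) * (pp2 (y - m) : ℂ)
      = Ec (t - π * x * y + 2 * π * ((n + 1 : ℤ) : ℝ) * x) * (pp2 (y - ((n + 1 : ℤ) : ℝ)) : ℂ) := by
    apply tsum_eq_single (n + 1)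
    intro m hm
    have : pp2 (y - m) = 0 := by
      apply pp2_out
      rcases lt_or_gt_of_ne hm with h2 | h2
      · have : (m : ℝ) ≤ n := by
          have : m ≤ n := by omega
          exact_mod_cast this
        right; linarith [h1.1]
      · have : (n : ℝ) + 2 ≤ m := by
          have : n + 2 ≤ m := by omega
          exact_mod_cast this
        left; linarith [h1.2]
    rw [this]; simp
  have e2 : ∑' m : ℤ, Ec (3 * t - π * x * y + 2 * π * m * x) * (qq2 (y - m) : ℂ)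
      = Ec (3 * t - π * x * y + 2 * π * n * x) * (qq2 (y - n) : ℂ) := by
    apply tsum_eq_single n
    intro m hm
    have : qq2 (y - m) = 0 := by
      apply qq2_out
      rcases lt_or_gt_of_ne hm with h2 | h2
      · have : (m : ℝ) + 1 ≤ n := by exact_mod_cast h2
        right; linarith [h1.1]
      · have : (n : ℝ) + 1 ≤ m := by exact_mod_cast h2
        left; linarith [h1.2]
    rw [this]; simp
  unfold UC
  rw [e1, e2]

theorem Ec3 (s : ℝ) : Ec s ^ 3 = Ec (3 * s) := by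
  unfold Ec
  rw [← Complex.exp_nat_mul]; congr 1; push_cast; ring

theorem UC_I {n : ℤ} {y : ℝ} (h : |y - n| < 1/3) (lc x t : ℝ) :
    UC lc x y t = Gc n (lc + π * n ^ 2) x y * Hc PB (1 * (y - n)) (t - 0 * x) := by
  have h1 := abs_lt.1 h
  rw [UCI0 h]
  unfold Gc Hc sh sk pp2 qq2
  rw [chi_one (y := y - n + 1/2) (by linarith [h1.1]),
    chi_one (y := 1/2 - (y - n)) (by linarith [h1.2]), one_mul, Ec3]
  have c1 : Ec (t - π * x * y + 2 * π * n * x)
      = Ec (-(π * x * y) + 2 * π * n * x) * Ec (t - 0 * x) := by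
    rw [← Ec_add]; congr 1; ring
  have c2 : Ec (3 * t - π * x * y + 2 * π * n * x)
      = Ec (-(π * x * y) + 2 * π * n * x) * Ec (3 * (t - 0 * x)) := by
    rw [← Ec_add]; congr 1; ring
  rw [c1, c2]
  have g1 : Real.exp (gE n (lc + π * n ^ 2) x y) * Real.exp (-(PB (y - n)))
      = Real.exp (lc - (π / 2) * (x ^ 2 + y ^ 2)) * Real.exp (π * (y - n) ^ 2 - PB (y - n)) := by
    rw [← Real.exp_add, ← Real.exp_add]; congr 1; unfold gE; ring
  have g3 : Real.exp (gE n (lc + π * n ^ 2) x y) * Real.exp (-(3 * PB (y - n)))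
      = Real.exp (lc - (π / 2) * (x ^ 2 + y ^ 2)) * Real.exp (π * (y - n) ^ 2 - 3 * PB (y - n)) := by
    rw [← Real.exp_add, ← Real.exp_add]; congr 1; unfold gE; ring
  have g1c := congrArg (fun r : ℝ => (r : ℂ)) g1
  have g3c := congrArg (fun r : ℝ => (r : ℂ)) g3
  push_cast at g1c g3c ⊢
  linear_combination -(Ec (-(π * x * y) + 2 * π * n * x) * Ec (t - 0 * x) * (chi (-(y - n)) : ℂ)) * g1c
    - (Ec (-(π * x * y) + 2 * π * n * x) * Ec (3 * (t - 0 * x)) * (chi (y - n) : ℂ)) * g3c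

theorem UC_II {n : ℤ} {y : ℝ} (h : |y - n - 1/2| < 1/3) (lc x t : ℝ) :
    UC lc x y t = Gc (n + 3/2) (lc + (π * n ^ 2 + 3 * π * n + 3 * π / 2 - 3 * PB (1/2))) x y
      * Hc PC ((-1) * (y - (n + 1/2))) (t - π * x) := by
  have h1 := abs_lt.1 h
  rw [UCII0 h]
  have e0 : ((n + 1 : ℤ) : ℝ) = (n : ℝ) + 1 := by push_cast; ring
  unfold Gc Hc sh sk pp2 qq2
  rw [e0, show (-1) * (y - ((n : ℝ) + 1/2)) = 1/2 - (y - n) by ring,
    show y - ((n : ℝ) + 1) = (y - n) - 1 by ring, PB_sub_one,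
    chi_one (y := -(y - n - 1)) (by linarith [h1.2]),
    chi_one (y := y - n) (by linarith [h1.1]), Ec3]
  have c1 : Ec (t - π * x * y + 2 * π * (n + 1) * x)
      = Ec (-(π * x * y) + 2 * π * (n + 3/2) * x) * Ec (t - π * x) := by
    rw [← Ec_add]; congr 1; ring
  have c2 : Ec (3 * t - π * x * y + 2 * π * n * x)
      = Ec (-(π * x * y) + 2 * π * (n + 3/2) * x) * Ec (3 * (t - π * x)) := by
    rw [← Ec_add]; congr 1; ring
  rw [c1, c2]
  have g1 : Real.exp (gE (n + 3/2) (lc + (π * n ^ 2 + 3 * π * n + 3 * π / 2 - 3 * PB (1/2))) x y)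
      * Real.exp (-(PC (1/2 - (y - n))))
      = Real.exp (lc - (π / 2) * (x ^ 2 + y ^ 2))
        * Real.exp (π * (y - n - 1) ^ 2 - (PB (y - n) - PB 1)) := by
    rw [← Real.exp_add, ← Real.exp_add]; congr 1; unfold gE PC
    rw [show (1:ℝ)/2 - (1/2 - (y - n)) = y - n by ring, PB_rel]; ring
  have g3 : Real.exp (gE (n + 3/2) (lc + (π * n ^ 2 + 3 * π * n + 3 * π / 2 - 3 * PB (1/2))) x y)
      * Real.exp (-(3 * PC (1/2 - (y - n))))
      = Real.exp (lc - (π / 2) * (x ^ 2 + y ^ 2))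
        * Real.exp (π * (y - n) ^ 2 - 3 * PB (y - n)) := by
    rw [← Real.exp_add, ← Real.exp_add]; congr 1; unfold gE PC
    rw [show (1:ℝ)/2 - (1/2 - (y - n)) = y - n by ring]; ring
  rw [show -((1:ℝ)/2 - (y - n)) = y - n - 1 + 1/2 by ring]
  have g1c := congrArg (fun r : ℝ => (r : ℂ)) g1
  have g3c := congrArg (fun r : ℝ => (r : ℂ)) g3
  push_cast at g1c g3c ⊢
  linear_combination -(Ec (-(π * x * y) + 2 * π * (n + 3/2) * x) * Ec (t - π * x)
      * (chi (y - n - 1 + 1/2) : ℂ)) * g1c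
    - (Ec (-(π * x * y) + 2 * π * (n + 3/2) * x) * Ec (3 * (t - π * x))
      * (chi (1/2 - (y - n)) : ℂ)) * g3c

def ab1 (y : ℝ) : ℝ := deriv ab y
theorem ab1_cd : ContDiff ℝ ∞ ab1 := cd_deriv ab_cd
theorem ab1_per (y : ℝ) : ab1 (y + 1) = ab1 y := by
  have h : (fun y => ab (y + 1)) = ab := funext ab_per
  unfold ab1
  have := deriv_comp_add_const ab 1 y
  rw [h] at this
  exact this.symm

variable (K : ℝ)

def Aα (x y t : ℝ) : ℝ := ab y + gl (-1) Z1 x y t
def Aβ (x y t : ℝ) : ℝ := gl (-1) Z2 x y t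
def Rq (x y t : ℝ) : ℝ := Rz K x y t - K
def Wq (x y t : ℝ) : ℝ := if |y| < 1/3 then Wz K x y t - K - 8 * K * SQ y else 0
def pB (x y t : ℝ) : ℝ := -(ab1 y) / 4 + K + gl 1 (Rq K) x y t
def WB (x y t : ℝ) : ℝ := 3/4 * ab1 y + K + 8 * K * SQ y + gl 1 (Wq K) x y t

theorem Z1_sup : Sup2 Z1 := fun _ h x t => (Z_out h x t).1
theorem Z2_sup : Sup2 Z2 := fun _ h x t => (Z_out h x t).2
theorem Rq_sup : Sup2 (Rq K) := fun y h x t => by unfold Rq; rw [Rz_out K h]; ring
theorem SQ_eq (y : ℝ) : SQ y = (1 - sg y) / 2 := by unfold SQ sg; ring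
theorem Wq_sup : Sup2 (Wq K) := fun y h x t => by
  unfold Wq
  split_ifs with h3
  · have h3' := abs_lt.1 h3
    rcases lt_abs.1 h with h | h
    · rw [Wz_right K h, SQ_eq, sg_neg (by linarith) (by linarith)]; ring
    · rw [Wz_left K (by linarith), SQ_eq, sg_pos (by linarith) (by linarith)]; ring
  · rfl

theorem Rq_sm : Sm (Rq K) := (Rz_sm K).sub (smc K)
theorem Wq_sm : Sm (Wq K) := by
  apply sm_of
  intro p
  rcases lt_or_ge |p.2.1| (1/3) with h | h
  · have e : un (Wq K) =ᶠ[𝓝 p] un fun x y t => Wz K x y t - K - 8 * K * SQ y := by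
      have ho : IsOpen {q : ℝ × ℝ × ℝ | |q.2.1| < 1/3} :=
        isOpen_lt (by fun_prop) continuous_const
      filter_upwards [ho.mem_nhds h] with q hq
      have hq' : |q.2.1| < 1/3 := hq
      unfold un Wq
      rw [if_pos hq']
    refine ContDiffAt.congr_of_eventuallyEq ?_ e
    exact (sm_iff.1 (((Wz_sm K).sub (smc K)).sub ((smy SQ_cd).cm (8 * K)))).contDiffAt
  · have e : un (Wq K) =ᶠ[𝓝 p] fun _ => 0 := by
      have ho : IsOpen {q : ℝ × ℝ × ℝ | 1/6 < |q.2.1|} :=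
        isOpen_lt continuous_const (by fun_prop)
      filter_upwards [ho.mem_nhds (show 1/6 < |p.2.1| by linarith)] with q hq
      exact Wq_sup K _ hq _ _
    exact contDiffAt_const.congr_of_eventuallyEq e

theorem Aα_sm : Sm Aα := (smy ab_cd).add (gl_sm _ Z1_sup Z1_sm)
theorem Aβ_sm : Sm Aβ := gl_sm _ Z2_sup Z2_sm
theorem pB_sm : Sm (pB K) := by
  have h1 : Sm fun _ y _ => -(ab1 y) / 4 := smy (ab1_cd.neg.div_const 4)
  exact (h1.add (smc K)).add (gl_sm _ (Rq_sup K) (Rq_sm K))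
theorem WB_sm : Sm (WB K) :=
  ((((smy ab1_cd).cm (3/4)).add (smc K)).add ((smy SQ_cd).cm (8 * K))).add
    (gl_sm _ (Wq_sup K) (Wq_sm K))

theorem SQ_per (y : ℝ) : SQ (y + 1) = SQ y := by rw [SQ_eq, SQ_eq, sg_per]
theorem SQ_half (y : ℝ) : SQ (1/2 - y) = SQ y := by rw [SQ_eq, SQ_eq, sg_half]

theorem loI (lc : ℝ) (n : ℤ) : Lo PB ab K n 0 (lc + π * n ^ 2) n 1 (UC lc) Aα Aβ (pB K) (WB K)
    ab1 {z : ℝ | |z - n| < 1/3} where
  ss := by norm_num
  ho := isOpen_lt (by fun_prop) continuous_const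
  ha := fun s => cd_has ab_cd s
  eU := fun y hy x t => UC_I hy lc x t
  e1 := fun y hy x t => by
    unfold Aα
    rw [gl_I _ Z1_sup hy]
    simp only [one_mul, zero_mul, sub_zero, zero_add]
    rw [per_int ab_per]
  e2 := fun y hy x t => by
    unfold Aβ
    rw [gl_I _ Z2_sup hy]
    simp only [one_mul, zero_mul, sub_zero]
  ep := fun y hy x t => by
    unfold pB
    rw [gl_I _ (Rq_sup K) hy]
    simp only [one_mul, zero_mul, sub_zero]
    rw [per_int ab1_per]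
    unfold Rq; ring
  eW := fun y hy x t => by
    have hy' : |y - n| < 1/3 := hy
    unfold WB
    rw [gl_I _ (Wq_sup K) hy]
    simp only [one_mul, zero_mul, sub_zero]
    rw [per_int ab1_per]
    unfold Wq
    rw [if_pos hy', per_int SQ_per]; ring

theorem loII (lc : ℝ) (n : ℤ) : Lo PC ac K (n + 3/2) π
    (lc + (π * n ^ 2 + 3 * π * n + 3 * π / 2 - 3 * PB (1/2))) (n + 1/2) (-1)
    (UC lc) Aα Aβ (pB K) (WB K) (fun s => ab1 (1/2 - s)) {z : ℝ | |z - n - 1/2| < 1/3} where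
  ss := by norm_num
  ho := isOpen_lt (by fun_prop) continuous_const
  ha := fun s => by
    have h := (has_half (cd_has ab_cd (1/2 - s))).const_sub π
    have e : ab1 (1/2 - s) = -(-(deriv ab (1/2 - s))) := by unfold ab1; ring
    show HasDerivAt ac (ab1 (1/2 - s)) s
    rw [e]; exact h
  eU := fun y hy x t => UC_II hy lc x t
  e1 := fun y hy x t => by
    unfold Aα ac
    rw [gl_II _ Z1_sup hy, show (-1) * (y - ((n : ℝ) + 1/2)) = 1/2 - (y - n) by ring,
      show (1:ℝ)/2 - (1/2 - (y - n)) = y - n by ring, per_int ab_per]; ring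
  e2 := fun y hy x t => by
    unfold Aβ
    rw [gl_II _ Z2_sup hy, show (-1) * (y - ((n : ℝ) + 1/2)) = 1/2 - (y - n) by ring]
  ep := fun y hy x t => by
    unfold pB
    rw [gl_II _ (Rq_sup K) hy, show (-1) * (y - ((n : ℝ) + 1/2)) = 1/2 - (y - n) by ring,
      show (1:ℝ)/2 - (1/2 - (y - n)) = y - n by ring, per_int ab1_per]
    unfold Rq; ring
  eW := fun y hy x t => by
    have hs : |1/2 - (y - n)| < 1/3 := by
      rw [show (1:ℝ)/2 - (y - n) = -(y - n - 1/2) by ring, abs_neg]; exact hy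
    unfold WB
    rw [gl_II _ (Wq_sup K) hy, show (-1) * (y - ((n : ℝ) + 1/2)) = 1/2 - (y - n) by ring,
      show (1:ℝ)/2 - (1/2 - (y - n)) = y - n by ring, per_int ab1_per]
    unfold Wq
    rw [if_pos hs, SQ_half, per_int SQ_per]; ring

end

end Pool.Agent.Helper25.SE
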