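import Pool.Agent.Helper25.SE.Loc

set_option autoImplicit false

open Real Set Filter Topology
open scoped ContDiff

namespace Pool.Agent.Helper25.SE

noncomputable section

def lA1 (nu : ℝ) (av bs : ℝ → ℝ) (x y t : ℝ) : ℝ :=
  (av y - nu) + 2 * bs y * Real.cos (2 * (t + nu * x))
def lA2 (nu : ℝ) (bd : ℝ → ℝ) (x y t : ℝ) : ℝ := 2 * bd y * Real.sin (2 * (t + nu * x))
def lN (nu : ℝ) (nn : ℝ → ℝ) (x y t : ℝ) : ℝ := nn y * Real.cos (2 * (t + nu * x))
def lV (p0 nu : ℝ) (av et ze : ℝ → ℝ) (x y t : ℝ) : ℝ :=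
  p0 - (av y - nu) ^ 2 + ze y + 3 / 2 * et y * Real.cos (2 * (t + nu * x))

theorem cosx (nu x t : ℝ) : HasDerivAt (fun x => Real.cos (2 * (t + nu * x)))
    (-Real.sin (2 * (t + nu * x)) * (2 * (nu * 1))) x :=
  ((((hasDerivAt_id x).const_mul nu).const_add t).const_mul 2).cos

theorem cost (nu x t : ℝ) : HasDerivAt (fun t => Real.cos (2 * (t + nu * x)))
    (-Real.sin (2 * (t + nu * x)) * (2 * 1)) t :=
  (((hasDerivAt_id t).add_const (nu * x)).const_mul 2).cos

theorem sint (nu x t : ℝ) : HasDerivAt (fun t => Real.sin (2 * (t + nu * x)))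
    (Real.cos (2 * (t + nu * x)) * (2 * 1)) t :=
  (((hasDerivAt_id t).add_const (nu * x)).const_mul 2).sin

theorem local_id (p0 mu nu c0 : ℝ) (h k h1 k1 av bs bd nn et ze : ℝ → ℝ) (h2 k2 bd1 : ℝ)
    (x y t : ℝ)
    (hh : HasDerivAt h (h1 y) y) (hk : HasDerivAt k (k1 y) y)
    (hh1 : HasDerivAt h1 h2 y) (hk1 : HasDerivAt k1 k2 y)
    (hbd : HasDerivAt bd bd1 y)
    (hnn : nn y = et y / 2 - 4 * nu * bs y + 2 * bd1)
    (r1 : h1 y = -(av y) * h y + 2 * (bs y + bd y) * k y)
    (r2 : k1 y = av y * k y - 2 * (bs y - bd y) * h y)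
    (r3 : h2 - av y ^ 2 * h y - 4 * bd y * k1 y - 2 * bd1 * k y + et y * k y + ze y * h y = 0)
    (r4 : k2 - av y ^ 2 * k y - 4 * bd y * h1 y - 2 * bd1 * h y + et y * h y + ze y * k y = 0) :
    ∃ dX dY dT : ℝ,
      HasDerivAt (fun x => lUX mu nu c0 h k x y t
        + 3 * lA1 nu av bs x y t * lUT mu nu c0 h k x y t) dX x ∧
      HasDerivAt (fun y => lUY mu nu c0 h k h1 k1 x y t
        + 3 * lA2 nu bd x y t * lUT mu nu c0 h k x y t) dY y ∧
      HasDerivAt (fun t => -(lA1 nu av bs x y t) * lUX mu nu c0 h k x y t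
        - lA2 nu bd x y t * lUY mu nu c0 h k h1 k1 x y t
        + (p0 + lN nu nn x y t) * lUT mu nu c0 h k x y t) dT t ∧
      dX + dY + dT + lV p0 nu av et ze x y t * lU mu nu c0 h k x y t = 0 := by
  have hid : HasDerivAt (fun x : ℝ => -(π * x)) (-(π * 1)) x :=
    ((hasDerivAt_id x).const_mul π).neg
  have hlam : HasDerivAt (fun y : ℝ => lam2 mu y) (-(π * 1)) y :=
    (((hasDerivAt_id y).const_mul π).neg).add_const (2 * π * mu)
  -- x derivatives
  have HXX := T_has (gE_x mu c0 x y) (pE_x mu nu x y t) (mE_x mu nu x y t)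
    (hid.mul_const (h y)) (hasDerivAt_const x (-((lam2 mu y + nu) * h y)))
    (hid.mul_const (k y)) (hasDerivAt_const x (-((lam2 mu y - nu) * k y)))
  have HXT := T_has (gE_x mu c0 x y) (pE_x mu nu x y t) (mE_x mu nu x y t)
    (hasDerivAt_const x (0 : ℝ)) (hasDerivAt_const x (-(h y)))
    (hasDerivAt_const x (0 : ℝ)) (hasDerivAt_const x (k y))
  have HA1x := ((cosx nu x t).const_mul (2 * bs y)).const_add (av y - nu)
  have HX := HXX.add ((HA1x.const_mul 3).mul HXT)
  -- y derivatives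
  have HYY := T_has (gE_y mu c0 x y) (pE_y mu nu x y t) (mE_y mu nu x y t)
    ((hlam.neg.mul hh).add hh1) (hh.const_mul (π * x))
    ((hlam.neg.mul hk).add hk1) (hk.const_mul (π * x))
  have HYT := T_has (gE_y mu c0 x y) (pE_y mu nu x y t) (mE_y mu nu x y t)
    (hasDerivAt_const y (0 : ℝ)) hh.neg (hasDerivAt_const y (0 : ℝ)) hk
  have HA2y := (hbd.const_mul 2).mul_const (Real.sin (2 * (t + nu * x)))
  have HY := HYY.add ((HA2y.const_mul 3).mul HYT)
  -- t derivatives
  have HTX := T_has (hasDerivAt_const t (gE mu c0 x y)) (pE_t mu nu x y t) (mE_t mu nu x y t)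
    (hasDerivAt_const t (-(π * x) * h y)) (hasDerivAt_const t (-((lam2 mu y + nu) * h y)))
    (hasDerivAt_const t (-(π * x) * k y)) (hasDerivAt_const t (-((lam2 mu y - nu) * k y)))
  have HTY := T_has (hasDerivAt_const t (gE mu c0 x y)) (pE_t mu nu x y t) (mE_t mu nu x y t)
    (hasDerivAt_const t (-(lam2 mu y) * h y + h1 y)) (hasDerivAt_const t (π * x * h y))
    (hasDerivAt_const t (-(lam2 mu y) * k y + k1 y)) (hasDerivAt_const t (π * x * k y))
  have HTT := T_has (hasDerivAt_const t (gE mu c0 x y)) (pE_t mu nu x y t) (mE_t mu nu x y t)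
    (hasDerivAt_const t (0 : ℝ)) (hasDerivAt_const t (-(h y)))
    (hasDerivAt_const t (0 : ℝ)) (hasDerivAt_const t (k y))
  have HA1t := ((cost nu x t).const_mul (2 * bs y)).const_add (av y - nu)
  have HA2t := (sint nu x t).const_mul (2 * bd y)
  have HNt := ((cost nu x t).const_mul (nn y)).const_add p0
  have HT := ((HA1t.neg.mul HTX).sub (HA2t.mul HTY)).add (HNt.mul HTT)
  refine ⟨_, _, _, HX, HY, HT, ?_⟩
  have hpm : pE mu nu x y t - mE mu nu x y t = 2 * (t + nu * x) := by unfold pE mE; ring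
  have Ra : Real.cos (pE mu nu x y t) * Real.cos (2 * (t + nu * x))
      + Real.sin (pE mu nu x y t) * Real.sin (2 * (t + nu * x)) = Real.cos (mE mu nu x y t) := by
    rw [← Real.cos_sub]; congr 1; rw [← hpm]; ring
  have Rb : Real.sin (pE mu nu x y t) * Real.cos (2 * (t + nu * x))
      - Real.cos (pE mu nu x y t) * Real.sin (2 * (t + nu * x)) = Real.sin (mE mu nu x y t) := by
    rw [← Real.sin_sub]; congr 1; rw [← hpm]; ring
  have Rc : Real.cos (mE mu nu x y t) * Real.cos (2 * (t + nu * x))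
      - Real.sin (mE mu nu x y t) * Real.sin (2 * (t + nu * x)) = Real.cos (pE mu nu x y t) := by
    rw [← Real.cos_add]; congr 1; rw [← hpm]; ring
  have Rd : Real.sin (mE mu nu x y t) * Real.cos (2 * (t + nu * x))
      + Real.cos (mE mu nu x y t) * Real.sin (2 * (t + nu * x)) = Real.sin (pE mu nu x y t) := by
    rw [← Real.sin_add]; congr 1; rw [← hpm]; ring
  simp only [Pi.add_apply, Pi.mul_apply, Pi.neg_apply]
  unfold lV lU lT T lam2
  rw [hnn]
  generalize Real.cos (pE mu nu x y t) = Cp at *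
  generalize Real.sin (pE mu nu x y t) = Sp at *
  generalize Real.cos (mE mu nu x y t) = Cm at *
  generalize Real.sin (mE mu nu x y t) = Sm at *
  generalize Real.cos (2 * (t + nu * x)) = c2 at *
  generalize Real.sin (2 * (t + nu * x)) = s2 at *
  generalize Real.exp (gE mu c0 x y) = E at *
  set L := -(π * y) + 2 * π * mu with hL
  linear_combination (exp := 1)
    E * (-4 * bs y * h y * L + 4 * bd y * h y * L - 4 * bd y * h1 y - 2 * bd1 * h y
        + et y * h y) * Ra
    + E * (-4 * bs y * h y * (-(π * x)) + 4 * bd y * h y * (-(π * x))) * Rb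
    + E * (4 * bs y * k y * L + 4 * bd y * k y * L - 4 * bd y * k1 y - 2 * bd1 * k y
        + et y * k y) * Rc
    + E * (4 * bs y * k y * (-(π * x)) + 4 * bd y * k y * (-(π * x))) * Rd
    + E * Cp * r3 - 2 * E * (L * Cp + (-(π * x)) * Sp) * r1
    + E * Cm * r4 - 2 * E * (L * Cm + (-(π * x)) * Sm) * r2

end

end Pool.Agent.Helper25.SE
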