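import Pool.Agent.Helper25.SE.Per
import Pool.Agent.Helper25.SE.Pde

set_option autoImplicit false

open Real Set Filter Topology MeasureTheory
open scoped ContDiff

namespace Pool.Agent.Helper25.SE

noncomputable section

def AL1 (x y t : ℝ) : ℝ :=
  aa y + 2 * per fe y * Real.cos (2 * t) - 2 * per fe (y - 1/2) * Real.cos (2 * (t + π * x))
def AL2 (x y t : ℝ) : ℝ :=
  -(2 * per fo y * Real.sin (2 * t)) - 2 * per fo (y - 1/2) * Real.sin (2 * (t + π * x))
def NN (x y t : ℝ) : ℝ :=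
  per n0 y * Real.cos (2 * t) + per nh (y - 1/2) * Real.cos (2 * (t + π * x))
def VV (p0 x y t : ℝ) : ℝ :=
  p0 - aa y ^ 2 + tau y + per Xe y + per Xe (y - 1/2)
    + 3 / 2 * (per He y * Real.cos (2 * t) + per He (y - 1/2) * Real.cos (2 * (t + π * x)))

def pp (s : ℝ) : ℝ := Real.exp (π * s ^ 2 - Phi s) * (chi (-s) * chi (s + 1/2))
def qq (s : ℝ) : ℝ := Real.exp (π * s ^ 2 + Phi s) * (chi s * chi (1/2 - s))

def UU (x y t : ℝ) : ℝ :=
  Real.exp (-(π / 2) * (x ^ 2 + y ^ 2)) *
    ((∑' n : ℤ, Real.cos (t - π * x * y + 2 * π * n * x) * pp (y - n))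
      + ∑' n : ℤ, Real.cos (-t - π * x * y + 2 * π * n * x) * qq (y - n))

theorem pp_out {s : ℝ} (h : s ≤ -2/3 ∨ 1/6 ≤ s) : pp s = 0 := by
  unfold pp
  rcases h with h | h
  · rw [chi_zero (y := s + 1/2) (by linarith)]; ring
  · rw [chi_zero (y := -s) (by linarith)]; ring

theorem qq_out {s : ℝ} (h : s ≤ -1/6 ∨ 2/3 ≤ s) : qq s = 0 := by
  unfold qq
  rcases h with h | h
  · rw [chi_zero (y := s) (by linarith)]; ring
  · rw [chi_zero (y := 1/2 - s) (by linarith)]; ring

theorem UU_I {n : ℤ} {y : ℝ} (h : |y - n| < 1/3) (x t : ℝ) :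
    UU x y t = lU n 0 (π * n ^ 2) (fun y => ch Phi (y - n)) (fun y => ck Phi (y - n)) x y t := by
  have h1 := abs_lt.1 h
  have e1 : ∑' m : ℤ, Real.cos (t - π * x * y + 2 * π * m * x) * pp (y - m)
      = Real.cos (t - π * x * y + 2 * π * n * x) * pp (y - n) := by
    apply tsum_eq_single n
    intro m hm
    have : pp (y - m) = 0 := by
      apply pp_out
      rcases lt_or_gt_of_ne hm with h2 | h2
      · have : (m : ℝ) + 1 ≤ n := by exact_mod_cast h2
        right; linarith [h1.1]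
      · have : (n : ℝ) + 1 ≤ m := by exact_mod_cast h2
        left; linarith [h1.2]
    rw [this]; ring
  have e2 : ∑' m : ℤ, Real.cos (-t - π * x * y + 2 * π * m * x) * qq (y - m)
      = Real.cos (-t - π * x * y + 2 * π * n * x) * qq (y - n) := by
    apply tsum_eq_single n
    intro m hm
    have : qq (y - m) = 0 := by
      apply qq_out
      rcases lt_or_gt_of_ne hm with h2 | h2
      · have : (m : ℝ) + 1 ≤ n := by exact_mod_cast h2
        right; linarith [h1.1]
      · have : (n : ℝ) + 1 ≤ m := by exact_mod_cast h2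
        left; linarith [h1.2]
    rw [this]; ring
  unfold UU lU lT T pp qq ch ck
  unfold pp at e1
  unfold qq at e2
  rw [e1, e2, chi_one (y := y - n + 1/2) (by linarith [h1.1]),
    chi_one (y := 1/2 - (y - n)) (by linarith [h1.2])]
  have c1 : Real.cos (pE n 0 x y t) = Real.cos (t - π * x * y + 2 * π * n * x) := by
    congr 1; unfold pE; ring
  have c2 : Real.cos (mE n 0 x y t) = Real.cos (-t - π * x * y + 2 * π * n * x) := by
    congr 1; unfold mE; ring
  rw [c1, c2]
  have g1 : Real.exp (gE n (π * n ^ 2) x y)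
      = Real.exp (-(π / 2) * (x ^ 2 + y ^ 2)) * Real.exp (π * (y - n) ^ 2) := by
    rw [← Real.exp_add]; congr 1; unfold gE; ring
  beta_reduce
  rw [g1, Real.exp_sub, Real.exp_add, Real.exp_neg]
  ring

theorem UU_II {n : ℤ} {y : ℝ} (h : |y - n - 1/2| < 1/3) (x t : ℝ) :
    UU x y t = lU (n + 1/2) π (π * n ^ 2 + π * n + π / 2 + Phi (1/2))
      (fun y => ch PII (1/2 - (y - n))) (fun y => ck PII (1/2 - (y - n))) x y t := by
  have h1 := abs_lt.1 h
  have e1 : ∑' m : ℤ, Real.cos (t - π * x * y + 2 * π * m * x) * pp (y - m)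
      = Real.cos (t - π * x * y + 2 * π * ((n + 1 : ℤ) : ℝ) * x) * pp (y - ((n + 1 : ℤ) : ℝ)) := by
    apply tsum_eq_single (n + 1)
    intro m hm
    have : pp (y - m) = 0 := by
      apply pp_out
      rcases lt_or_gt_of_ne hm with h2 | h2
      · have : (m : ℝ) ≤ n := by
          have : m ≤ n := by omega
          exact_mod_cast this
        right; linarith [h1.1]
      · have : (n : ℝ) + 2 ≤ m := by
          have : n + 2 ≤ m := by omega
          exact_mod_cast this
        left; linarith [h1.2]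
    rw [this]; ring
  have e2 : ∑' m : ℤ, Real.cos (-t - π * x * y + 2 * π * m * x) * qq (y - m)
      = Real.cos (-t - π * x * y + 2 * π * n * x) * qq (y - n) := by
    apply tsum_eq_single n
    intro m hm
    have : qq (y - m) = 0 := by
      apply qq_out
      rcases lt_or_gt_of_ne hm with h2 | h2
      · have : (m : ℝ) + 1 ≤ n := by exact_mod_cast h2
        right; linarith [h1.1]
      · have : (n : ℝ) + 1 ≤ m := by exact_mod_cast h2
        left; linarith [h1.2]
    rw [this]; ring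
  unfold UU lU lT T ch ck
  rw [e1, e2]
  unfold pp qq
  push_cast
  rw [show y - ((n : ℝ) + 1) = (y - n) - 1 by ring, Phi_sub_one,
    chi_one (y := -(y - n - 1)) (by linarith [h1.2]),
    chi_one (y := y - n) (by linarith [h1.1])]
  have c1 : Real.cos (pE (n + 1/2) π x y t)
      = Real.cos (t - π * x * y + 2 * π * (n + 1) * x) := by
    congr 1; unfold pE; ring
  have c2 : Real.cos (mE (n + 1/2) π x y t) = Real.cos (-t - π * x * y + 2 * π * n * x) := by
    congr 1; unfold mE; ring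
  rw [c1, c2]
  have g1 : Real.exp (gE (n + 1/2) (π * n ^ 2 + π * n + π / 2 + Phi (1/2)) x y)
      * Real.exp (-(PII (1/2 - (y - n))))
      = Real.exp (-(π / 2) * (x ^ 2 + y ^ 2))
        * Real.exp (π * (y - n - 1) ^ 2 - (Phi (y - n) - 2 * Phi (1/2))) := by
    rw [← Real.exp_add, ← Real.exp_add]; congr 1; unfold gE PII
    rw [show (1:ℝ)/2 - (1/2 - (y - n)) = y - n by ring]; ring
  have g2 : Real.exp (gE (n + 1/2) (π * n ^ 2 + π * n + π / 2 + Phi (1/2)) x y)
      * Real.exp (PII (1/2 - (y - n)))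
      = Real.exp (-(π / 2) * (x ^ 2 + y ^ 2)) * Real.exp (π * (y - n) ^ 2 + Phi (y - n)) := by
    rw [← Real.exp_add, ← Real.exp_add]; congr 1; unfold gE PII
    rw [show (1:ℝ)/2 - (1/2 - (y - n)) = y - n by ring]; ring
  rw [show -((1:ℝ)/2 - (y - n)) = y - n - 1 + 1/2 by ring]
  linear_combination -(Real.cos (t - π * x * y + 2 * π * (n + 1) * x) * chi (y - n - 1 + 1/2)) * g1
    - (Real.cos (-t - π * x * y + 2 * π * n * x) * chi (1/2 - (y - n))) * g2

def UX (x y t : ℝ) : ℝ := deriv (fun x => UU x y t) x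
def UY (x y t : ℝ) : ℝ := deriv (fun y => UU x y t) y
def UT (x y t : ℝ) : ℝ := deriv (fun t => UU x y t) t
def WX (x y t : ℝ) : ℝ := UX x y t + 3 * AL1 x y t * UT x y t
def WY (x y t : ℝ) : ℝ := UY x y t + 3 * AL2 x y t * UT x y t
def WT (p0 x y t : ℝ) : ℝ :=
  -(AL1 x y t) * UX x y t - AL2 x y t * UY x y t + (p0 + NN x y t) * UT x y t

theorem glue (p0 mu nu c0 : ℝ) (h k h1 k1 av bs bd nn et ze : ℝ → ℝ) (h2 k2 bd1 : ℝ)
    (x y t : ℝ) (I : Set ℝ) (hI : IsOpen I) (hy : y ∈ I)
    (eU : ∀ y ∈ I, ∀ x t, UU x y t = lU mu nu c0 h k x y t)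
    (e1 : ∀ y ∈ I, ∀ x t, AL1 x y t = lA1 nu av bs x y t)
    (e2 : ∀ y ∈ I, ∀ x t, AL2 x y t = lA2 nu bd x y t)
    (eN : ∀ y ∈ I, ∀ x t, NN x y t = lN nu nn x y t)
    (eV : VV p0 x y t = lV p0 nu av et ze x y t)
    (hh : ∀ y, HasDerivAt h (h1 y) y) (hk : ∀ y, HasDerivAt k (k1 y) y)
    (hh1 : HasDerivAt h1 h2 y) (hk1 : HasDerivAt k1 k2 y)
    (hbd : HasDerivAt bd bd1 y)
    (hnn : nn y = et y / 2 - 4 * nu * bs y + 2 * bd1)
    (r1 : h1 y = -(av y) * h y + 2 * (bs y + bd y) * k y)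
    (r2 : k1 y = av y * k y - 2 * (bs y - bd y) * h y)
    (r3 : h2 - av y ^ 2 * h y - 4 * bd y * k1 y - 2 * bd1 * k y + et y * k y + ze y * h y = 0)
    (r4 : k2 - av y ^ 2 * k y - 4 * bd y * h1 y - 2 * bd1 * h y + et y * h y + ze y * k y = 0) :
    deriv (fun x => WX x y t) x + deriv (fun y => WY x y t) y
      + deriv (fun t => WT p0 x y t) t + VV p0 x y t * UU x y t = 0 := by
  have eX : ∀ y ∈ I, ∀ x t, UX x y t = lUX mu nu c0 h k x y t := by
    intro y hy x t
    have : (fun x => UU x y t) = fun x => lU mu nu c0 h k x y t := funext fun x => eU y hy x t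
    unfold UX; rw [this]; exact (lU_x mu nu c0 h k x y t).deriv
  have eT : ∀ y ∈ I, ∀ x t, UT x y t = lUT mu nu c0 h k x y t := by
    intro y hy x t
    have : (fun t => UU x y t) = fun t => lU mu nu c0 h k x y t := funext fun t => eU y hy x t
    unfold UT; rw [this]; exact (lU_t mu nu c0 h k x y t).deriv
  have eY : ∀ y ∈ I, ∀ x t, UY x y t = lUY mu nu c0 h k h1 k1 x y t := by
    intro y hy x t
    have : (fun y => UU x y t) =ᶠ[𝓝 y] fun y => lU mu nu c0 h k x y t := by
      filter_upwards [hI.mem_nhds hy] with z hz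
      exact eU z hz x t
    unfold UY; rw [this.deriv_eq]; exact (lU_y mu nu c0 h k h1 k1 x y t (hh y) (hk y)).deriv
  obtain ⟨dX, dY, dT, HX, HY, HT, H⟩ := local_id p0 mu nu c0 h k h1 k1 av bs bd nn et ze h2 k2 bd1
    x y t (hh y) (hk y) hh1 hk1 hbd hnn r1 r2 r3 r4
  have d1 : deriv (fun x => WX x y t) x = dX := by
    have : (fun x => WX x y t) = fun x => lUX mu nu c0 h k x y t
        + 3 * lA1 nu av bs x y t * lUT mu nu c0 h k x y t := by
      funext x; unfold WX; rw [eX y hy, eT y hy, e1 y hy]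
    rw [this]; exact HX.deriv
  have d2 : deriv (fun y => WY x y t) y = dY := by
    have : (fun y => WY x y t) =ᶠ[𝓝 y] fun y => lUY mu nu c0 h k h1 k1 x y t
        + 3 * lA2 nu bd x y t * lUT mu nu c0 h k x y t := by
      filter_upwards [hI.mem_nhds hy] with z hz
      unfold WY; rw [eY z hz, eT z hz, e2 z hz]
    rw [this.deriv_eq]; exact HY.deriv
  have d3 : deriv (fun t => WT p0 x y t) t = dT := by
    have : (fun t => WT p0 x y t) = fun t => -(lA1 nu av bs x y t) * lUX mu nu c0 h k x y t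
        - lA2 nu bd x y t * lUY mu nu c0 h k h1 k1 x y t
        + (p0 + lN nu nn x y t) * lUT mu nu c0 h k x y t := by
      funext t; unfold WT; rw [eX y hy, eT y hy, eY y hy, e1 y hy, e2 y hy, eN y hy]
    rw [this]; exact HT.deriv
  rw [d1, d2, d3, eV, eU y hy]
  exact H

end

end Pool.Agent.Helper25.SE
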