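import Mathlib

set_option autoImplicit false

open Real Set Filter Topology
open scoped ContDiff

namespace Pool.Agent.Helper25.SE

noncomputable section

/-- normal form exp g * (A cos p + B sin p + C cos m + D sin m) -/
def T (g p m A B C D : ℝ) : ℝ :=
  Real.exp g * (A * Real.cos p + B * Real.sin p + C * Real.cos m + D * Real.sin m)

theorem T_has {g p m A B C D : ℝ → ℝ} {g' p' m' A' B' C' D' s : ℝ}
    (hg : HasDerivAt g g' s) (hp : HasDerivAt p p' s) (hm : HasDerivAt m m' s)
    (hA : HasDerivAt A A' s) (hB : HasDerivAt B B' s)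
    (hC : HasDerivAt C C' s) (hD : HasDerivAt D D' s) :
    HasDerivAt (fun s => T (g s) (p s) (m s) (A s) (B s) (C s) (D s))
      (T (g s) (p s) (m s) (g' * A s + A' + p' * B s) (g' * B s + B' - p' * A s)
        (g' * C s + C' + m' * D s) (g' * D s + D' - m' * C s)) s := by
  have h1 := hg.exp.mul ((((hA.mul hp.cos).add (hB.mul hp.sin)).add (hC.mul hm.cos)).add
    (hD.mul hm.sin))
  unfold T
  have e : Real.exp (g s) * ((g' * A s + A' + p' * B s) * Real.cos (p s)
        + (g' * B s + B' - p' * A s) * Real.sin (p s)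
        + (g' * C s + C' + m' * D s) * Real.cos (m s)
        + (g' * D s + D' - m' * C s) * Real.sin (m s))
      = Real.exp (g s) * g' * (A s * Real.cos (p s) + B s * Real.sin (p s)
          + C s * Real.cos (m s) + D s * Real.sin (m s))
        + Real.exp (g s) * (A' * Real.cos (p s) + A s * (-Real.sin (p s) * p')
          + (B' * Real.sin (p s) + B s * (Real.cos (p s) * p'))
          + (C' * Real.cos (m s) + C s * (-Real.sin (m s) * m'))
          + (D' * Real.sin (m s) + D s * (Real.cos (m s) * m'))) := by ring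
  rw [e]; exact h1

/-- exponent -/
def gE (mu c0 x y : ℝ) : ℝ := -(π / 2) * x ^ 2 + π / 2 * y ^ 2 - 2 * π * mu * y + c0
def pE (mu nu x y t : ℝ) : ℝ := -(π * x * y) + 2 * π * mu * x + (t + nu * x)
def mE (mu nu x y t : ℝ) : ℝ := -(π * x * y) + 2 * π * mu * x - (t + nu * x)

theorem gE_x (mu c0 x y : ℝ) : HasDerivAt (fun x => gE mu c0 x y) (-(π * x)) x := by
  have h := (((((hasDerivAt_id x).pow 2).const_mul (-(π / 2))).add_const (π / 2 * y ^ 2)).sub_const
    (2 * π * mu * y)).add_const c0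
  have e : -(π * x) = -(π / 2) * (((2 : ℕ) : ℝ) * (id x) ^ (2 - 1) * 1) := by
    simp; ring
  rw [e]; exact h

theorem gE_y (mu c0 x y : ℝ) : HasDerivAt (fun y => gE mu c0 x y) (π * y - 2 * π * mu) y := by
  have h := (((((hasDerivAt_id y).pow 2).const_mul (π / 2)).const_add (-(π / 2) * x ^ 2)).sub
    ((hasDerivAt_id y).const_mul (2 * π * mu))).add_const c0
  have e : π * y - 2 * π * mu = π / 2 * (((2 : ℕ) : ℝ) * (id y) ^ (2 - 1) * 1)
      - 2 * π * mu * 1 := by
    simp; ring
  rw [e]; exact h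

theorem pE_x (mu nu x y t : ℝ) :
    HasDerivAt (fun x => pE mu nu x y t) (-(π * y) + 2 * π * mu + nu) x := by
  have h : HasDerivAt (fun x => (-(π * y) + 2 * π * mu + nu) * x + t)
      ((-(π * y) + 2 * π * mu + nu) * 1) x := ((hasDerivAt_id x).const_mul _).add_const t
  have e : (fun x => pE mu nu x y t) = fun x => (-(π * y) + 2 * π * mu + nu) * x + t := by
    funext x; unfold pE; ring
  rw [e]; simpa using h

theorem mE_x (mu nu x y t : ℝ) :
    HasDerivAt (fun x => mE mu nu x y t) (-(π * y) + 2 * π * mu - nu) x := by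
  have h : HasDerivAt (fun x => (-(π * y) + 2 * π * mu - nu) * x + (-t))
      ((-(π * y) + 2 * π * mu - nu) * 1) x := ((hasDerivAt_id x).const_mul _).add_const (-t)
  have e : (fun x => mE mu nu x y t) = fun x => (-(π * y) + 2 * π * mu - nu) * x + (-t) := by
    funext x; unfold mE; ring
  rw [e]; simpa using h

theorem pE_y (mu nu x y t : ℝ) : HasDerivAt (fun y => pE mu nu x y t) (-(π * x)) y := by
  have h : HasDerivAt (fun y => (-(π * x)) * y + (2 * π * mu * x + (t + nu * x)))
      ((-(π * x)) * 1) y := ((hasDerivAt_id y).const_mul _).add_const _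
  have e : (fun y => pE mu nu x y t)
      = fun y => (-(π * x)) * y + (2 * π * mu * x + (t + nu * x)) := by
    funext y; unfold pE; ring
  rw [e]; simpa using h

theorem mE_y (mu nu x y t : ℝ) : HasDerivAt (fun y => mE mu nu x y t) (-(π * x)) y := by
  have h : HasDerivAt (fun y => (-(π * x)) * y + (2 * π * mu * x - (t + nu * x)))
      ((-(π * x)) * 1) y := ((hasDerivAt_id y).const_mul _).add_const _
  have e : (fun y => mE mu nu x y t)
      = fun y => (-(π * x)) * y + (2 * π * mu * x - (t + nu * x)) := by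
    funext y; unfold mE; ring
  rw [e]; simpa using h

theorem pE_t (mu nu x y t : ℝ) : HasDerivAt (fun t => pE mu nu x y t) 1 t := by
  have h : HasDerivAt (fun t => t + (-(π * x * y) + 2 * π * mu * x + nu * x)) 1 t :=
    (hasDerivAt_id t).add_const _
  have e : (fun t => pE mu nu x y t)
      = fun t => t + (-(π * x * y) + 2 * π * mu * x + nu * x) := by
    funext t; unfold pE; ring
  rw [e]; exact h

theorem mE_t (mu nu x y t : ℝ) : HasDerivAt (fun t => mE mu nu x y t) (-1) t := by
  have h : HasDerivAt (fun t => -t + (-(π * x * y) + 2 * π * mu * x - nu * x)) (-1) t :=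
    (hasDerivAt_neg t).add_const _
  have e : (fun t => mE mu nu x y t)
      = fun t => -t + (-(π * x * y) + 2 * π * mu * x - nu * x) := by
    funext t; unfold mE; ring
  rw [e]; exact h

/-- local solution and its first derivatives -/
def lT (mu nu c0 x y t A B C D : ℝ) : ℝ := T (gE mu c0 x y) (pE mu nu x y t) (mE mu nu x y t) A B C D

def lam2 (mu y : ℝ) : ℝ := -(π * y) + 2 * π * mu

def lU (mu nu c0 : ℝ) (h k : ℝ → ℝ) (x y t : ℝ) : ℝ := lT mu nu c0 x y t (h y) 0 (k y) 0
def lUX (mu nu c0 : ℝ) (h k : ℝ → ℝ) (x y t : ℝ) : ℝ :=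
  lT mu nu c0 x y t (-(π * x) * h y) (-((lam2 mu y + nu) * h y)) (-(π * x) * k y)
    (-((lam2 mu y - nu) * k y))
def lUY (mu nu c0 : ℝ) (h k h1 k1 : ℝ → ℝ) (x y t : ℝ) : ℝ :=
  lT mu nu c0 x y t (-(lam2 mu y) * h y + h1 y) (π * x * h y) (-(lam2 mu y) * k y + k1 y)
    (π * x * k y)
def lUT (mu nu c0 : ℝ) (h k : ℝ → ℝ) (x y t : ℝ) : ℝ := lT mu nu c0 x y t 0 (-(h y)) 0 (k y)

section
variable (mu nu c0 : ℝ) (h k h1 k1 : ℝ → ℝ) (x y t : ℝ)

theorem T_congr {g p m A B C D A' B' C' D' : ℝ} (h1 : A = A') (h2 : B = B') (h3 : C = C')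
    (h4 : D = D') : T g p m A B C D = T g p m A' B' C' D' := by rw [h1, h2, h3, h4]

theorem lU_x : HasDerivAt (fun x => lU mu nu c0 h k x y t) (lUX mu nu c0 h k x y t) x := by
  have H := T_has (gE_x mu c0 x y) (pE_x mu nu x y t) (mE_x mu nu x y t)
    (hasDerivAt_const x (h y)) (hasDerivAt_const x 0) (hasDerivAt_const x (k y))
    (hasDerivAt_const x 0)
  have e : lUX mu nu c0 h k x y t = _ := T_congr (g := gE mu c0 x y) (p := pE mu nu x y t)
    (m := mE mu nu x y t)
    (show -(π * x) * h y = -(π * x) * h y + 0 + (-(π * y) + 2 * π * mu + nu) * 0 by ring)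
    (show -((lam2 mu y + nu) * h y) = -(π * x) * 0 + 0 - (-(π * y) + 2 * π * mu + nu) * h y by
      unfold lam2; ring)
    (show -(π * x) * k y = -(π * x) * k y + 0 + (-(π * y) + 2 * π * mu - nu) * 0 by ring)
    (show -((lam2 mu y - nu) * k y) = -(π * x) * 0 + 0 - (-(π * y) + 2 * π * mu - nu) * k y by
      unfold lam2; ring)
  rw [e]; exact H

theorem lU_t : HasDerivAt (fun t => lU mu nu c0 h k x y t) (lUT mu nu c0 h k x y t) t := by
  have H := T_has (hasDerivAt_const t (gE mu c0 x y)) (pE_t mu nu x y t) (mE_t mu nu x y t)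
    (hasDerivAt_const t (h y)) (hasDerivAt_const t 0) (hasDerivAt_const t (k y))
    (hasDerivAt_const t 0)
  have e : lUT mu nu c0 h k x y t = _ := T_congr (g := gE mu c0 x y) (p := pE mu nu x y t)
    (m := mE mu nu x y t)
    (show (0 : ℝ) = 0 * h y + 0 + 1 * 0 by ring)
    (show -(h y) = 0 * 0 + 0 - 1 * h y by ring)
    (show (0 : ℝ) = 0 * k y + 0 + (-1) * 0 by ring)
    (show k y = 0 * 0 + 0 - (-1) * k y by ring)
  rw [e]; exact H

theorem lU_y (hh : HasDerivAt h (h1 y) y) (hk : HasDerivAt k (k1 y) y) :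
    HasDerivAt (fun y => lU mu nu c0 h k x y t) (lUY mu nu c0 h k h1 k1 x y t) y := by
  have H := T_has (gE_y mu c0 x y) (pE_y mu nu x y t) (mE_y mu nu x y t)
    hh (hasDerivAt_const y 0) hk (hasDerivAt_const y 0)
  have e : lUY mu nu c0 h k h1 k1 x y t = _ := T_congr (g := gE mu c0 x y)
    (p := pE mu nu x y t) (m := mE mu nu x y t)
    (show -(lam2 mu y) * h y + h1 y = (π * y - 2 * π * mu) * h y + h1 y + -(π * x) * 0 by
      unfold lam2; ring)
    (show π * x * h y = (π * y - 2 * π * mu) * 0 + 0 - -(π * x) * h y by ring)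
    (show -(lam2 mu y) * k y + k1 y = (π * y - 2 * π * mu) * k y + k1 y + -(π * x) * 0 by
      unfold lam2; ring)
    (show π * x * k y = (π * y - 2 * π * mu) * 0 + 0 - -(π * x) * k y by ring)
  rw [e]; exact H

end

end

end Pool.Agent.Helper25.SE
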