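import Pool.Agent.Helper25.SE.Core

set_option autoImplicit false

open Real Set Filter Topology MeasureTheory
open scoped ContDiff

namespace Pool.Agent.Helper25.SE

noncomputable section

def SS (y : ℝ) : ℝ := Real.smoothTransition (1 / 2 - Real.cos (2 * π * y))
def aa (y : ℝ) : ℝ := 1 - (2 + π) * SS y
def aa1 (y : ℝ) : ℝ := deriv aa y
def sg (y : ℝ) : ℝ := 1 - 2 * Real.smoothTransition (1 / 2 + 3 / 2 * Real.sin (2 * π * y))
def tau (y : ℝ) : ℝ := sg y * aa1 y
def Phi (y : ℝ) : ℝ := ∫ s in (0 : ℝ)..y, aa s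

theorem SS_cd : ContDiff ℝ ∞ SS := by
  unfold SS
  exact Real.smoothTransition.contDiff.comp (by fun_prop)
theorem aa_cd : ContDiff ℝ ∞ aa := contDiff_const.sub (contDiff_const.mul SS_cd)
theorem aa1_cd : ContDiff ℝ ∞ aa1 := cd_deriv aa_cd
theorem sg_cd : ContDiff ℝ ∞ sg := by
  unfold sg
  exact contDiff_const.sub (contDiff_const.mul
    (Real.smoothTransition.contDiff.comp (by fun_prop)))
theorem tau_cd : ContDiff ℝ ∞ tau := sg_cd.mul aa1_cd

theorem cos_ge {y : ℝ} (h : |y| ≤ 1/6) : 1/2 ≤ Real.cos (2 * π * y) := by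
  have h1 : Real.cos (π / 3) ≤ Real.cos (2 * π * |y|) := by
    apply Real.cos_le_cos_of_nonneg_of_le_pi
    · positivity
    · linarith [Real.pi_pos]
    · nlinarith [Real.pi_pos]
  rw [Real.cos_pi_div_three] at h1
  have h2 : Real.cos (2 * π * |y|) = Real.cos (2 * π * y) := by
    rcases abs_choice y with e | e
    · rw [e]
    · rw [e, show 2 * π * -y = -(2 * π * y) by ring, Real.cos_neg]
  linarith

theorem SS_zero {y : ℝ} (h : |y| ≤ 1/6) : SS y = 0 :=
  Real.smoothTransition.zero_of_nonpos (by linarith [cos_ge h])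

theorem cos_half (y : ℝ) : Real.cos (2 * π * (1/2 - y)) = - Real.cos (2 * π * y) := by
  rw [show 2 * π * (1/2 - y) = π - 2 * π * y by ring, Real.cos_pi_sub]

theorem sin_half (y : ℝ) : Real.sin (2 * π * (1/2 - y)) = Real.sin (2 * π * y) := by
  rw [show 2 * π * (1/2 - y) = π - 2 * π * y by ring, Real.sin_pi_sub]

theorem SS_one {y : ℝ} (h : |y| ≤ 1/6) : SS (1/2 - y) = 1 := by
  apply Real.smoothTransition.one_of_one_le
  rw [cos_half]; linarith [cos_ge h]

theorem aa_in {y : ℝ} (h : |y| ≤ 1/6) : aa y = 1 := by unfold aa; rw [SS_zero h]; ring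
theorem aa_half {y : ℝ} (h : |y| ≤ 1/6) : aa (1/2 - y) = -1 - π := by
  unfold aa; rw [SS_one h]; ring

theorem SS_neg (y : ℝ) : SS (-y) = SS y := by
  unfold SS; rw [show 2 * π * -y = -(2 * π * y) by ring, Real.cos_neg]
theorem SS_per (y : ℝ) : SS (y + 1) = SS y := by
  unfold SS; rw [show 2 * π * (y + 1) = 2 * π * y + 2 * π by ring, Real.cos_add_two_pi]
theorem aa_neg (y : ℝ) : aa (-y) = aa y := by unfold aa; rw [SS_neg]
theorem aa_per (y : ℝ) : aa (y + 1) = aa y := by unfold aa; rw [SS_per]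
theorem aa1_per (y : ℝ) : aa1 (y + 1) = aa1 y := by
  have h : (fun y => aa (y + 1)) = aa := funext aa_per
  unfold aa1
  have := deriv_comp_add_const aa 1 y
  rw [h] at this
  exact this.symm
theorem sg_per (y : ℝ) : sg (y + 1) = sg y := by
  unfold sg; rw [show 2 * π * (y + 1) = 2 * π * y + 2 * π by ring, Real.sin_add_two_pi]
theorem tau_per (y : ℝ) : tau (y + 1) = tau y := by unfold tau; rw [aa1_per, sg_per]

theorem aa1_in {y : ℝ} (h : |y| < 1/6) : aa1 y = 0 := by
  have e : aa =ᶠ[𝓝 y] fun _ => (1 : ℝ) := by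
    have ho : IsOpen {z : ℝ | |z| < 1/6} := isOpen_lt continuous_abs continuous_const
    filter_upwards [ho.mem_nhds h] with z hz
    exact aa_in (le_of_lt hz)
  unfold aa1
  rw [e.deriv_eq]; simp

theorem aa1_half {y : ℝ} (h : |y| < 1/6) : aa1 (1/2 - y) = 0 := by
  have e : aa =ᶠ[𝓝 (1/2 - y)] fun _ => (-1 - π : ℝ) := by
    have ho : IsOpen {z : ℝ | |1/2 - z| < 1/6} :=
      isOpen_lt (by fun_prop) continuous_const
    have hm : (1/2 - y) ∈ {z : ℝ | |1/2 - z| < 1/6} := by
      show |1/2 - (1/2 - y)| < 1/6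
      rw [show (1:ℝ)/2 - (1/2 - y) = y by ring]; exact h
    filter_upwards [ho.mem_nhds hm] with z hz
    have := aa_half (y := 1/2 - z) (le_of_lt hz)
    rw [show (1:ℝ)/2 - (1/2 - z) = z by ring] at this
    exact this
  unfold aa1
  rw [e.deriv_eq]; simp

theorem sin_ge {x : ℝ} (h1 : 1/12 ≤ x) (h2 : x ≤ 5/12) : 1/3 ≤ Real.sin (2 * π * x) := by
  have hp := Real.pi_pos
  rcases le_total x (1/4) with h | h
  · have := Real.mul_le_sin (x := 2 * π * x) (by nlinarith) (by nlinarith)
    have e : 2 / π * (2 * π * x) = 4 * x := by field_simp; ring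
    rw [e] at this; linarith
  · have := Real.mul_le_sin (x := 2 * π * (1/2 - x)) (by nlinarith) (by nlinarith)
    have e : 2 / π * (2 * π * (1/2 - x)) = 4 * (1/2 - x) := by field_simp; ring
    rw [e, sin_half] at this; linarith

theorem sg_pos {y : ℝ} (h1 : -5/12 ≤ y) (h2 : y ≤ -1/12) : sg y = 1 := by
  have h := sin_ge (x := -y) (by linarith) (by linarith)
  rw [show 2 * π * -y = -(2 * π * y) by ring, Real.sin_neg] at h
  unfold sg
  rw [Real.smoothTransition.zero_of_nonpos (by linarith)]; ring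

theorem sg_neg {y : ℝ} (h1 : 1/12 ≤ y) (h2 : y ≤ 5/12) : sg y = -1 := by
  have h := sin_ge h1 h2
  unfold sg
  rw [Real.smoothTransition.one_of_one_le (by linarith)]; ring

theorem sg_half (y : ℝ) : sg (1/2 - y) = sg y := by unfold sg; rw [sin_half]

theorem Phi_has (y : ℝ) : HasDerivAt Phi (aa y) y := by
  have hc : Continuous aa := aa_cd.continuous
  exact intervalIntegral.integral_hasDerivAt_right (hc.intervalIntegrable _ _)
    hc.stronglyMeasurable.stronglyMeasurableAtFilter hc.continuousAt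

theorem Phi_cd : ContDiff ℝ ∞ Phi := by
  rw [contDiff_infty_iff_deriv]
  refine ⟨fun y => (Phi_has y).differentiableAt, ?_⟩
  have : deriv Phi = aa := funext fun y => (Phi_has y).deriv
  rw [this]; exact aa_cd

theorem Phi_zero : Phi 0 = 0 := by unfold Phi; simp

theorem const_of_has {f : ℝ → ℝ} (h : ∀ y, HasDerivAt f 0 y) (x y : ℝ) : f x = f y :=
  is_const_of_deriv_eq_zero (fun y => (h y).differentiableAt) (fun y => (h y).deriv) x y

theorem Phi_odd (y : ℝ) : Phi (-y) = - Phi y := by
  have h : ∀ z, HasDerivAt (fun z => Phi (-z) + Phi z) 0 z := by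
    intro z
    have h1 := (has_neg (Phi_has (-z))).add (Phi_has z)
    have e : (0 : ℝ) = -(aa (-z)) + aa z := by rw [aa_neg]; ring
    rw [e]; exact h1
  have := const_of_has h y 0
  simp only [neg_zero, Phi_zero, add_zero] at this
  linarith

theorem Phi_sub_one (y : ℝ) : Phi (y - 1) = Phi y - 2 * Phi (1/2) := by
  have h : ∀ z, HasDerivAt (fun z => Phi (z - 1) - Phi z) 0 z := by
    intro z
    have h0 : HasDerivAt (fun z => Phi (z - 1)) (aa (z - 1)) z :=
      (Phi_has (z - 1)).comp_sub_const z 1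
    have h1 := h0.sub (Phi_has z)
    have e : (0 : ℝ) = aa (z - 1) - aa z := by
      have := aa_per (z - 1)
      rw [show z - 1 + 1 = z by ring] at this
      rw [this]; ring
    rw [e]; exact h1
  have := const_of_has h y (1/2)
  rw [show (1/2 : ℝ) - 1 = -(1/2) by norm_num, Phi_odd] at this
  linarith

theorem Phi_in {y : ℝ} (h : |y| ≤ 1/6) : Phi y = y := by
  unfold Phi
  have : ∫ s in (0 : ℝ)..y, aa s = ∫ s in (0 : ℝ)..y, (1 : ℝ) := by
    apply intervalIntegral.integral_congr
    intro s hs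
    apply aa_in
    have h1 := abs_le.1 h
    rcases Set.mem_uIcc.1 hs with ⟨a, b⟩ | ⟨a, b⟩
    · exact abs_le.2 ⟨by linarith, by linarith⟩
    · exact abs_le.2 ⟨by linarith, by linarith⟩
  rw [this]; simp

def PII (s : ℝ) : ℝ := -(π * s) + Phi (1/2 - s) - Phi (1/2)
def aII (s : ℝ) : ℝ := -π - aa (1/2 - s)
def aII1 (s : ℝ) : ℝ := aa1 (1/2 - s)
def tII (s : ℝ) : ℝ := tau (1/2 - s)

theorem has_half {f : ℝ → ℝ} {f' s : ℝ} (h : HasDerivAt f f' (1/2 - s)) :
    HasDerivAt (fun s => f (1/2 - s)) (-f') s := by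
  have h2 : HasDerivAt (fun s : ℝ => 1/2 - s) (-1) s := (hasDerivAt_id s).const_sub (1/2)
  have := HasDerivAt.comp s h h2
  have e : -f' = f' * -1 := by ring
  rw [e]; exact this

theorem PII_has (s : ℝ) : HasDerivAt PII (aII s) s := by
  have h1 : HasDerivAt (fun s : ℝ => -(π * s)) (-(π * 1)) s :=
    ((hasDerivAt_id s).const_mul π).neg
  have h2 := (h1.add (has_half (Phi_has (1/2 - s)))).sub_const (Phi (1/2))
  have e : aII s = -(π * 1) + -(aa (1/2 - s)) := by unfold aII; ring
  rw [e]; exact h2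

theorem PII_in {s : ℝ} (h : |s| ≤ 1/6) : PII s = s := by
  have h0 : Phi (1/2 - s) - Phi (1/2) = (1 + π) * s := by
    unfold Phi
    have hc : Continuous aa := aa_cd.continuous
    rw [intervalIntegral.integral_interval_sub_left (hc.intervalIntegrable _ _)
      (hc.intervalIntegrable _ _)]
    have : ∫ r in (1/2 : ℝ)..(1/2 - s), aa r = ∫ r in (1/2 : ℝ)..(1/2 - s), (-1 - π : ℝ) := by
      apply intervalIntegral.integral_congr
      intro r hr
      have h1 := abs_le.1 h
      have : |1/2 - r| ≤ 1/6 := by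
        rcases Set.mem_uIcc.1 hr with ⟨a, b⟩ | ⟨a, b⟩
        · exact abs_le.2 ⟨by linarith, by linarith⟩
        · exact abs_le.2 ⟨by linarith, by linarith⟩
      have := aa_half this
      rw [show (1:ℝ)/2 - (1/2 - r) = r by ring] at this
      exact this
    rw [this, intervalIntegral.integral_const, smul_eq_mul]
    ring
  unfold PII
  linear_combination h0

theorem coreI : Core Phi aa aa1 tau where
  hP := Phi_has
  ha := fun s => cd_has aa_cd s
  P1 := fun s h => Phi_in h
  a1 := fun s h => aa_in h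
  t1 := by
    intro s h1 h2
    have h3 := abs_lt.1 h1
    rcases le_or_gt s (-1/12) with h | h
    · unfold tau; rw [sg_pos (by linarith) h]; ring
    · have : aa1 s = 0 := aa1_in (abs_lt.2 ⟨by linarith, h2⟩)
      unfold tau; rw [this]; ring
  t2 := by
    intro s h1 h2
    have h3 := abs_lt.1 h1
    rcases le_or_gt (1/12) s with h | h
    · unfold tau; rw [sg_neg h (by linarith)]; ring
    · have : aa1 s = 0 := aa1_in (abs_lt.2 ⟨by linarith, by linarith⟩)
      unfold tau; rw [this]; ring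

theorem coreII : Core PII aII aII1 tII where
  hP := PII_has
  ha := by
    intro s
    have h := (has_half (cd_has aa_cd (1/2 - s))).const_sub (-π)
    have e : aII1 s = -(-(deriv aa (1/2 - s))) := by unfold aII1 aa1; ring
    rw [e]; exact h
  P1 := fun s h => PII_in h
  a1 := by
    intro s h
    unfold aII; rw [aa_half h]; ring
  t1 := by
    intro s h1 h2
    have h3 := abs_lt.1 h1
    unfold tII aII1 tau
    rcases le_or_gt s (-1/12) with h | h
    · rw [sg_half, sg_pos (by linarith) h]; ring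
    · rw [aa1_half (abs_lt.2 ⟨by linarith, h2⟩)]; ring
  t2 := by
    intro s h1 h2
    have h3 := abs_lt.1 h1
    unfold tII aII1 tau
    rcases le_or_gt (1/12) s with h | h
    · rw [sg_half, sg_neg h (by linarith)]; ring
    · rw [aa1_half (abs_lt.2 ⟨by linarith, by linarith⟩)]; ring

end

end Pool.Agent.Helper25.SE
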