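import Pool.Agent.Helper25.SE.One

set_option autoImplicit false

open Real Set Filter Topology MeasureTheory
open scoped ContDiff

namespace Pool.Agent.Helper25.SE

noncomputable section

/-- 1-periodization -/
def per (f : ℝ → ℝ) (y : ℝ) : ℝ := ∑' n : ℤ, f (y - n)

def Sup (f : ℝ → ℝ) : Prop := ∀ s, 1/6 < |s| → f s = 0

theorem int_abs {m n : ℤ} (h : m ≠ n) : (1 : ℝ) ≤ |(m : ℝ) - n| := by
  have h1 : (1 : ℤ) ≤ |m - n| := Int.one_le_abs (sub_ne_zero.2 h)
  have h2 : ((1 : ℤ) : ℝ) ≤ ((|m - n| : ℤ) : ℝ) := by exact_mod_cast h1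
  push_cast at h2
  exact h2

theorem per_eq {f : ℝ → ℝ} (hf : Sup f) (n : ℤ) {y : ℝ} (h : |y - n| < 3/4) :
    per f y = f (y - n) := by
  unfold per
  apply tsum_eq_single n
  intro m hm
  apply hf
  have h1 := int_abs hm
  have h2 : |(m : ℝ) - n| ≤ |y - m| + |y - n| := by
    have : (m : ℝ) - n = -(y - m) + (y - n) := by ring
    rw [this]
    exact (abs_add_le _ _).trans (by rw [abs_neg])
  linarith

theorem per_zero {f : ℝ → ℝ} (hf : Sup f) {y : ℝ} (h : ∀ m : ℤ, 1/6 < |y - m|) :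
    per f y = 0 := by
  unfold per
  have : (fun n : ℤ => f (y - n)) = fun _ => 0 := funext fun m => hf _ (h m)
  rw [this, tsum_zero]

theorem per_add_one (f : ℝ → ℝ) (y : ℝ) : per f (y + 1) = per f y := by
  unfold per
  rw [← (Equiv.addRight (1 : ℤ)).tsum_eq]
  congr 1
  funext n
  simp only [Equiv.coe_addRight]
  push_cast
  congr 1; ring

theorem round_near (y : ℝ) : |y - (round y : ℤ)| < 3/4 :=
  lt_of_le_of_lt (abs_sub_round y) (by norm_num)

theorem per_cd {f : ℝ → ℝ} (hf : Sup f) (hc : ContDiff ℝ ∞ f) : ContDiff ℝ ∞ (per f) := by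
  rw [contDiff_iff_contDiffAt]
  intro y
  have e : per f =ᶠ[𝓝 y] fun z => f (z - (round y : ℤ)) := by
    have ho : IsOpen {z : ℝ | |z - (round y : ℤ)| < 3/4} :=
      isOpen_lt (by fun_prop) continuous_const
    filter_upwards [ho.mem_nhds (round_near y)] with z hz
    exact per_eq hf _ hz
  refine ContDiffAt.congr_of_eventuallyEq ?_ e
  exact (hc.comp (contDiff_id.sub contDiff_const)).contDiffAt

theorem per_bdd {f : ℝ → ℝ} (hf : Sup f) (hc : ContDiff ℝ ∞ f) :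
    ∃ C : ℝ, ∀ y, |per f y| ≤ C := by
  obtain ⟨C, hC⟩ := (isCompact_Icc (a := (-1 : ℝ)) (b := 1)).exists_bound_of_continuousOn
    hc.continuous.continuousOn
  refine ⟨C, fun y => ?_⟩
  rw [per_eq hf _ (round_near y)]
  have h := abs_le.1 (round_near y).le
  have := hC (y - (round y : ℤ)) ⟨by linarith [h.1], by linarith [h.2]⟩
  simpa using this

def fe (s : ℝ) : ℝ := be s + be (-s)
def fo (s : ℝ) : ℝ := be s - be (-s)
def He (s : ℝ) : ℝ := HH s + HH (-s)
def Xe (s : ℝ) : ℝ := XX s + XX (-s)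
def n0 (s : ℝ) : ℝ := He s / 2 - 2 * (be1 s + be1 (-s))
def nh (s : ℝ) : ℝ := He s / 2 + 4 * π * fe s - 2 * (be1 s + be1 (-s))

theorem comp_neg_cd {f : ℝ → ℝ} (h : ContDiff ℝ ∞ f) : ContDiff ℝ ∞ fun s => f (-s) :=
  h.comp contDiff_neg

theorem fe_cd : ContDiff ℝ ∞ fe := be_cd.add (comp_neg_cd be_cd)
theorem fo_cd : ContDiff ℝ ∞ fo := be_cd.sub (comp_neg_cd be_cd)
theorem He_cd : ContDiff ℝ ∞ He := HH_cd.add (comp_neg_cd HH_cd)
theorem Xe_cd : ContDiff ℝ ∞ Xe := XX_cd.add (comp_neg_cd XX_cd)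
theorem n0_cd : ContDiff ℝ ∞ n0 :=
  (He_cd.div_const 2).sub (contDiff_const.mul (be1_cd.add (comp_neg_cd be1_cd)))
theorem nh_cd : ContDiff ℝ ∞ nh :=
  ((He_cd.div_const 2).add (contDiff_const.mul fe_cd)).sub
    (contDiff_const.mul (be1_cd.add (comp_neg_cd be1_cd)))

/-- a function which vanishes outside the zone, and its reflection, vanish for |s| > 1/6 -/
theorem zone_out {f : ℝ → ℝ} (h1 : ∀ {y : ℝ}, y < -1/6 → f y = 0)
    (h2 : ∀ {y : ℝ}, -1/12 < y → f y = 0) {s : ℝ} (hs : 1/6 < |s|) : f s = 0 ∧ f (-s) = 0 := by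
  rcases lt_or_ge s 0 with h | h
  · rw [abs_of_neg h] at hs
    exact ⟨h1 (by linarith), h2 (by linarith)⟩
  · rw [abs_of_nonneg h] at hs
    exact ⟨h2 (by linarith), h1 (by linarith)⟩

theorem fe_sup : Sup fe := fun s hs => by
  obtain ⟨a, b⟩ := zone_out be_lt be_gt hs
  unfold fe; rw [a, b]; ring
theorem fo_sup : Sup fo := fun s hs => by
  obtain ⟨a, b⟩ := zone_out be_lt be_gt hs
  unfold fo; rw [a, b]; ring
theorem He_sup : Sup He := fun s hs => by
  obtain ⟨a, b⟩ := zone_out HH_lt HH_gt hs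
  unfold He; rw [a, b]; ring
theorem Xe_sup : Sup Xe := fun s hs => by
  obtain ⟨a, b⟩ := zone_out XX_lt XX_gt hs
  unfold Xe; rw [a, b]; ring
theorem n0_sup : Sup n0 := fun s hs => by
  obtain ⟨a, b⟩ := zone_out be1_lt be1_gt hs
  unfold n0; rw [a, b, He_sup s hs]; ring
theorem nh_sup : Sup nh := fun s hs => by
  obtain ⟨a, b⟩ := zone_out be1_lt be1_gt hs
  unfold nh; rw [a, b, He_sup s hs, fe_sup s hs]; ring

/-- in the first region the shifted periodizations vanish -/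
theorem regI_zero {f : ℝ → ℝ} (hf : Sup f) {n : ℤ} {y : ℝ} (h : |y - n| < 1/3) :
    per f (y - 1/2) = 0 := by
  apply per_zero hf
  intro m
  have h1 := abs_lt.1 h
  rcases lt_or_ge m n with hm | hm
  · have : (m : ℝ) ≤ n - 1 := by
      have : m ≤ n - 1 := by omega
      exact_mod_cast this
    rw [lt_abs]; left; linarith [h1.1]
  · have : (n : ℝ) ≤ m := by exact_mod_cast hm
    rw [lt_abs]; right; linarith [h1.2]

theorem regII_zero {f : ℝ → ℝ} (hf : Sup f) {n : ℤ} {y : ℝ} (h : |y - n - 1/2| < 1/3) :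
    per f y = 0 := by
  apply per_zero hf
  intro m
  have h1 := abs_lt.1 h
  rcases le_or_gt m n with hm | hm
  · have : (m : ℝ) ≤ n := by exact_mod_cast hm
    rw [lt_abs]; left; linarith [h1.1]
  · have : (n : ℝ) + 1 ≤ m := by exact_mod_cast hm
    rw [lt_abs]; right; linarith [h1.2]

theorem cover (y : ℝ) : ∃ n : ℤ, |y - n| < 1/3 ∨ |y - n - 1/2| < 1/3 := by
  rcases lt_or_ge (Int.fract y) (1/3) with h | h
  · refine ⟨⌊y⌋, Or.inl ?_⟩
    have h0 := Int.fract_nonneg y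
    unfold Int.fract at h h0
    rw [abs_of_nonneg h0]; exact h
  rcases lt_or_ge (Int.fract y) (3/4) with h' | h'
  · refine ⟨⌊y⌋, Or.inr ?_⟩
    unfold Int.fract at h h'
    exact abs_lt.2 ⟨by linarith, by linarith⟩
  · refine ⟨⌊y⌋ + 1, Or.inl ?_⟩
    have h1 := Int.fract_lt_one y
    unfold Int.fract at h' h1
    push_cast
    exact abs_lt.2 ⟨by linarith, by linarith⟩

end

end Pool.Agent.Helper25.SE
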