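import Pool.Agent.Helper25.SE.Tr

set_option autoImplicit false

open Real Set Filter Topology
open scoped ContDiff

namespace Pool.Agent.Helper25.SE

noncomputable section

section
variable {m : ℕ}

theorem sum3 (f : Fin (m + 3) → ℝ) :
    ∑ i, f i = f 0 + f 1 + f 2 + ∑ k : Fin m, f k.succ.succ.succ := by
  rw [Fin.sum_univ_succ, Fin.sum_univ_succ, Fin.sum_univ_succ]
  have h1 : (0 : Fin (m + 2)).succ = (1 : Fin (m + 3)) := by
    apply Fin.ext; rw [v1]; rfl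
  have h2 : (0 : Fin (m + 1)).succ.succ = (2 : Fin (m + 3)) := by
    apply Fin.ext; rw [v2]; rfl
  rw [h1, h2]; ring

theorem v3 (k : Fin m) : (k.succ.succ.succ : Fin (m + 3)).val = k.val + 3 := by simp

theorem rr0 : rr 0 = 1 := rfl
theorem rr1 : rr 1 = 1 := rfl
theorem rr2 : rr 2 = 1 / (2 * π) := rfl

variable (N : ℝ) (a : ℕ → ℕ → ℝ → ℝ → ℝ → ℝ) (V U : ℝ → ℝ → ℝ → ℝ) {lam : ℝ}

theorem AA_lt {i j : Fin (m + 3)} (hi : i.val < 3) (hj : j.val < 3) (x : Fin (m + 3) → ℝ) :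
    AA N a i j x = rr i.val * rr j.val * Li N (a i.val j.val) x := by
  unfold AA; rw [if_pos ⟨hi, hj⟩]

theorem AA_ge {i j : Fin (m + 3)} (h : 3 ≤ i.val ∨ 3 ≤ j.val) (x : Fin (m + 3) → ℝ) :
    AA N a i j x = if i = j then 1 else 0 := by
  unfold AA; rw [if_neg]; omega

theorem AA_sm (E : Ex a V U lam) (i j : Fin (m + 3)) : ContDiff ℝ ∞ (AA N a i j) := by
  by_cases h : i.val < 3 ∧ j.val < 3
  · have e : AA N a i j = fun x => rr i.val * rr j.val * Li N (a i.val j.val) x :=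
      funext fun x => AA_lt N a h.1 h.2 x
    rw [e]
    exact contDiff_const.mul (Li_sm N (E.sa _ h.1 _ h.2))
  · have e : AA N a i j = fun _ => (if i = j then 1 else 0 : ℝ) :=
      funext fun x => AA_ge N a (by omega) x
    rw [e]; exact contDiff_const

theorem int_shift {f : ℝ → ℝ} {c : ℝ} (h : ∀ z, f (z + c) = f z) (n : ℤ) (z : ℝ) :
    f (z + n * c) = f z := by
  have hp : Function.Periodic f c := h
  exact hp.int_mul n z

theorem Li_per {F : ℝ → ℝ → ℝ → ℝ} (hx : ∀ x y t, F (x + 1) y t = F x y t)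
    (hy : ∀ x y t, F x (y + 1) t = F x y t) (ht : ∀ x y t, F x y (t + 2 * π) = F x y t)
    (n : ℕ) (g : Fin (m + 3) → ℤ) (x : Fin (m + 3) → ℝ) :
    Li (n : ℝ) F (fun l => x l + g l) = Li (n : ℝ) F x := by
  unfold Li
  have e0 : (n : ℝ) * (x 0 + g 0) = n * x 0 + ((n * g 0 : ℤ) : ℝ) * 1 := by push_cast; ring
  have e1 : (n : ℝ) * (x 1 + g 1) = n * x 1 + ((n * g 1 : ℤ) : ℝ) * 1 := by push_cast; ring
  have e2 : 2 * π * (n : ℝ) * (x 2 + g 2) = 2 * π * n * x 2 + ((n * g 2 : ℤ) : ℝ) * (2 * π) := by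
    push_cast; ring
  rw [e0, e1, e2]
  rw [int_shift (f := fun z => F z _ _) (fun z => hx z _ _),
    int_shift (f := fun z => F _ z _) (fun z => hy _ z _),
    int_shift (f := fun z => F _ _ z) (fun z => ht _ _ z)]

theorem AA_per (E : Ex a V U lam) (n : ℕ) (i j : Fin (m + 3)) (g : Fin (m + 3) → ℤ)
    (x : Fin (m + 3) → ℝ) : AA (n : ℝ) a i j (fun l => x l + g l) = AA (n : ℝ) a i j x := by
  by_cases h : i.val < 3 ∧ j.val < 3
  · rw [AA_lt _ _ h.1 h.2, AA_lt _ _ h.1 h.2,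
      Li_per (E.ax _ h.1 _ h.2) (E.ay _ h.1 _ h.2) (E.at' _ h.1 _ h.2)]
  · rw [AA_ge _ _ (by omega), AA_ge _ _ (by omega)]

theorem AA_sy (E : Ex a V U lam) (i j : Fin (m + 3)) (x : Fin (m + 3) → ℝ) :
    AA N a i j x = AA N a j i x := by
  by_cases h : i.val < 3 ∧ j.val < 3
  · rw [AA_lt _ _ h.1 h.2, AA_lt _ _ h.2 h.1]
    unfold Li
    rw [E.sy _ h.1 _ h.2]; ring
  · rw [AA_ge _ _ (by omega), AA_ge _ _ (by omega)]
    by_cases e : i = j
    · rw [e]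
    · rw [if_neg e, if_neg (Ne.symm e)]

/-- row sums -/
theorem row (i : Fin (m + 3)) (hi : i.val < 3) (x xi : Fin (m + 3) → ℝ) :
    ∑ j, AA N a i j x * xi j = rr i.val * (Li N (a i.val 0) x * xi 0 + Li N (a i.val 1) x * xi 1
      + Li N (a i.val 2) x * (xi 2 / (2 * π))) := by
  rw [sum3]
  have hz : ∑ k : Fin m, AA N a i k.succ.succ.succ x * xi k.succ.succ.succ = 0 := by
    apply Finset.sum_eq_zero
    intro k _
    rw [AA_ge _ _ (Or.inr (by rw [v3]; omega)), if_neg]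
    · ring
    · intro h
      have := congrArg Fin.val h
      rw [v3] at this; omega
  rw [hz, AA_lt _ _ hi (by rw [v0]; omega), AA_lt _ _ hi (by rw [v1]; omega),
    AA_lt _ _ hi (by rw [v2]; omega), v0, v1, v2, rr0, rr1, rr2]
  ring

theorem row3 (k : Fin m) (x xi : Fin (m + 3) → ℝ) :
    ∑ j, AA N a k.succ.succ.succ j x * xi j = xi k.succ.succ.succ := by
  rw [Finset.sum_eq_single k.succ.succ.succ]
  · rw [AA_ge _ _ (Or.inl (by rw [v3]; omega)), if_pos rfl]; ring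
  · intro j _ hj
    rw [AA_ge _ _ (Or.inl (by rw [v3]; omega)), if_neg (Ne.symm hj)]; ring
  · intro h; exact absurd (Finset.mem_univ _) h

theorem AA_ell (E : Ex a V U lam) (x xi : Fin (m + 3) → ℝ) :
    min (lam / (2 * π) ^ 2) 1 * ∑ i, xi i ^ 2 ≤ ∑ i, (∑ j, AA N a i j x * xi j) * xi i := by
  have hp := Real.pi_gt_three
  rw [sum3, sum3 (fun i => (∑ j, AA N a i j x * xi j) * xi i)]
  rw [row N a 0 (by rw [v0]; omega), row N a 1 (by rw [v1]; omega),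
    row N a 2 (by rw [v2]; omega), v0, v1, v2, rr0, rr1, rr2]
  have hs : ∑ k : Fin m, (∑ j, AA N a k.succ.succ.succ j x * xi j) * xi k.succ.succ.succ
      = ∑ k : Fin m, xi k.succ.succ.succ ^ 2 := by
    apply Finset.sum_congr rfl
    intro k _
    rw [row3]; ring
  rw [hs]
  have hS : 0 ≤ ∑ k : Fin m, xi k.succ.succ.succ ^ 2 := Finset.sum_nonneg fun k _ => sq_nonneg _
  have e := E.ell (N * x 0) (N * x 1) (2 * π * N * x 2) (xi 0) (xi 1) (xi 2 / (2 * π))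
  have hl := E.pos
  set mu := min (lam / (2 * π) ^ 2) 1 with hmu
  have m1 : mu ≤ lam / (2 * π) ^ 2 := min_le_left _ _
  have m2 : mu ≤ 1 := min_le_right _ _
  have h4 : (1 : ℝ) ≤ (2 * π) ^ 2 := by nlinarith
  have m3 : lam / (2 * π) ^ 2 ≤ lam := by
    rw [div_le_iff₀ (by positivity)]; nlinarith
  have hr : lam * (xi 2 / (2 * π)) ^ 2 = lam / (2 * π) ^ 2 * xi 2 ^ 2 := by
    field_simp
  unfold Li
  have a0 := sq_nonneg (xi 0)
  have a1 := sq_nonneg (xi 1)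
  have a2 := sq_nonneg (xi 2)
  have b1 : mu * xi 0 ^ 2 ≤ lam * xi 0 ^ 2 := by nlinarith
  have b2 : mu * xi 1 ^ 2 ≤ lam * xi 1 ^ 2 := by nlinarith
  have b3 : mu * xi 2 ^ 2 ≤ lam * (xi 2 / (2 * π)) ^ 2 := by rw [hr]; nlinarith
  have b4 : mu * ∑ k : Fin m, xi k.succ.succ.succ ^ 2 ≤ ∑ k : Fin m, xi k.succ.succ.succ ^ 2 := by
    nlinarith
  calc mu * (xi 0 ^ 2 + xi 1 ^ 2 + xi 2 ^ 2 + ∑ k : Fin m, xi k.succ.succ.succ ^ 2)
      ≤ lam * (xi 0 ^ 2 + xi 1 ^ 2 + (xi 2 / (2 * π)) ^ 2)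
        + ∑ k : Fin m, xi k.succ.succ.succ ^ 2 := by linarith
    _ ≤ _ := by
      refine le_trans (add_le_add_left e _) (le_of_eq ?_)
      ring

theorem flux_lift (i : Fin (m + 3)) (hi : i.val < 3) (x : Fin (m + 3) → ℝ) :
    ∑ j, AA N a i j x * pd j (Li N U) x = rr i.val * N * Li N (fl a U i.val) x := by
  have h := row N a i hi x (fun j => pd j (Li N U) x)
  have hp := Real.pi_ne_zero
  rw [h, pd0, pd1, pd2]
  unfold Li fl
  field_simp

theorem pd_const_mul (i : Fin (m + 3)) (c : ℝ) (f : (Fin (m + 3) → ℝ) → ℝ)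
    (x : Fin (m + 3) → ℝ) : pd i (fun y => c * f y) x = c * pd i f x := by
  unfold pd
  rw [deriv_const_mul_field]

theorem AA_pde (E : Ex a V U lam) (x : Fin (m + 3) → ℝ) :
    ∑ i, pd i (fun y => ∑ j, AA N a i j y * pd j (Li N U) y) x
      + N ^ 2 * Li N V x * Li N U x = 0 := by
  have hp := Real.pi_ne_zero
  rw [sum3]
  have hz : ∑ k : Fin m, pd (k.succ.succ.succ : Fin (m + 3))
      (fun y => ∑ j, AA N a k.succ.succ.succ j y * pd j (Li N U) y) x = 0 := by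
    apply Finset.sum_eq_zero
    intro k _
    have e : (fun y : Fin (m + 3) → ℝ => ∑ j, AA N a k.succ.succ.succ j y * pd j (Li N U) y)
        = fun _ => 0 := by
      funext y
      rw [row3 N a k y (fun j => pd j (Li N U) y)]
      exact pd3 N U k y
    rw [e]; unfold pd; simp
  rw [hz]
  have e0 : (fun y : Fin (m + 3) → ℝ => ∑ j, AA N a 0 j y * pd j (Li N U) y)
      = fun y => (rr 0 * N) * Li N (fl a U 0) y := by
    funext y; rw [flux_lift N a U 0 (by rw [v0]; omega), v0]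
  have e1 : (fun y : Fin (m + 3) → ℝ => ∑ j, AA N a 1 j y * pd j (Li N U) y)
      = fun y => (rr 1 * N) * Li N (fl a U 1) y := by
    funext y; rw [flux_lift N a U 1 (by rw [v1]; omega), v1]
  have e2 : (fun y : Fin (m + 3) → ℝ => ∑ j, AA N a 2 j y * pd j (Li N U) y)
      = fun y => (rr 2 * N) * Li N (fl a U 2) y := by
    funext y; rw [flux_lift N a U 2 (by rw [v2]; omega), v2]
  rw [e0, e1, e2, pd_const_mul, pd_const_mul, pd_const_mul, pd0, pd1, pd2, rr0, rr1, rr2]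
  have h := E.pde (N * x 0) (N * x 1) (2 * π * N * x 2)
  unfold Li
  have hc : 1 / (2 * π) * N * (2 * π * N * D3 (fl a U 2) (N * x 0) (N * x 1) (2 * π * N * x 2))
      = N ^ 2 * D3 (fl a U 2) (N * x 0) (N * x 1) (2 * π * N * x 2) := by
    field_simp
  rw [hc]
  linear_combination N ^ 2 * h

end

/-- the statement in m + 3 variables -/
theorem transfer (m : ℕ) {a : ℕ → ℕ → ℝ → ℝ → ℝ → ℝ} {V U : ℝ → ℝ → ℝ → ℝ} {lam : ℝ}
    (E : Ex a V U lam) (M : ℝ) : ∃ n : ℕ,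
    (∀ i j : Fin (m + 3), ContDiff ℝ ∞ (AA (n : ℝ) a i j)) ∧
    (∀ (i j : Fin (m + 3)) (x : Fin (m + 3) → ℝ), AA (n : ℝ) a i j x = AA (n : ℝ) a j i x) ∧
    ContDiff ℝ ∞ (fun x : Fin (m + 3) → ℝ => (n : ℝ) ^ 2 * Li n V x) ∧
    ContDiff ℝ ∞ (Li (m := m) n U) ∧
    (∀ (i j : Fin (m + 3)) (g : Fin (m + 3) → ℤ) (x : Fin (m + 3) → ℝ),
      AA (n : ℝ) a i j (fun l => x l + g l) = AA (n : ℝ) a i j x) ∧
    (∀ (g : Fin (m + 3) → ℤ) (x : Fin (m + 3) → ℝ),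
      (n : ℝ) ^ 2 * Li n V (fun l => x l + g l) = (n : ℝ) ^ 2 * Li n V x) ∧
    (∃ mu : ℝ, 0 < mu ∧ ∀ x xi : Fin (m + 3) → ℝ,
      mu * ∑ i, xi i ^ 2 ≤ ∑ i, (∑ j, AA (n : ℝ) a i j x * xi j) * xi i) ∧
    (∀ x : Fin (m + 3) → ℝ, ∑ i, pd i (fun y => ∑ j, AA (n : ℝ) a i j y * pd j (Li n U) y) x
      + (n : ℝ) ^ 2 * Li n V x * Li n U x = 0) ∧
    (∃ x : Fin (m + 3) → ℝ, Li (n : ℝ) U x ≠ 0) ∧
    (∀ x : Fin (m + 3) → ℝ, |Li (n : ℝ) U x| ≤ Real.exp (-(M * (x 0 ^ 2 + x 1 ^ 2)))) ∧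
    (∀ (g : Fin (m + 3) → ℤ) (x : Fin (m + 3) → ℝ), g 0 = 0 → g 1 = 0 →
      Li (n : ℝ) U (fun l => x l + g l) = Li (n : ℝ) U x) := by
  obtain ⟨k, hk⟩ := exists_nat_ge M
  have hN : (0 : ℝ) < ((k + 1 : ℕ) : ℝ) := by positivity
  have hp := Real.pi_pos
  refine ⟨k + 1, fun i j => AA_sm _ a V U E i j, fun i j x => AA_sy _ a V U E i j x,
    contDiff_const.mul (Li_sm _ E.sV),
    Li_sm _ E.sU, fun i j g x => AA_per a V U E (k + 1) i j g x, ?_, ?_, ?_, ?_, ?_, ?_⟩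
  · intro g x; rw [Li_per E.Vx E.Vy E.Vt]
  · refine ⟨min (lam / (2 * π) ^ 2) 1, lt_min (by have := E.pos; positivity) one_pos, ?_⟩
    intro x xi; exact AA_ell _ a V U E x xi
  · intro x; exact AA_pde _ a V U E x
  · obtain ⟨x, y, t, h⟩ := E.nz
    refine ⟨fun i => if i.val = 0 then x / ((k + 1 : ℕ) : ℝ) else if i.val = 1 then
      y / ((k + 1 : ℕ) : ℝ) else t / (2 * π * ((k + 1 : ℕ) : ℝ)), ?_⟩
    unfold Li
    beta_reduce
    rw [v0, v1, v2]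
    have e1 : ((k + 1 : ℕ) : ℝ) * (x / ((k + 1 : ℕ) : ℝ)) = x := by field_simp
    have e2 : ((k + 1 : ℕ) : ℝ) * (y / ((k + 1 : ℕ) : ℝ)) = y := by field_simp
    have e3 : 2 * π * ((k + 1 : ℕ) : ℝ) * (t / (2 * π * ((k + 1 : ℕ) : ℝ))) = t := by field_simp
    simp only [if_true, one_ne_zero, if_false, OfNat.ofNat_ne_zero, OfNat.ofNat_ne_one]
    rw [e1, e2, e3]; exact h
  · intro x
    unfold Li
    refine le_trans (E.dec _ _ _) (Real.exp_le_exp.2 ?_)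
    have h1 : (1 : ℝ) ≤ ((k + 1 : ℕ) : ℝ) := by push_cast; linarith [Nat.cast_nonneg (α := ℝ) k]
    have h2 : M ≤ ((k + 1 : ℕ) : ℝ) := by push_cast; linarith
    have h3 : M ≤ ((k + 1 : ℕ) : ℝ) ^ 2 := by nlinarith
    have h4 : 0 ≤ x 0 ^ 2 + x 1 ^ 2 := by positivity
    nlinarith
  · intro g x g0 g1
    unfold Li
    beta_reduce
    rw [g0, g1]
    have e2 : 2 * π * ((k + 1 : ℕ) : ℝ) * (x 2 + g 2)
        = 2 * π * ((k + 1 : ℕ) : ℝ) * x 2 + ((((k + 1 : ℕ) : ℤ) * g 2 : ℤ) : ℝ) * (2 * π) := by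
      push_cast; ring
    rw [e2, int_shift (f := fun z => U _ _ z) (fun z => E.Ut _ _ z)]
    simp

end

end Pool.Agent.Helper25.SE
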