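import Pool.Agent.Helper25.SE.Glo2
import Pool.Agent.Helper25.SE.Tr2

set_option autoImplicit false

open Real Set Filter Topology MeasureTheory
open scoped ContDiff

namespace Pool.Agent.Helper25.SE

noncomputable section

variable (K lc : ℝ)

def U1 (x y t : ℝ) : ℝ := (UC lc x y t).re
def U2 (x y t : ℝ) : ℝ := (UC lc x y t).im

theorem Ec_cd : ContDiff ℝ ∞ Ec := by
  unfold Ec
  exact (Complex.ofRealCLM.contDiff.mul contDiff_const).cexp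

theorem Gc_cd (mu c0 : ℝ) : ContDiff ℝ ∞ fun q : ℝ × ℝ × ℝ => Gc mu c0 q.1 q.2.1 := by
  unfold Gc gE
  have h1 : ContDiff ℝ ∞ fun q : ℝ × ℝ × ℝ => Real.exp (-(π / 2) * q.1 ^ 2 + π / 2 * q.2.1 ^ 2
      - 2 * π * mu * q.2.1 + c0) := by fun_prop
  have h2 : ContDiff ℝ ∞ fun q : ℝ × ℝ × ℝ => -(π * q.1 * q.2.1) + 2 * π * mu * q.1 := by fun_prop
  exact (Complex.ofRealCLM.contDiff.comp h1).mul (Ec_cd.comp h2)

theorem sh_cd {P : ℝ → ℝ} (hP : ContDiff ℝ ∞ P) : ContDiff ℝ ∞ (sh P) :=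
  (hP.neg.exp).mul (chi_cd.comp contDiff_neg)
theorem sk_cd {P : ℝ → ℝ} (hP : ContDiff ℝ ∞ P) : ContDiff ℝ ∞ (sk P) :=
  ((contDiff_const.mul hP).neg.exp).mul chi_cd

theorem Hc_cd {P : ℝ → ℝ} (hP : ContDiff ℝ ∞ P) (sg y0 nu : ℝ) :
    ContDiff ℝ ∞ fun q : ℝ × ℝ × ℝ => Hc P (sg * (q.2.1 - y0)) (q.2.2 - nu * q.1) := by
  have hy : ContDiff ℝ ∞ fun q : ℝ × ℝ × ℝ => sg * (q.2.1 - y0) := by fun_prop
  have ht : ContDiff ℝ ∞ fun q : ℝ × ℝ × ℝ => q.2.2 - nu * q.1 := by fun_prop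
  have ht3 : ContDiff ℝ ∞ fun q : ℝ × ℝ × ℝ => 3 * (q.2.2 - nu * q.1) := by fun_prop
  have h1 : ContDiff ℝ ∞ fun q : ℝ × ℝ × ℝ => ((sh P (sg * (q.2.1 - y0)) : ℝ) : ℂ) :=
    Complex.ofRealCLM.contDiff.comp ((sh_cd hP).comp hy)
  have h2 : ContDiff ℝ ∞ fun q : ℝ × ℝ × ℝ => ((sk P (sg * (q.2.1 - y0)) : ℝ) : ℂ) :=
    Complex.ofRealCLM.contDiff.comp ((sk_cd hP).comp hy)
  have h3 := (h1.mul (Ec_cd.comp ht)).add (h2.mul (Ec_cd.comp ht3))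
  have e : (fun q : ℝ × ℝ × ℝ => Hc P (sg * (q.2.1 - y0)) (q.2.2 - nu * q.1))
      = fun q : ℝ × ℝ × ℝ => ((sh P (sg * (q.2.1 - y0)) : ℝ) : ℂ) * Ec (q.2.2 - nu * q.1)
        + ((sk P (sg * (q.2.1 - y0)) : ℝ) : ℂ) * Ec (3 * (q.2.2 - nu * q.1)) := by
    funext q; unfold Hc; rw [Ec3]
  rw [e]; exact h3

theorem PC_cd : ContDiff ℝ ∞ PC := by
  unfold PC
  have h1 : ContDiff ℝ ∞ fun s : ℝ => 1/2 - s := by fun_prop
  exact ((contDiff_const.mul contDiff_id).add (PB_cd.comp h1)).sub contDiff_const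

theorem lo_cd {P a : ℝ → ℝ} {K mu nu c0 y0 sg : ℝ} {UC : ℝ → ℝ → ℝ → ℂ}
    {A1 A2 p W : ℝ → ℝ → ℝ → ℝ} {a' : ℝ → ℝ} {I : Set ℝ} (hP : ContDiff ℝ ∞ P)
    (L : Lo P a K mu nu c0 y0 sg UC A1 A2 p W a' I) (q : ℝ × ℝ × ℝ) (hq : q.2.1 ∈ I) :
    ContDiffAt ℝ ∞ (fun q : ℝ × ℝ × ℝ => UC q.1 q.2.1 q.2.2) q := by
  have e : (fun q : ℝ × ℝ × ℝ => UC q.1 q.2.1 q.2.2) =ᶠ[𝓝 q]
      fun q => Gc mu c0 q.1 q.2.1 * Hc P (sg * (q.2.1 - y0)) (q.2.2 - nu * q.1) := by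
    have ho : IsOpen {q : ℝ × ℝ × ℝ | q.2.1 ∈ I} := L.ho.preimage (by fun_prop)
    filter_upwards [ho.mem_nhds hq] with z hz
    exact L.eU _ hz _ _
  refine ContDiffAt.congr_of_eventuallyEq ?_ e
  exact ((Gc_cd mu c0).mul (Hc_cd hP sg y0 nu)).contDiffAt

theorem UC_cd : ContDiff ℝ ∞ fun q : ℝ × ℝ × ℝ => UC lc q.1 q.2.1 q.2.2 := by
  rw [contDiff_iff_contDiffAt]
  intro q
  obtain ⟨n, hy | hy⟩ := cover q.2.1
  · exact lo_cd PB_cd (loI 0 lc n) q hy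
  · exact lo_cd PC_cd (loII 0 lc n) q hy

theorem U1_sm : Sm (U1 lc) := Complex.reCLM.contDiff.comp (UC_cd lc)
theorem U2_sm : Sm (U2 lc) := Complex.imCLM.contDiff.comp (UC_cd lc)

theorem ee (x y t : ℝ) : EE1 (U1 lc) (U2 lc) Aα Aβ x y t = 0 ∧ EE2 (U1 lc) (U2 lc) Aα Aβ x y t = 0 := by
  obtain ⟨n, hy | hy⟩ := cover y
  · exact (loI 0 lc n).ee coreSI hy x t
  · exact (loII 0 lc n).ee coreSII hy x t

theorem fib (x y t : ℝ) : D3 (pB K) x y t * D3 (U1 lc) x y t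
    + pB K x y t * D3 (D3 (U1 lc)) x y t + WB K x y t * U1 lc x y t
    + Th Aα Aβ x y t * D3 (U2 lc) x y t + 1/2 * D3 (Th Aα Aβ) x y t * U2 lc x y t = 0 := by
  obtain ⟨n, hy | hy⟩ := cover y
  · exact (loI K lc n).fib coreSI hy x t
  · exact (loII K lc n).fib coreSII hy x t

/-- coefficient matrix -/
def aM (i j : ℕ) : ℝ → ℝ → ℝ → ℝ :=
  if i = 2 then
    (if j = 2 then fun x y t => Aα x y t ^ 2 + Aβ x y t ^ 2 + pB K x y t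
      else if j = 1 then Aβ else Aα)
  else if j = 2 then (if i = 1 then Aβ else Aα)
  else if i = j then fun _ _ _ => 1 else fun _ _ _ => 0

def VB : ℝ → ℝ → ℝ → ℝ := pot Aα Aβ (WB K)

theorem pde_sym (x y t : ℝ) : D1 (fl (aM K) (U1 lc) 0) x y t + D2 (fl (aM K) (U1 lc) 1) x y t
    + D3 (fl (aM K) (U1 lc) 2) x y t + VB K x y t * U1 lc x y t = 0 := by
  have h := lemS (U1_sm lc) (U2_sm lc) Aα_sm Aβ_sm (pB_sm K) (fun x y t => (ee lc x y t).1)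
    (fun x y t => (ee lc x y t).2) (fib K lc) x y t
  have e0 : fl (aM K) (U1 lc) 0 = fun x y t => D1 (U1 lc) x y t + Aα x y t * D3 (U1 lc) x y t := by
    funext x y t; unfold fl aM; simp
  have e1 : fl (aM K) (U1 lc) 1 = fun x y t => D2 (U1 lc) x y t + Aβ x y t * D3 (U1 lc) x y t := by
    funext x y t; unfold fl aM; simp
  have e2 : fl (aM K) (U1 lc) 2 = fun x y t => Aα x y t * D1 (U1 lc) x y t
      + Aβ x y t * D2 (U1 lc) x y t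
      + (Aα x y t ^ 2 + Aβ x y t ^ 2 + pB K x y t) * D3 (U1 lc) x y t := by
    funext x y t; unfold fl aM; simp
  rw [e0, e1, e2]
  exact h

end

end Pool.Agent.Helper25.SE
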