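import Pool.Agent.Helper25.SE.Per
import Pool.Agent.Helper25.SE.Fib2

set_option autoImplicit false

open Real Set Filter Topology MeasureTheory
open scoped ContDiff

namespace Pool.Agent.Helper25.SE

noncomputable section

def BB (y : ℝ) : ℝ := per chi1 (y - 3/8)
def a0 (y : ℝ) : ℝ := -48 - Real.sin (4 * π * y) + (96 + π) * SS y
def P0 (y : ℝ) : ℝ := ∫ s in (0 : ℝ)..y, a0 s
def kap : ℝ := -(P0 1 + 2 * P0 (1/2)) / 3
def ab (y : ℝ) : ℝ := a0 y + kap * BB y
def PB (y : ℝ) : ℝ := ∫ s in (0 : ℝ)..y, ab s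

theorem chi1_sup : Sup chi1 := fun s hs => by
  rcases lt_abs.1 hs with h | h
  · exact chi1_gt (by linarith)
  · exact chi1_lt (by linarith)

theorem BB_cd : ContDiff ℝ ∞ BB :=
  (per_cd chi1_sup chi1_cd).comp (contDiff_id.sub contDiff_const)
theorem a0_cd : ContDiff ℝ ∞ a0 := by
  have h : ContDiff ℝ ∞ fun y : ℝ => -48 - Real.sin (4 * π * y) := by fun_prop
  exact h.add (contDiff_const.mul SS_cd)
theorem ab_cd : ContDiff ℝ ∞ ab := a0_cd.add (contDiff_const.mul BB_cd)

theorem BB_per (y : ℝ) : BB (y + 1) = BB y := by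
  unfold BB
  rw [show y + 1 - 3/8 = (y - 3/8) + 1 by ring, per_add_one]
theorem a0_per (y : ℝ) : a0 (y + 1) = a0 y := by
  unfold a0
  rw [SS_per, show 4 * π * (y + 1) = 4 * π * y + 2 * π + 2 * π by ring,
    Real.sin_add_two_pi, Real.sin_add_two_pi]
theorem ab_per (y : ℝ) : ab (y + 1) = ab y := by unfold ab; rw [a0_per, BB_per]

theorem BB_mid {y : ℝ} (h : |y - 3/8| < 3/4) : BB y = chi1 (y - 3/8) := by
  unfold BB
  have := per_eq chi1_sup 0 (y := y - 3/8) (by simpa using h)
  rw [this]; simp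

theorem ab_in {y : ℝ} (h : |y| ≤ 1/6) : ab y = az y := by
  have h1 := abs_le.1 h
  have hB : BB y = 0 := by
    rw [BB_mid (abs_lt.2 ⟨by linarith, by linarith⟩)]
    exact chi1_lt (by linarith)
  unfold ab a0 az
  rw [hB, SS_zero h]; ring

theorem ab_half {s : ℝ} (h : |s| ≤ 1/6) : π - ab (1/2 - s) = az s := by
  have h1 := abs_le.1 h
  have hB : BB (1/2 - s) = 0 := by
    rw [BB_mid (abs_lt.2 ⟨by linarith, by linarith⟩)]
    exact chi1_gt (by linarith)
  unfold ab a0 az
  rw [hB, SS_one h, show 4 * π * (1/2 - s) = 2 * π - 4 * π * s by ring, Real.sin_two_pi_sub]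
  ring

theorem int_has {f : ℝ → ℝ} (hc : Continuous f) (y : ℝ) :
    HasDerivAt (fun y => ∫ s in (0 : ℝ)..y, f s) (f y) y :=
  intervalIntegral.integral_hasDerivAt_right (hc.intervalIntegrable _ _)
    hc.stronglyMeasurable.stronglyMeasurableAtFilter hc.continuousAt

theorem PB_has (y : ℝ) : HasDerivAt PB (ab y) y := int_has ab_cd.continuous y
theorem PB_zero : PB 0 = 0 := by unfold PB; simp

theorem PB_cd : ContDiff ℝ ∞ PB := by
  rw [contDiff_infty_iff_deriv]
  refine ⟨fun y => (PB_has y).differentiableAt, ?_⟩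
  have : deriv PB = ab := funext fun y => (PB_has y).deriv
  rw [this]; exact ab_cd

theorem PB_sub_one (y : ℝ) : PB (y - 1) = PB y - PB 1 := by
  have h : ∀ z, HasDerivAt (fun z => PB (z - 1) - PB z) 0 z := by
    intro z
    have h0 : HasDerivAt (fun z => PB (z - 1)) (ab (z - 1)) z :=
      (PB_has (z - 1)).comp_sub_const z 1
    have h1 := h0.sub (PB_has z)
    have e : (0 : ℝ) = ab (z - 1) - ab z := by
      have := ab_per (z - 1)
      rw [show z - 1 + 1 = z by ring] at this
      rw [this]; ring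
    rw [e]; exact h1
  have := const_of_has h y 1
  rw [show (1 : ℝ) - 1 = 0 by norm_num, PB_zero] at this
  linarith

theorem PB_split {y : ℝ} (h0 : 0 ≤ y) (h1 : y ≤ 1) : PB y = P0 y + kap * chi (y - 3/8) := by
  unfold PB P0
  have hc0 : Continuous a0 := a0_cd.continuous
  have hcB : Continuous BB := BB_cd.continuous
  have e : ∫ s in (0 : ℝ)..y, ab s = (∫ s in (0 : ℝ)..y, a0 s) + ∫ s in (0 : ℝ)..y, kap * BB s :=
    intervalIntegral.integral_add (hc0.intervalIntegrable _ _)
      ((continuous_const.mul hcB).intervalIntegrable _ _)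
  rw [e, intervalIntegral.integral_const_mul]
  have e2 : ∫ s in (0 : ℝ)..y, BB s = chi (y - 3/8) - chi (0 - 3/8) := by
    have h := intervalIntegral.integral_eq_sub_of_hasDerivAt (a := 0) (b := y)
      (f := fun s => chi (s - 3/8)) (f' := BB) (fun s hs => ?_) (hcB.intervalIntegrable _ _)
    · exact h
    · rw [Set.uIcc_of_le h0] at hs
      have hs1 := hs.1
      have hs2 := hs.2
      rw [BB_mid (abs_lt.2 ⟨by linarith, by linarith⟩)]
      exact (cd_has chi_cd (s - 3/8)).comp_sub_const s (3/8)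
  rw [e2, chi_zero (y := 0 - 3/8) (by norm_num)]
  ring

theorem PB_rel : PB 1 = -2 * PB (1/2) := by
  rw [PB_split (y := 1) (by norm_num) le_rfl, PB_split (y := 1/2) (by norm_num) (by norm_num),
    chi_one (y := 1 - 3/8) (by norm_num), chi_one (y := 1/2 - 3/8) (by norm_num)]
  unfold kap
  ring

theorem Pz_has (y : ℝ) : HasDerivAt Pz (az y) y := by
  have hp := Real.pi_pos.ne'
  have h1 : HasDerivAt (fun y : ℝ => Real.cos (4 * π * y)) (-Real.sin (4 * π * y) * (4 * π * 1)) y :=
    ((hasDerivAt_id y).const_mul (4 * π)).cos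
  have h2 := ((hasDerivAt_id y).const_mul (-48)).sub ((h1.const_sub 1).div_const (4 * π))
  have e : az y = -48 * 1 - -(-Real.sin (4 * π * y) * (4 * π * 1)) / (4 * π) := by
    unfold az; field_simp
  rw [e]; exact h2

theorem Pz_zero : Pz 0 = 0 := by unfold Pz; simp

theorem eq_of_az {P a : ℝ → ℝ} (hP : ∀ s, HasDerivAt P (a s) s) (ha : Continuous a)
    (h0 : P 0 = 0) (h1 : ∀ s, |s| ≤ 1/6 → a s = az s) : ∀ s, |s| ≤ 1/6 → P s = Pz s := by
  intro s hs
  have i1 := intervalIntegral.integral_eq_sub_of_hasDerivAt (a := 0) (b := s)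
    (fun r _ => hP r) (ha.intervalIntegrable _ _)
  have i2 := intervalIntegral.integral_eq_sub_of_hasDerivAt (a := 0) (b := s)
    (fun r _ => Pz_has r) (az_cd.continuous.intervalIntegrable _ _)
  have i3 : ∫ r in (0 : ℝ)..s, a r = ∫ r in (0 : ℝ)..s, az r := by
    apply intervalIntegral.integral_congr
    intro r hr
    apply h1
    have h1 := abs_le.1 hs
    rcases Set.mem_uIcc.1 hr with ⟨a, b⟩ | ⟨a, b⟩
    · exact abs_le.2 ⟨by linarith, by linarith⟩
    · exact abs_le.2 ⟨by linarith, by linarith⟩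
  rw [h0] at i1
  rw [Pz_zero] at i2
  linarith

theorem coreSI : CoreS PB ab where
  hP := PB_has
  P1 := eq_of_az PB_has ab_cd.continuous PB_zero fun _ h => ab_in h
  a1 := fun _ h => ab_in h

def PC (s : ℝ) : ℝ := π * s + PB (1/2 - s) - PB (1/2)
def ac (s : ℝ) : ℝ := π - ab (1/2 - s)

theorem PC_has (s : ℝ) : HasDerivAt PC (ac s) s := by
  have h1 : HasDerivAt (fun s : ℝ => π * s) (π * 1) s := (hasDerivAt_id s).const_mul π
  have h2 := (h1.add (has_half (PB_has (1/2 - s)))).sub_const (PB (1/2))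
  have e : ac s = π * 1 + -(ab (1/2 - s)) := by unfold ac; ring
  rw [e]; exact h2

theorem ac_cont : Continuous ac := by
  unfold ac
  have := ab_cd.continuous
  fun_prop

theorem coreSII : CoreS PC ac where
  hP := PC_has
  P1 := eq_of_az PC_has ac_cont (by unfold PC; simp) fun _ h => ab_half h
  a1 := fun _ h => ab_half h

end

end Pool.Agent.Helper25.SE
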